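import Mathlib

/-!
Counting lemmas for finite groups.
-/

namespace H60.KG

/-- fibre counting for a hom restricted to a subgroup -/
theorem card_le_ker_mul {H G : Type*} [Group H] [Group G] [Finite H] [Finite G] (f : H →* G)
    (C : Subgroup H) : Nat.card C ≤ Nat.card (C ⊓ f.ker : Subgroup H) * Nat.card G := by
  let g : C →* G := f.comp C.subtype
  have h1 := Subgroup.card_mul_index g.ker
  rw [Subgroup.index_ker] at h1
  rw [← h1]
  apply Nat.mul_le_mul
  · apply Nat.card_le_card_of_injective (fun x : g.ker => (⟨x.1.1, x.1.2, x.2⟩ :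
      (C ⊓ f.ker : Subgroup H)))
    intro x y hxy
    apply Subtype.ext
    apply Subtype.ext
    have := congrArg (fun z : (C ⊓ f.ker : Subgroup H) => (z : H)) hxy
    exact this
  · exact Subgroup.card_le_card_group _

theorem exists_gen {N : Type*} [Group N] [Finite N] :
    ∃ S : Finset N, Subgroup.closure (S : Set N) = ⊤ ∧ 2 ^ S.card ≤ Nat.card N := by
  classical
  haveI := Fintype.ofFinite N
  obtain ⟨S, hS, hmax⟩ := (Set.toFinite {S : Finset N | 2 ^ S.card ≤
    Nat.card (Subgroup.closure (S : Set N))}).exists_maximalFor (fun S => S.card) _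
    ⟨∅, by simp⟩
  refine ⟨S, ?_, hS.trans (Subgroup.card_le_card_group _)⟩
  by_contra hne
  obtain ⟨g, hg⟩ : ∃ g, g ∉ Subgroup.closure (S : Set N) := by
    by_contra hcon
    push_neg at hcon
    exact hne (eq_top_iff.mpr fun x _ => hcon x)
  have hgS : g ∉ S := fun h => hg (Subgroup.subset_closure h)
  have hle : Subgroup.closure (S : Set N) ≤ Subgroup.closure ((insert g S : Finset N) : Set N) :=
    Subgroup.closure_mono (by simp)
  obtain ⟨k, hk⟩ := Subgroup.card_dvd_of_le hle
  have hk2 : 2 ≤ k := by
    by_contra hk1
    have hk3 : k = 0 ∨ k = 1 := by omega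
    rcases hk3 with rfl | rfl
    · rw [mul_zero] at hk
      exact absurd hk (Nat.card_pos).ne'
    · rw [mul_one] at hk
      have : Subgroup.closure (S : Set N) = Subgroup.closure ((insert g S : Finset N) : Set N) :=
        Subgroup.eq_of_le_of_card_ge hle hk.le
      apply hg
      rw [this]
      exact Subgroup.subset_closure (by simp)
  have hmem : (insert g S : Finset N) ∈ {S : Finset N | 2 ^ S.card ≤
    Nat.card (Subgroup.closure (S : Set N))} := by
    change 2 ^ (insert g S).card ≤ _
    rw [Finset.card_insert_of_notMem hgS, pow_succ, hk]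
    exact Nat.mul_le_mul hS hk2
  have := hmax hmem (by
    change S.card ≤ (insert g S).card
    rw [Finset.card_insert_of_notMem hgS]; omega)
  change (insert g S).card ≤ S.card at this
  rw [Finset.card_insert_of_notMem hgS] at this
  omega

theorem card_mulAut_le {N : Type*} [Group N] [Finite N] :
    Nat.card (MulAut N) ≤ Nat.card N ^ Nat.log 2 (Nat.card N) := by
  classical
  obtain ⟨S, hS, hc⟩ := exists_gen (N := N)
  have hinj : Function.Injective (fun (f : MulAut N) (s : S) => f (s : N)) := by
    intro f g hfg
    have h1 : (f : N →* N) = (g : N →* N) := by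
      apply MonoidHom.eq_of_eqOn_dense hS
      intro s hs
      exact congrFun hfg ⟨s, hs⟩
    ext x
    exact DFunLike.congr_fun h1 x
  have h2 := Nat.card_le_card_of_injective _ hinj
  rw [Nat.card_fun] at h2
  refine h2.trans ?_
  apply Nat.pow_le_pow_right Nat.card_pos
  apply Nat.le_log_of_pow_le (by norm_num)
  simpa using hc

/-- a finite group `N` normalized by `Γ`: the centralizer has small index -/
theorem card_le_centralizer {H : Type*} [Group H] [Finite H] (N : Subgroup H) [N.Normal]
    (C : Subgroup H) :
    Nat.card C ≤ Nat.card (C ⊓ Subgroup.centralizer (N : Set H) : Subgroup H) *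
      Nat.card N ^ Nat.log 2 (Nat.card N) := by
  have h1 := card_le_ker_mul (MulAut.conjNormal (H := N)) C
  have h2 : (MulAut.conjNormal (H := N)).ker = Subgroup.centralizer (N : Set H) := by
    ext g
    rw [MonoidHom.mem_ker, Subgroup.mem_centralizer_iff]
    constructor
    · intro h n hn
      have := DFunLike.congr_fun h (⟨n, hn⟩ : N)
      have h3 := congrArg Subtype.val this
      rw [MulAut.conjNormal_apply] at h3
      have h4 : g * n * g⁻¹ = n := h3
      calc n * g = (g * n * g⁻¹) * g := by rw [h4]
        _ = g * n := by group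
    · intro h
      ext n
      rw [MulAut.conjNormal_apply]
      have := h n n.2
      simp [← this]
  rw [h2] at h1
  exact h1.trans (Nat.mul_le_mul_left _ card_mulAut_le)

theorem card_ringAut_le {K : Type*} [Field K] [Finite K] :
    Nat.card (RingAut K) ≤ Nat.log 2 (Nat.card K) := by
  classical
  haveI := Fintype.ofFinite K
  obtain ⟨p, hp⟩ := CharP.exists K
  haveI := hp
  haveI : Fact p.Prime := ⟨CharP.char_is_prime K p⟩
  letI := ZMod.algebra K p
  let Φ : RingAut K → (K →ₐ[ZMod p] K) := fun f =>
    { toRingHom := RingEquiv.toRingHom f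
      commutes' := fun r => DFunLike.congr_fun (Subsingleton.elim
            ((RingEquiv.toRingHom f).comp (algebraMap (ZMod p) K)) (algebraMap (ZMod p) K)) r }
  have hinj : Function.Injective Φ := by
    intro f g hfg
    ext x
    exact DFunLike.congr_fun hfg x
  have h2 := Nat.card_le_card_of_injective _ hinj
  refine h2.trans ?_
  have h3 : Nat.card (K →ₐ[ZMod p] K) ≤ Module.finrank (ZMod p) K := by
    rw [Nat.card_eq_fintype_card]
    exact AlgHom.card_le
  refine h3.trans ?_
  apply Nat.le_log_of_pow_le (by norm_num)
  rw [Module.natCard_eq_pow_finrank (K := ZMod p) (V := K), Nat.card_zmod]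
  exact Nat.pow_le_pow_left (Fact.out : p.Prime).two_le _

end H60.KG
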