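import Pool.Agent.H60.KG.NT

/-!
Sharper number theory: a divisor `a` of `p ^ d - 1` is at most `p ^ σ * d`, where `σ` is the sum of
the primes dividing `a`.
-/

namespace H60.KG

theorem val_bound2 {p r d : ℕ} (hp : p.Prime) (hr : r.Prime) (hrp : ¬ r ∣ p) (hd : d ≠ 0) :
    r ^ padicValNat r (p ^ d - 1) ≤ p ^ r * r ^ padicValNat r d := by
  haveI : Fact r.Prime := ⟨hr⟩
  have hp2 := hp.two_le
  have hpd : 1 < p ^ d := Nat.one_lt_pow hd hp.one_lt
  by_cases h2 : r = 2
  · subst h2
    have hodd : ¬ 2 ∣ p := hrp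
    have hsub : 2 ∣ p - 1 := by omega
    have h1 := padicValNat.pow_two_sub_pow (x := p) (y := 1) hp.one_lt hsub hodd
      (n := 2 * d) (by omega) (by simp)
    rw [one_pow] at h1
    have hv : padicValNat 2 (2 * d) = 1 + padicValNat 2 d := by
      rw [padicValNat.mul (by norm_num) hd, padicValNat_self]
    rw [hv] at h1
    have hdvd : p ^ d - 1 ∣ p ^ (2 * d) - 1 := by
      have := Nat.sub_dvd_pow_sub_pow (p ^ d) 1 2
      rw [one_pow, ← pow_mul, mul_comm d 2] at this
      exact this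
    have hne : p ^ (2 * d) - 1 ≠ 0 := by
      have : 1 < p ^ (2 * d) := Nat.one_lt_pow (by omega) hp.one_lt
      omega
    have h3 : padicValNat 2 (p ^ d - 1) ≤ padicValNat 2 (p ^ (2 * d) - 1) :=
      padicValNat_dvd_iff_le hne |>.mp (pow_padicValNat_dvd.trans hdvd)
    have e1 : 2 ^ padicValNat 2 (p + 1) ≤ p + 1 := Nat.le_of_dvd (by omega) pow_padicValNat_dvd
    have e2 : 2 ^ padicValNat 2 (p - 1) ≤ p - 1 := Nat.le_of_dvd (by omega) pow_padicValNat_dvd
    calc 2 ^ padicValNat 2 (p ^ d - 1)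
        ≤ 2 ^ (padicValNat 2 (p + 1) + padicValNat 2 (p - 1) + padicValNat 2 d) :=
          Nat.pow_le_pow_right (by norm_num) (by omega)
      _ = 2 ^ padicValNat 2 (p + 1) * 2 ^ padicValNat 2 (p - 1) * 2 ^ padicValNat 2 d := by
          rw [pow_add, pow_add]
      _ ≤ (p + 1) * (p - 1) * 2 ^ padicValNat 2 d :=
          Nat.mul_le_mul_right _ (Nat.mul_le_mul e1 e2)
      _ ≤ p ^ 2 * 2 ^ padicValNat 2 d := by
          apply Nat.mul_le_mul_right
          obtain ⟨k, rfl⟩ : ∃ k, p = k + 1 := ⟨p - 1, by omega⟩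
          simp only [Nat.add_sub_cancel]
          nlinarith
  · have hodd : Odd r := hr.odd_of_ne_two h2
    have hcop : Nat.Coprime p r := (Nat.coprime_primes hp hr).mpr (by
      rintro rfl
      exact hrp dvd_rfl)
    set x := p ^ (r - 1) with hx
    have hr3 : 3 ≤ r := by
      have := hr.two_le
      omega
    have hx1 : 1 < x := Nat.one_lt_pow (by omega) hp.one_lt
    have hmod : x ≡ 1 [MOD r] := by
      have := Nat.ModEq.pow_totient hcop
      rwa [Nat.totient_prime hr] at this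
    have hrx : r ∣ x - 1 := (Nat.modEq_iff_dvd' hx1.le).mp hmod.symm
    have hnx : ¬ r ∣ x := by
      intro h
      exact hrp (hr.dvd_of_dvd_pow h)
    have h1 := padicValNat.pow_sub_pow hodd hx1 hrx hnx (n := d) hd
    rw [one_pow] at h1
    have hdvd : p ^ d - 1 ∣ x ^ d - 1 := by
      have := Nat.sub_dvd_pow_sub_pow (p ^ d) 1 (r - 1)
      rw [one_pow, ← pow_mul, mul_comm d (r - 1), pow_mul] at this
      exact this
    have hne : x ^ d - 1 ≠ 0 := by
      have : 1 < x ^ d := Nat.one_lt_pow hd hx1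
      omega
    have h3 : padicValNat r (p ^ d - 1) ≤ padicValNat r (x ^ d - 1) :=
      padicValNat_dvd_iff_le hne |>.mp (pow_padicValNat_dvd.trans hdvd)
    have e1 : r ^ padicValNat r (x - 1) ≤ x - 1 := Nat.le_of_dvd (by omega) pow_padicValNat_dvd
    calc r ^ padicValNat r (p ^ d - 1) ≤ r ^ padicValNat r (x ^ d - 1) :=
          Nat.pow_le_pow_right (by omega) h3
      _ = r ^ padicValNat r (x - 1) * r ^ padicValNat r d := by rw [h1, pow_add]
      _ ≤ (x - 1) * r ^ padicValNat r d := Nat.mul_le_mul_right _ e1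
      _ ≤ p ^ r * r ^ padicValNat r d := by
          apply Nat.mul_le_mul_right
          have : x ≤ p ^ r := Nat.pow_le_pow_right (by omega) (by omega)
          omega

theorem prod_pow_fact_le {d : ℕ} (hd : d ≠ 0) (F : Finset ℕ) :
    ∏ r ∈ F, r ^ d.factorization r ≤ d := by
  classical
  have h1 : ∏ r ∈ F, r ^ d.factorization r = ∏ r ∈ F ∩ d.primeFactors, r ^ d.factorization r := by
    rw [← Finset.prod_subset (Finset.inter_subset_left : F ∩ d.primeFactors ⊆ F)]
    intro r hr hr'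
    have : r ∉ d.primeFactors := fun h => hr' (Finset.mem_inter.mpr ⟨hr, h⟩)
    rw [← Nat.support_factorization, Finsupp.notMem_support_iff] at this
    rw [this, pow_zero]
  have h2 : ∏ r ∈ d.primeFactors, r ^ d.factorization r = d :=
    Nat.factorization_prod_pow_eq_self hd
  rw [h1]
  calc ∏ r ∈ F ∩ d.primeFactors, r ^ d.factorization r
      ≤ ∏ r ∈ d.primeFactors, r ^ d.factorization r := by
        apply Finset.prod_le_prod_of_subset_of_one_le' Finset.inter_subset_right
        intro r hr _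
        exact Nat.one_le_pow _ _ (Nat.prime_of_mem_primeFactors hr).pos
    _ = d := h2

theorem part_bound2 {p d a : ℕ} (hp : p.Prime) (hd : d ≠ 0) (ha : a ∣ p ^ d - 1) :
    a ≤ p ^ (∑ r ∈ a.primeFactors, r) * d := by
  have hpd : 1 < p ^ d := Nat.one_lt_pow hd hp.one_lt
  have ha0 : a ≠ 0 := by
    rintro rfl
    rw [zero_dvd_iff] at ha
    omega
  have h1 : ∀ r ∈ a.primeFactors, r ^ a.factorization r ≤ p ^ r * r ^ d.factorization r := by
    intro r hr
    have hrp := Nat.prime_of_mem_primeFactors hr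
    have hra := Nat.dvd_of_mem_primeFactors hr
    haveI : Fact r.Prime := ⟨hrp⟩
    have hnd : ¬ r ∣ p := by
      intro h
      have h2 : r ∣ p ^ d := dvd_pow h hd
      have h3 := hra.trans ha
      have h4 : r ∣ p ^ d - (p ^ d - 1) := Nat.dvd_sub h2 h3
      rw [Nat.sub_sub_self hpd.le] at h4
      exact hrp.one_lt.ne' (Nat.dvd_one.mp h4)
    have h2 : a.factorization r ≤ padicValNat r (p ^ d - 1) := by
      rw [← padicValNat_dvd_iff_le (by omega)]
      exact (Nat.ordProj_dvd a r).trans ha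
    calc r ^ a.factorization r ≤ r ^ padicValNat r (p ^ d - 1) :=
          Nat.pow_le_pow_right hrp.pos h2
      _ ≤ p ^ r * r ^ padicValNat r d := val_bound2 hp hrp hnd hd
      _ = p ^ r * r ^ d.factorization r := by rw [Nat.factorization_def d hrp]
  calc a = ∏ r ∈ a.primeFactors, r ^ a.factorization r := by
        conv_lhs => rw [← Nat.factorization_prod_pow_eq_self ha0]
        rfl
    _ ≤ ∏ r ∈ a.primeFactors, (p ^ r * r ^ d.factorization r) := Finset.prod_le_prod' h1
    _ = p ^ (∑ r ∈ a.primeFactors, r) * ∏ r ∈ a.primeFactors, r ^ d.factorization r := by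
        rw [Finset.prod_mul_distrib, Finset.prod_pow_eq_pow_sum]
    _ ≤ p ^ (∑ r ∈ a.primeFactors, r) * d := Nat.mul_le_mul_left _ (prod_pow_fact_le hd _)

theorem lin_aux2 (h : ℕ) (hh : 4 ≤ h) : 4 * h + 3 ≤ 2 ^ (h + 1) := by
  induction h, hh using Nat.le_induction with
  | base => norm_num
  | succ n hn ih =>
    rw [pow_succ]
    omega

/-- the inequality needed for groups with given prime divisors -/
theorem sigma_bound {n p d a : ℕ} (hn : n ≠ 0) (hp : p.Prime) (hpn : p ∣ n)
    (hM : (n.primeFactors.sup id) ^ (8 * ∑ r ∈ n.primeFactors, r) < p ^ d)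
    (ha : a ∣ p ^ d - 1) (han : a ∣ n) : a ^ 2 ≤ p ^ d := by
  set P := n.primeFactors.sup id with hP
  set σ := ∑ r ∈ n.primeFactors, r with hσ
  have hpmem : p ∈ n.primeFactors := Nat.mem_primeFactors.mpr ⟨hp, hpn, hn⟩
  have hpP : p ≤ P := Finset.le_sup (f := id) hpmem
  have hp2 := hp.two_le
  have hσ2 : 2 ≤ σ := le_trans hp2 (Finset.single_le_sum (f := fun r => r)
    (fun r _ => Nat.zero_le r) hpmem)
  have hdσ : 8 * σ < d := by
    by_contra hcon
    rw [not_lt] at hcon
    have : p ^ d ≤ P ^ (8 * σ) := (Nat.pow_le_pow_left hpP d).trans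
      (Nat.pow_le_pow_right (by omega) hcon)
    omega
  have hd : d ≠ 0 := by omega
  have h1 := part_bound2 hp hd ha
  have h2 : ∑ r ∈ a.primeFactors, r ≤ σ :=
    Finset.sum_le_sum_of_subset (Nat.primeFactors_mono han hn)
  have h3 : a ≤ p ^ σ * d := h1.trans (Nat.mul_le_mul_right _ (Nat.pow_le_pow_right (by omega) h2))
  set h := d / 4 with hh
  have h4 : d ≤ 2 ^ (h + 1) := le_trans (by omega) (lin_aux2 h (by omega))
  have h5 : d ^ 2 ≤ p ^ (d - 2 * σ) := by
    calc d ^ 2 ≤ (2 ^ (h + 1)) ^ 2 := Nat.pow_le_pow_left h4 2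
      _ = 2 ^ (2 * (h + 1)) := by rw [← pow_mul, mul_comm]
      _ ≤ 2 ^ (d - 2 * σ) := Nat.pow_le_pow_right (by norm_num) (by omega)
      _ ≤ p ^ (d - 2 * σ) := Nat.pow_le_pow_left hp2 _
  calc a ^ 2 ≤ (p ^ σ * d) ^ 2 := Nat.pow_le_pow_left h3 2
    _ = p ^ (2 * σ) * d ^ 2 := by rw [mul_pow, ← pow_mul, mul_comm σ 2]
    _ ≤ p ^ (2 * σ) * p ^ (d - 2 * σ) := Nat.mul_le_mul_left _ h5
    _ = p ^ d := by rw [← pow_add]; congr 1; omega

end H60.KG
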