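import Pool.Agent.H60.KG.Fin
import Pool.Agent.H60.KG.NT2

/-!
Logarithmic forms of the bound.
-/

namespace H60.KG

universe u

open Real

/-- real version of `lam` -/
noncomputable def lamR (s : ℕ) : ℝ := (1 + s) * (1 + Real.logb 2 (1 + s))

theorem one_le_lamR (s : ℕ) : 1 ≤ lamR s := by
  unfold lamR
  have h1 : (0 : ℝ) ≤ s := Nat.cast_nonneg s
  have h2 : 0 ≤ Real.logb 2 (1 + (s : ℝ)) := Real.logb_nonneg (by norm_num) (by linarith)
  nlinarith

theorem lam_le_lamR (s : ℕ) : (lam s : ℝ) ≤ lamR s := by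
  unfold lam lamR
  push_cast
  apply mul_le_mul_of_nonneg_left _ (by positivity)
  have h : ((Nat.log 2 (1 + s) : ℕ) : ℝ) ≤ Real.logb 2 ((1 + s : ℕ) : ℝ) := by
    have := Real.natLog_le_logb (1 + s) 2
    exact_mod_cast this
  push_cast at h
  linarith

theorem log_form {s M k n : ℕ} (hM : 1 ≤ M) (hn : 1 ≤ n) (hk : 1 ≤ k)
    (h : n ≤ (cst s + M) ^ (k - 1)) :
    Real.logb 2 n ≤ 16386 * ((k : ℝ) - 1) * (lamR s + Real.logb 2 M) := by
  have hc : 1 ≤ cst s := Nat.one_le_pow _ _ (by norm_num)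
  have h1 : (n : ℝ) ≤ ((cst s : ℝ) + M) ^ (k - 1) := by exact_mod_cast h
  have hMr : (1 : ℝ) ≤ M := by exact_mod_cast hM
  have hcr : (1 : ℝ) ≤ cst s := by exact_mod_cast hc
  have hn0 : (0 : ℝ) < n := by exact_mod_cast hn
  have h2 : Real.logb 2 n ≤ ((k - 1 : ℕ) : ℝ) * Real.logb 2 ((cst s : ℝ) + M) := by
    rw [← Real.logb_pow]
    exact Real.logb_le_logb_of_le (by norm_num) hn0 h1
  have h3 : Real.logb 2 ((cst s : ℝ) + M) ≤ 16386 * (lamR s + Real.logb 2 M) := by
    have e1 : (cst s : ℝ) + M ≤ 2 * cst s * M := by nlinarith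
    have e2 : Real.logb 2 ((cst s : ℝ) + M) ≤ Real.logb 2 (2 * cst s * M) :=
      Real.logb_le_logb_of_le (by norm_num) (by positivity) e1
    have e3 : Real.logb 2 (2 * (cst s : ℝ) * M) = 1 + Real.logb 2 (cst s) + Real.logb 2 M := by
      rw [Real.logb_mul (by positivity) (by positivity), Real.logb_mul (by norm_num)
        (by positivity), Real.logb_self_eq_one (by norm_num)]
    have e4 : Real.logb 2 (cst s : ℝ) = 16384 * (lam s : ℝ) + 1 := by
      unfold cst
      push_cast
      rw [Real.logb_pow, Real.logb_self_eq_one (by norm_num)]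
      push_cast
      ring
    have e5 := lam_le_lamR s
    have e6 := one_le_lamR s
    have e7 : 0 ≤ Real.logb 2 (M : ℝ) := Real.logb_nonneg (by norm_num) hMr
    rw [e3, e4] at e2
    linarith
  have h4 : ((k - 1 : ℕ) : ℝ) = (k : ℝ) - 1 := by
    rw [Nat.cast_sub hk, Nat.cast_one]
  rw [h4] at h2
  have h5 : 0 ≤ (k : ℝ) - 1 := by
    have : (1 : ℝ) ≤ k := by exact_mod_cast hk
    linarith
  calc Real.logb 2 n ≤ ((k : ℝ) - 1) * Real.logb 2 ((cst s : ℝ) + M) := h2
    _ ≤ ((k : ℝ) - 1) * (16386 * (lamR s + Real.logb 2 M)) :=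
        mul_le_mul_of_nonneg_left h3 h5
    _ = _ := by ring

variable {G : Type u} [Group G] [Finite G]

theorem one_le_class (G : Type u) [Group G] [Finite G] : 1 ≤ Nat.card (ConjClasses G) := by
  haveI : Finite (ConjClasses G) := Quotient.finite _
  haveI : Nonempty (ConjClasses G) := ⟨ConjClasses.mk 1⟩
  exact Nat.card_pos

/-- general criterion -/
theorem crit {s M : ℕ} (hs : SecAut s G) (hM : 1 ≤ M)
    (h : ∀ p : ℕ, p.Prime → p ∣ Nat.card G → ∀ d : ℕ, M < p ^ d → ∀ g : G,
      orderOf g ∣ p ^ d - 1 → (orderOf g) ^ 2 ≤ p ^ d) :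
    Real.logb 2 (Nat.card G) ≤
      16386 * ((Nat.card (ConjClasses G) : ℝ) - 1) * (lamR s + Real.logb 2 M) :=
  log_form hM Nat.card_pos (one_le_class G)
    (main_bound s M (Nat.card G) _ G rfl hs (Or.inl ⟨h, fun _ _ hp => hp⟩))

/-- in terms of the class number -/
theorem crit_k {s : ℕ} (hs : SecAut s G) :
    Real.logb 2 (Nat.card G) ≤
      131088 * ((Nat.card (ConjClasses G) : ℝ) - 1) *
        (lamR s + Real.logb 2 (Nat.card (ConjClasses G))) := by
  have hk := one_le_class G
  have h1 := log_form (Nat.one_le_pow 8 _ hk) Nat.card_pos hk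
    (main_bound s ((Nat.card (ConjClasses G)) ^ 8) 0 _ G rfl hs (Or.inr le_rfl))
  push_cast at h1
  rw [Real.logb_pow] at h1
  have h2 : 0 ≤ (Nat.card (ConjClasses G) : ℝ) - 1 := by
    have : (1 : ℝ) ≤ Nat.card (ConjClasses G) := by exact_mod_cast hk
    linarith
  have h3 := one_le_lamR s
  have h4 : 0 ≤ Real.logb 2 (Nat.card (ConjClasses G) : ℝ) :=
    Real.logb_nonneg (by norm_num) (by exact_mod_cast hk)
  calc Real.logb 2 (Nat.card G) ≤ _ := h1
    _ ≤ 16386 * ((Nat.card (ConjClasses G) : ℝ) - 1) *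
        (8 * (lamR s + Real.logb 2 (Nat.card (ConjClasses G)))) := by
        apply mul_le_mul_of_nonneg_left _ (by positivity)
        push_cast
        linarith
    _ = _ := by ring

/-- in terms of the largest element order -/
theorem crit_E {s E : ℕ} (hs : SecAut s G) (hE : ∀ g : G, orderOf g ≤ E) :
    Real.logb 2 (Nat.card G) ≤
      32772 * ((Nat.card (ConjClasses G) : ℝ) - 1) * (lamR s + Real.logb 2 E) := by
  have hk := one_le_class G
  have hE1 : 1 ≤ E := by
    have := hE 1
    rwa [orderOf_one] at this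
  have h1 := crit hs (Nat.one_le_pow 2 E hE1) (by
    intro p hp hpG d hd g hg
    exact (Nat.pow_le_pow_left (hE g) 2).trans hd.le)
  push_cast at h1
  rw [Real.logb_pow] at h1
  have h2 : 0 ≤ (Nat.card (ConjClasses G) : ℝ) - 1 := by
    have : (1 : ℝ) ≤ Nat.card (ConjClasses G) := by exact_mod_cast hk
    linarith
  have h3 := one_le_lamR s
  have h4 : 0 ≤ Real.logb 2 (E : ℝ) := Real.logb_nonneg (by norm_num) (by exact_mod_cast hE1)
  calc Real.logb 2 (Nat.card G) ≤ _ := h1
    _ ≤ 16386 * ((Nat.card (ConjClasses G) : ℝ) - 1) * (2 * (lamR s + Real.logb 2 E)) := by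
        apply mul_le_mul_of_nonneg_left _ (by positivity)
        push_cast
        linarith
    _ = _ := by ring

/-- in terms of the prime divisors of the order -/
theorem crit_sigma {s : ℕ} (hs : SecAut s G) :
    Real.logb 2 (Nat.card G) ≤
      131088 * ((Nat.card (ConjClasses G) : ℝ) - 1) *
        (lamR s + (∑ r ∈ (Nat.card G).primeFactors, (r : ℝ)) *
          Real.logb 2 ((Nat.card G).primeFactors.sup id : ℕ)) := by
  have hk := one_le_class G
  have hn : Nat.card G ≠ 0 := Nat.card_pos.ne'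
  by_cases hG1 : Nat.card G = 1
  · have h2 : 0 ≤ (Nat.card (ConjClasses G) : ℝ) - 1 := by
      have : (1 : ℝ) ≤ Nat.card (ConjClasses G) := by exact_mod_cast hk
      linarith
    have h3 := one_le_lamR s
    rw [hG1]
    simp only [Nat.cast_one, Real.logb_one, Nat.primeFactors_one, Finset.sum_empty, zero_mul,
      add_zero]
    positivity
  · set P := (Nat.card G).primeFactors.sup id with hP
    set σ := ∑ r ∈ (Nat.card G).primeFactors, r with hσ
    have hne : (Nat.card G).primeFactors.Nonempty := by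
      rw [Nat.nonempty_primeFactors]
      omega
    obtain ⟨p, hp⟩ := hne
    have hpP : p ≤ P := Finset.le_sup (f := id) hp
    have hp2 := (Nat.prime_of_mem_primeFactors hp).two_le
    have hP1 : 1 ≤ P := by omega
    have h1 := crit hs (M := P ^ (8 * σ)) (Nat.one_le_pow _ _ hP1) (by
      intro p hp hpG d hd g hg
      exact sigma_bound hn hp hpG hd hg (orderOf_dvd_natCard g))
    push_cast at h1
    rw [Real.logb_pow] at h1
    have h2 : 0 ≤ (Nat.card (ConjClasses G) : ℝ) - 1 := by
      have : (1 : ℝ) ≤ Nat.card (ConjClasses G) := by exact_mod_cast hk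
      linarith
    have h3 := one_le_lamR s
    have h4 : 0 ≤ Real.logb 2 (P : ℝ) := Real.logb_nonneg (by norm_num) (by exact_mod_cast hP1)
    have h5 : (σ : ℝ) = ∑ r ∈ (Nat.card G).primeFactors, (r : ℝ) := by
      rw [hσ]; push_cast; rfl
    have h6 : (0 : ℝ) ≤ σ := Nat.cast_nonneg _
    rw [← h5]
    calc Real.logb 2 (Nat.card G) ≤ _ := h1
      _ ≤ 16386 * ((Nat.card (ConjClasses G) : ℝ) - 1) *
          (8 * (lamR s + (σ : ℝ) * Real.logb 2 P)) := by
          apply mul_le_mul_of_nonneg_left _ (by positivity)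
          push_cast
          nlinarith [mul_nonneg h6 h4]
      _ = _ := by ring

/-- groups with prime divisors in a finite set and small nonabelian simple sections -/
theorem fin_primes (s : ℕ) (S : Finset ℕ) : ∃ c : ℝ, 0 < c ∧ ∀ (G : Type u) [Group G] [Finite G],
    SecAut s G → (∀ p : ℕ, p.Prime → p ∣ Nat.card G → p ∈ S) →
      c * Real.logb 2 (Nat.card G) ≤ Nat.card (ConjClasses G) := by
  set P0 : ℕ := S.sup id + 1 with hP0
  set σ0 : ℝ := ∑ r ∈ S, (r : ℝ) with hσ0
  have hσ0' : 0 ≤ σ0 := Finset.sum_nonneg (fun r _ => Nat.cast_nonneg r)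
  have hlP0 : 0 ≤ Real.logb 2 (P0 : ℝ) :=
    Real.logb_nonneg (by norm_num) (by rw [hP0]; push_cast; linarith [Nat.cast_nonneg (α := ℝ) (S.sup id)])
  have hpos : 0 < 131088 * (lamR s + σ0 * Real.logb 2 P0) := by
    have := one_le_lamR s
    have := mul_nonneg hσ0' hlP0
    linarith
  refine ⟨(131088 * (lamR s + σ0 * Real.logb 2 P0))⁻¹, inv_pos.mpr hpos, ?_⟩
  intro G _ _ hs hS
  have hk := one_le_class G
  have hkr : (1 : ℝ) ≤ Nat.card (ConjClasses G) := by exact_mod_cast hk
  have hsub : (Nat.card G).primeFactors ⊆ S := fun r hr =>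
    hS r (Nat.prime_of_mem_primeFactors hr) (Nat.dvd_of_mem_primeFactors hr)
  have h1 := crit_sigma hs
  have h2 : (∑ r ∈ (Nat.card G).primeFactors, (r : ℝ)) ≤ σ0 :=
    Finset.sum_le_sum_of_subset_of_nonneg hsub (fun r _ _ => Nat.cast_nonneg r)
  have h3 : Real.logb 2 ((Nat.card G).primeFactors.sup id : ℕ) ≤ Real.logb 2 (P0 : ℝ) := by
    by_cases h0 : (Nat.card G).primeFactors.sup id = 0
    · rw [h0, Nat.cast_zero, Real.logb_zero]
      exact hlP0
    · apply Real.logb_le_logb_of_le (by norm_num)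
      · exact_mod_cast Nat.pos_of_ne_zero h0
      · have : (Nat.card G).primeFactors.sup id ≤ P0 :=
          (Finset.sup_mono hsub).trans (Nat.le_succ _)
        exact_mod_cast this
  have h3' : 0 ≤ Real.logb 2 ((Nat.card G).primeFactors.sup id : ℕ) := by
    by_cases h0 : (Nat.card G).primeFactors.sup id = 0
    · rw [h0, Nat.cast_zero, Real.logb_zero]
    · apply Real.logb_nonneg (by norm_num)
      exact_mod_cast Nat.pos_of_ne_zero h0
  have h4 : lamR s + (∑ r ∈ (Nat.card G).primeFactors, (r : ℝ)) *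
      Real.logb 2 ((Nat.card G).primeFactors.sup id : ℕ) ≤ lamR s + σ0 * Real.logb 2 P0 := by
    have := mul_le_mul h2 h3 h3' hσ0'
    linarith
  rw [inv_mul_le_iff₀ hpos]
  calc Real.logb 2 (Nat.card G) ≤ _ := h1
    _ ≤ 131088 * ((Nat.card (ConjClasses G) : ℝ) - 1) * (lamR s + σ0 * Real.logb 2 P0) := by
        apply mul_le_mul_of_nonneg_left h4
        nlinarith
    _ ≤ 131088 * (lamR s + σ0 * Real.logb 2 P0) * Nat.card (ConjClasses G) := by
        nlinarith

/-- a prime dividing the order divides the index of some step of a series -/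
theorem prime_le_of_series {B n : ℕ} {S : ℕ → Subgroup G} (h0 : S 0 = ⊤) (hn : S n = ⊥)
    (hS : ∀ i, i < n → S (i + 1) ≤ S i ∧ (S (i + 1)).relIndex (S i) ≤ B)
    {p : ℕ} (hp : p.Prime) (hpG : p ∣ Nat.card G) : p ≤ B := by
  have key : ∀ i, i ≤ n → (p ∣ Nat.card (S i)) ∨ p ≤ B := by
    intro i
    induction i with
    | zero =>
      intro _
      left
      rw [h0, Subgroup.card_top]
      exact hpG
    | succ i ih =>
      intro hi
      rcases ih (by omega) with h | h
      · obtain ⟨h1, h2⟩ := hS i (by omega)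
        have h3 : Nat.card (S (i + 1)) * (S (i + 1)).relIndex (S i) = Nat.card (S i) := by
          have := Subgroup.relIndex_mul_relIndex ⊥ (S (i + 1)) (S i) bot_le h1
          rwa [Subgroup.relIndex_bot_left, Subgroup.relIndex_bot_left] at this
        rw [← h3] at h
        rcases (Nat.Prime.dvd_mul hp).mp h with h4 | h4
        · exact Or.inl h4
        · right
          exact (Nat.le_of_dvd (Nat.pos_of_ne_zero (relIndex_ne_zero_fin _ _)) h4).trans h2
      · exact Or.inr h
  rcases key n le_rfl with h | h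
  · rw [hn, Subgroup.card_bot] at h
    exact absurd (Nat.dvd_one.mp h) hp.one_lt.ne'
  · exact h

end H60.KG
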