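import Mathlib

/-!
Block systems: a finite group `H` acting on a finite abelian group `V`, which is the direct sum of
subgroups permuted transitively by `H`.  Counting orbits.
-/

namespace H60.KG

open MulAction

/-- The number of orbits of `H` on `X`. -/
noncomputable def orb (H : Type*) (X : Type*) [Group H] [MulAction H X] : ℕ :=
  Nat.card (MulAction.orbitRel.Quotient H X)

/-- A direct decomposition of `V` permuted by `H`. -/
structure BlockSys (H V ι : Type*) [Group H] [AddCommGroup V] [DistribMulAction H V]
    [MulAction H ι] [Fintype ι] (U : ι → AddSubgroup V) : Prop where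
  equiv : ∀ (h : H) (i : ι) (v : V), v ∈ U i → h • v ∈ U (h • i)
  indep : ∀ f : ι → V, (∀ i, f i ∈ U i) → ∑ i, f i = 0 → ∀ i, f i = 0
  span : ∀ v : V, ∃ f : ι → V, (∀ i, f i ∈ U i) ∧ ∑ i, f i = v
  trans : ∀ i j : ι, ∃ h : H, h • i = j

section

variable {H V ι : Type*} [Group H] [AddCommGroup V] [DistribMulAction H V]
    [MulAction H ι] [Fintype ι] {U : ι → AddSubgroup V}

/-- the component of `v` -/
noncomputable def BlockSys.comp (B : BlockSys H V ι U) (v : V) : ι → V := (B.span v).choose

theorem BlockSys.comp_mem (B : BlockSys H V ι U) (v : V) (i : ι) : B.comp v i ∈ U i :=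
  (B.span v).choose_spec.1 i

theorem BlockSys.comp_sum (B : BlockSys H V ι U) (v : V) : ∑ i, B.comp v i = v :=
  (B.span v).choose_spec.2

theorem BlockSys.uniq (B : BlockSys H V ι U) {f g : ι → V} (hf : ∀ i, f i ∈ U i)
    (hg : ∀ i, g i ∈ U i) (h : ∑ i, f i = ∑ i, g i) : f = g := by
  funext i
  have := B.indep (fun i => f i - g i) (fun i => (U i).sub_mem (hf i) (hg i))
    (by rw [Finset.sum_sub_distrib, h, sub_self]) i
  exact sub_eq_zero.mp this

theorem BlockSys.comp_eq (B : BlockSys H V ι U) {f : ι → V} (hf : ∀ i, f i ∈ U i) :
    B.comp (∑ i, f i) = f :=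
  B.uniq (B.comp_mem _) hf (B.comp_sum _)

theorem BlockSys.comp_smul (B : BlockSys H V ι U) (h : H) (v : V) (i : ι) :
    B.comp (h • v) (h • i) = h • B.comp v i := by
  have key : B.comp (h • v) = fun j => h • B.comp v (h⁻¹ • j) := by
    apply B.uniq (B.comp_mem _)
    · intro j
      have := B.equiv h (h⁻¹ • j) _ (B.comp_mem v (h⁻¹ • j))
      rwa [smul_inv_smul] at this
    · rw [B.comp_sum]
      have : ∑ j, h • B.comp v (h⁻¹ • j) = ∑ j, h • B.comp v j :=
        Equiv.sum_comp (MulAction.toPerm h⁻¹ : Equiv.Perm ι) (fun j => h • B.comp v j)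
      rw [this, ← Finset.smul_sum, B.comp_sum]
  rw [key]
  simp

/-- If a nonzero element lies in two blocks, the blocks are equal. -/
theorem BlockSys.eq_of_mem (B : BlockSys H V ι U) {i j : ι} {v : V} (hi : v ∈ U i) (hj : v ∈ U j)
    (hv : v ≠ 0) : i = j := by
  classical
  by_contra hij
  have h1 : B.comp v = fun k => if k = i then v else 0 := by
    apply B.uniq (B.comp_mem _)
    · intro k
      by_cases hk : k = i
      · subst hk; simpa using hi
      · simp [hk, (U k).zero_mem]
    · rw [B.comp_sum]; simp
  have h2 : B.comp v = fun k => if k = j then v else 0 := by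
    apply B.uniq (B.comp_mem _)
    · intro k
      by_cases hk : k = j
      · subst hk; simpa using hj
      · simp [hk, (U k).zero_mem]
    · rw [B.comp_sum]; simp
  have := congrFun (h1.symm.trans h2) i
  simp [hij] at this
  exact hv this

theorem BlockSys.smul_mem_iff (B : BlockSys H V ι U) (h : H) (i : ι) (v : V) :
    h • v ∈ U (h • i) ↔ v ∈ U i := by
  constructor
  · intro hv
    have := B.equiv h⁻¹ _ _ hv
    simpa using this
  · exact B.equiv h i v

/-- all blocks have the same size -/
theorem BlockSys.card_block (B : BlockSys H V ι U) (i j : ι) :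
    Nat.card (U i) = Nat.card (U j) := by
  obtain ⟨h, rfl⟩ := B.trans i j
  refine Nat.card_congr
    { toFun := fun v => ⟨h • v.1, B.equiv h i _ v.2⟩
      invFun := fun v => ⟨h⁻¹ • v.1, by
        have := B.equiv h⁻¹ _ _ v.2
        simpa using this⟩
      left_inv := fun v => by simp
      right_inv := fun v => by simp }

theorem BlockSys.card_eq (B : BlockSys H V ι U) [Finite V] (i : ι) :
    Nat.card V = Nat.card (U i) ^ Fintype.card ι := by
  have e : V ≃ (∀ j, U j) :=
    { toFun := fun v j => ⟨B.comp v j, B.comp_mem v j⟩
      invFun := fun f => ∑ j, (f j : V)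
      left_inv := fun v => B.comp_sum v
      right_inv := fun f => by
        funext j
        apply Subtype.ext
        exact congrFun (B.comp_eq (f := fun j => (f j : V)) (fun j => (f j).2)) j }
  rw [Nat.card_congr e, Nat.card_pi]
  rw [Finset.prod_congr rfl (fun j _ => B.card_block j i)]
  simp

end

/-- The stabilizer of a block acts on the block. -/
noncomputable def blockAct {H V ι : Type*} [Group H] [AddCommGroup V] [DistribMulAction H V]
    [MulAction H ι] [Fintype ι] {U : ι → AddSubgroup V} (B : BlockSys H V ι U) (i : ι) :
    DistribMulAction (MulAction.stabilizer H i) (U i) where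
  smul h v := ⟨(h : H) • (v : V), by
    have := B.equiv h.1 i v.1 v.2
    rwa [(MulAction.mem_stabilizer_iff.mp h.2)] at this⟩
  one_smul v := Subtype.ext (one_smul H (v : V))
  mul_smul g h v := Subtype.ext (mul_smul (g : H) (h : H) (v : V))
  smul_zero h := Subtype.ext (smul_zero (h : H))
  smul_add h v w := Subtype.ext (smul_add (h : H) (v : V) (w : V))

theorem blockAct_coe {H V ι : Type*} [Group H] [AddCommGroup V] [DistribMulAction H V]
    [MulAction H ι] [Fintype ι] {U : ι → AddSubgroup V} (B : BlockSys H V ι U) (i : ι)
    (h : MulAction.stabilizer H i) (v : U i) :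
    letI := blockAct B i
    ((h • v : U i) : V) = (h : H) • (v : V) := rfl

section count

variable {H V ι : Type*} [Group H] [AddCommGroup V] [DistribMulAction H V]
    [MulAction H ι] [Fintype ι] {U : ι → AddSubgroup V}

open Classical in
/-- number of nonzero components -/
noncomputable def BlockSys.wt (B : BlockSys H V ι U) (v : V) : ℕ :=
  (Finset.univ.filter (fun i => B.comp v i ≠ 0)).card

theorem BlockSys.wt_smul (B : BlockSys H V ι U) (h : H) (v : V) : B.wt (h • v) = B.wt v := by
  classical
  unfold BlockSys.wt
  symm
  apply Finset.card_bij (fun i _ => h • i)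
  · intro i hi
    simp only [Finset.mem_filter, Finset.mem_univ, true_and] at hi ⊢
    rw [B.comp_smul]
    intro h0
    exact hi ((smul_eq_zero_iff_eq h).mp h0)
  · intro i _ j _ hij
    exact smul_left_cancel h hij
  · intro j hj
    refine ⟨h⁻¹ • j, ?_, by simp⟩
    simp only [Finset.mem_filter, Finset.mem_univ, true_and] at hj ⊢
    intro h0
    apply hj
    have := B.comp_smul h v (h⁻¹ • j)
    rw [smul_inv_smul, h0, smul_zero] at this
    exact this

/-- The main counting inequality: `1 + m (s - 1) ≤ orb`. -/
theorem BlockSys.orb_le (B : BlockSys H V ι U) [Finite V] (i0 : ι) :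
    letI := blockAct B i0
    1 + Fintype.card ι * (orb (MulAction.stabilizer H i0) (U i0) - 1) ≤ orb H V := by
  classical
  letI := blockAct B i0
  set m := Fintype.card ι with hm
  let e : ι ≃ Fin m := Fintype.equivFin ι
  choose g hg using fun j => B.trans i0 j
  -- the vector attached to `k` and `u`
  let w : Fin m → V → V := fun k u => ∑ j : ι, if e j ≤ k then g j • u else 0
  have hwcomp : ∀ (k : Fin m) (u : V), u ∈ U i0 →
      B.comp (w k u) = fun j => if e j ≤ k then g j • u else 0 := by
    intro k u hu
    apply B.comp_eq
    intro j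
    split_ifs with hjk
    · have := B.equiv (g j) i0 u hu
      rwa [hg j] at this
    · exact (U j).zero_mem
  have hwt : ∀ (k : Fin m) (u : V), u ∈ U i0 → u ≠ 0 → B.wt (w k u) = (k : ℕ) + 1 := by
    intro k u hu hu0
    unfold BlockSys.wt
    rw [hwcomp k u hu]
    have : (Finset.univ.filter (fun i => (fun j => if e j ≤ k then g j • u else 0) i ≠ 0)) =
        Finset.univ.filter (fun i => e i ≤ k) := by
      ext i
      simp only [Finset.mem_filter, Finset.mem_univ, true_and]
      by_cases hik : e i ≤ k
      · simp only [hik, if_true, iff_true]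
        intro h0
        exact hu0 ((smul_eq_zero_iff_eq _).mp h0)
      · simp [hik]
    rw [this]
    have h2 : (Finset.univ.filter (fun i => e i ≤ k)).card = (Finset.Iic k).card := by
      apply Finset.card_bij (fun i _ => e i)
      · intro i hi; simpa using hi
      · intro i _ j _ h; exact e.injective h
      · intro j hj; exact ⟨e.symm j, by simpa using hj, by simp⟩
    rw [h2]
    simp
  -- the quotient types
  let S := MulAction.stabilizer H i0
  let Q1 := MulAction.orbitRel.Quotient S (U i0)
  let z1 : Q1 := Quotient.mk'' (0 : U i0)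
  let Q := MulAction.orbitRel.Quotient H V
  let z : Q := Quotient.mk'' (0 : V)
  haveI : Finite Q1 := Quotient.finite _
  haveI : Finite Q := Quotient.finite _
  let T := {c : Q1 // c ≠ z1}
  have hT : Nat.card T = orb S (U i0) - 1 := by
    have h2 := Set.ncard_compl ({z1} : Set Q1)
    rwa [Set.ncard_singleton] at h2
  have hne : ∀ c : T, (Quotient.out c.1 : U i0) ≠ 0 := by
    intro c h0
    apply c.2
    rw [← Quotient.out_eq c.1, h0]
  let Φ : Option (Fin m × T) → Q := fun o => match o with
    | none => z
    | some (k, c) => Quotient.mk'' (w k ((Quotient.out c.1 : U i0) : V))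
  have hΦ : Function.Injective Φ := by
    have key0 : ∀ (k : Fin m) (c : T),
        (Quotient.mk'' (w k ((Quotient.out c.1 : U i0) : V)) : Q) ≠ z := by
      intro k c h
      have h1 := Quotient.eq''.mp h
      rw [MulAction.orbitRel_apply] at h1
      obtain ⟨x, hx⟩ := h1
      simp only [smul_zero] at hx
      have h2 := hwt k _ (Quotient.out c.1 : U i0).2 (fun h0 => hne c (Subtype.ext h0))
      rw [← hx] at h2
      have h3 : B.wt (0 : V) = 0 := by
        unfold BlockSys.wt
        have h4 : B.comp (0 : V) = fun _ => 0 := by
          apply B.uniq (B.comp_mem _) (fun i => (U i).zero_mem)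
          rw [B.comp_sum]; simp
        rw [h4]; simp
      rw [h3] at h2
      omega
    intro a b hab
    match a, b with
    | none, none => rfl
    | none, some (k, c) => exact absurd hab.symm (key0 k c)
    | some (k, c), none => exact absurd hab (key0 k c)
    | some (k, c), some (k', c') =>
      have h1 := Quotient.eq''.mp (show
        (Quotient.mk'' (w k ((Quotient.out c.1 : U i0) : V)) : Q) =
        Quotient.mk'' (w k' ((Quotient.out c'.1 : U i0) : V)) from hab)
      rw [MulAction.orbitRel_apply] at h1
      obtain ⟨x, hx⟩ := h1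
      simp only at hx
      set u : V := ((Quotient.out c.1 : U i0) : V) with hu
      set u' : V := ((Quotient.out c'.1 : U i0) : V) with hu'
      have hu0 : u ≠ 0 := fun h0 => hne c (Subtype.ext h0)
      have hu0' : u' ≠ 0 := fun h0 => hne c' (Subtype.ext h0)
      have huU : u ∈ U i0 := (Quotient.out c.1 : U i0).2
      have huU' : u' ∈ U i0 := (Quotient.out c'.1 : U i0).2
      have hk : k = k' := by
        have e1 := hwt k u huU hu0
        have e2 := hwt k' u' huU' hu0'
        rw [← hx, B.wt_smul, e2] at e1
        apply Fin.ext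
        omega
      subst hk
      -- compare a component
      let j0 : ι := e.symm k
      have hj0 : e j0 ≤ k := by simp [j0]
      have c1 : B.comp (w k u') j0 = g j0 • u' := by
        rw [hwcomp k u' huU']; simp only [hj0, if_true]
      have c2 : B.comp (w k u) (x • j0) = x • (g j0 • u') := by
        rw [← hx, B.comp_smul, c1]
      have c3 : B.comp (w k u) (x • j0) = if e (x • j0) ≤ k then g (x • j0) • u else 0 := by
        rw [hwcomp k u huU]
      have hxj : e (x • j0) ≤ k := by
        by_contra hcon
        rw [if_neg hcon, c2] at c3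
        exact hu0' ((smul_eq_zero_iff_eq _).mp ((smul_eq_zero_iff_eq _).mp c3))
      rw [if_pos hxj, c2] at c3
      let y : H := (g (x • j0))⁻¹ * (x * g j0)
      have hy : y • u' = u := by
        simp only [y, mul_smul, c3, inv_smul_smul]
      have hyst : y • i0 = i0 := by
        simp only [y, mul_smul, hg j0]
        rw [inv_smul_eq_iff, hg]
      have hcc : c = c' := by
        apply Subtype.ext
        rw [← Quotient.out_eq c.1, ← Quotient.out_eq c'.1]
        apply Quotient.sound
        change (MulAction.orbitRel S (U i0)).r _ _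
        refine ⟨⟨y, hyst⟩, ?_⟩
        apply Subtype.ext
        exact hy
      rw [hcc]
  have hcard := Nat.card_le_card_of_injective Φ hΦ
  rw [Finite.card_option, Nat.card_prod, hT] at hcard
  simp only [Nat.card_eq_fintype_card, Fintype.card_fin] at hcard
  change 1 + m * (orb S (U i0) - 1) ≤ Nat.card Q
  omega

end count

end H60.KG
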