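import Pool.Agent.H60.KG.Cnt

/-!
Nonabelian minimal normal subgroups and components.
-/

namespace H60.KG

variable {G : Type*} [Group G]

/-- conjugate subgroup -/
def cjs (g : G) (T : Subgroup G) : Subgroup G := T.map (MulAut.conj g).toMonoidHom

theorem mem_cjs {g : G} {T : Subgroup G} {x : G} : x ∈ cjs g T ↔ g⁻¹ * x * g ∈ T := by
  unfold cjs
  rw [Subgroup.mem_map]
  constructor
  · rintro ⟨y, hy, rfl⟩
    have : g⁻¹ * (MulAut.conj g).toMonoidHom y * g = y := by
      simp [MulAut.conj_apply]; group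
    rwa [this]
  · intro h
    exact ⟨_, h, by simp [MulAut.conj_apply]; group⟩

theorem cjs_cjs (g h : G) (T : Subgroup G) : cjs g (cjs h T) = cjs (g * h) T := by
  ext x
  simp only [mem_cjs, mul_inv_rev]
  rw [show h⁻¹ * (g⁻¹ * x * g) * h = h⁻¹ * g⁻¹ * x * (g * h) by group]

theorem cjs_one (T : Subgroup G) : cjs 1 T = T := by
  ext x
  simp [mem_cjs]

theorem cjs_le_cjs {g : G} {S T : Subgroup G} (h : S ≤ T) : cjs g S ≤ cjs g T := by
  intro x hx
  rw [mem_cjs] at hx ⊢
  exact h hx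

theorem cjs_bot (g : G) : cjs g (⊥ : Subgroup G) = ⊥ := Subgroup.map_bot _

theorem card_cjs (g : G) (T : Subgroup G) : Nat.card (cjs g T) = Nat.card T :=
  Nat.card_congr (T.equivMapOfInjective _ (MulAut.conj g).injective).symm.toEquiv

/-- `T` is simple as a group -/
def Simp (T : Subgroup G) : Prop :=
  ∀ Y : Subgroup G, Y ≤ T → (∀ t ∈ T, ∀ y ∈ Y, t * y * t⁻¹ ∈ Y) → Y = ⊥ ∨ Y = T

/-- `T` has trivial center -/
def CF (T : Subgroup G) : Prop := ∀ x ∈ T, (∀ y ∈ T, x * y = y * x) → x = 1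

/-- elementwise commuting -/
def Cm (S T : Subgroup G) : Prop := ∀ x ∈ S, ∀ y ∈ T, x * y = y * x

theorem Cm.symm {S T : Subgroup G} (h : Cm S T) : Cm T S := fun x hx y hy => (h y hy x hx).symm

theorem Simp.cjs {T : Subgroup G} (h : Simp T) (g : G) : Simp (cjs g T) := by
  intro Y hY hn
  have h1 : KG.cjs g⁻¹ Y ≤ T := by
    have := cjs_le_cjs (g := g⁻¹) hY
    rwa [cjs_cjs, inv_mul_cancel, cjs_one] at this
  have h2 : ∀ t ∈ T, ∀ y ∈ KG.cjs g⁻¹ Y, t * y * t⁻¹ ∈ KG.cjs g⁻¹ Y := by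
    intro t ht y hy
    rw [mem_cjs] at hy ⊢
    have h3 : g * t * g⁻¹ ∈ KG.cjs g T := by
      rw [mem_cjs]
      rwa [show g⁻¹ * (g * t * g⁻¹) * g = t by group]
    have h4 := hn _ h3 _ hy
    rwa [show g * t * g⁻¹ * (g⁻¹⁻¹ * y * g⁻¹) * (g * t * g⁻¹)⁻¹ =
      g⁻¹⁻¹ * (t * y * t⁻¹) * g⁻¹ by group] at h4
  rcases h _ h1 h2 with h3 | h3
  · left
    have := congrArg (KG.cjs g) h3
    rwa [cjs_cjs, mul_inv_cancel, cjs_one, cjs_bot] at this
  · right
    have := congrArg (KG.cjs g) h3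
    rwa [cjs_cjs, mul_inv_cancel, cjs_one] at this

theorem CF.cjs {T : Subgroup G} (h : CF T) (g : G) : CF (cjs g T) := by
  intro x hx hc
  have h1 := h _ (mem_cjs.mp hx) (by
    intro y hy
    have h3 : g * y * g⁻¹ ∈ KG.cjs g T := by
      rw [mem_cjs]
      rwa [show g⁻¹ * (g * y * g⁻¹) * g = y by group]
    have h4 := hc _ h3
    calc g⁻¹ * x * g * y = g⁻¹ * (x * (g * y * g⁻¹)) * g := by group
      _ = g⁻¹ * ((g * y * g⁻¹) * x) * g := by rw [h4]
      _ = y * (g⁻¹ * x * g) := by group)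
  have h2 := congrArg (fun z => g * z * g⁻¹) h1
  simp only [mul_one, mul_inv_cancel] at h2
  rwa [show g * (g⁻¹ * x * g) * g⁻¹ = x by group] at h2

/-- The structure of a nonabelian minimal normal subgroup. -/
theorem core [Finite G] (N : Subgroup G) [hN : N.Normal] (hN0 : N ≠ ⊥)
    (hmin : ∀ M : Subgroup G, M.Normal → M ≤ N → M = ⊥ ∨ M = N)
    (hna : ¬ ∀ x ∈ N, ∀ y ∈ N, x * y = y * x) :
    ∃ T : Subgroup G, T ≤ N ∧ T ≠ ⊥ ∧ Simp T ∧ CF T ∧
      (∀ g : G, cjs g T = T ∨ Cm T (cjs g T)) ∧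
      (⨆ g : G, cjs g T) = N := by
  classical
  obtain ⟨T, ⟨hTN, hT0, hTn⟩, hTmin⟩ := (Set.toFinite {T : Subgroup G | T ≤ N ∧ T ≠ ⊥ ∧
    ∀ n ∈ N, ∀ x ∈ T, n * x * n⁻¹ ∈ T}).exists_minimal ⟨N, le_rfl, hN0,
      fun n hn x hx => hN.conj_mem x hx n⟩
  have hTmin' : ∀ Y : Subgroup G, Y ≤ T → (∀ n ∈ N, ∀ x ∈ Y, n * x * n⁻¹ ∈ Y) →
      Y = ⊥ ∨ Y = T := by
    intro Y hY hYn
    by_cases h0 : Y = ⊥
    · exact Or.inl h0
    · right
      apply le_antisymm hY
      exact hTmin ⟨hY.trans hTN, h0, hYn⟩ hY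
  have hcN : ∀ g : G, cjs g T ≤ N := by
    intro g x hx
    rw [mem_cjs] at hx
    have := hN.conj_mem _ (hTN hx) g
    rwa [show g * (g⁻¹ * x * g) * g⁻¹ = x by group] at this
  have hcn : ∀ g : G, ∀ n ∈ N, ∀ x ∈ cjs g T, n * x * n⁻¹ ∈ cjs g T := by
    intro g n hn x hx
    rw [mem_cjs] at hx ⊢
    have h1 := hN.conj_mem n hn g⁻¹
    have h2 := hTn _ h1 _ hx
    rwa [show g⁻¹ * n * g⁻¹⁻¹ * (g⁻¹ * x * g) * (g⁻¹ * n * g⁻¹⁻¹)⁻¹ =
      g⁻¹ * (n * x * n⁻¹) * g by group] at h2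
  have hdich : ∀ g : G, cjs g T = T ∨ Cm T (cjs g T) := by
    intro g
    rcases hTmin' (T ⊓ cjs g T) (inf_le_left : T ⊓ cjs g T ≤ T) (fun n hn x hx => ⟨hTn n hn x hx.1,
      hcn g n hn x hx.2⟩) with h | h
    · right
      intro x hx y hy
      have h1 : x * y * x⁻¹ * y⁻¹ ∈ T ⊓ cjs g T := by
        constructor
        · have h2 := hTn y (hcN g hy) x⁻¹ (T.inv_mem hx)
          have h3 := T.mul_mem hx h2
          rwa [show x * (y * x⁻¹ * y⁻¹) = x * y * x⁻¹ * y⁻¹ by group] at h3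
        · have h2 := hcn g x (hTN hx) y hy
          exact (cjs g T).mul_mem h2 ((cjs g T).inv_mem hy)
      rw [h, Subgroup.mem_bot] at h1
      calc x * y = (x * y * x⁻¹ * y⁻¹) * (y * x) := by group
        _ = y * x := by rw [h1, one_mul]
    · left
      have h1 : T ≤ cjs g T := inf_eq_left.mp h
      exact (Subgroup.eq_of_le_of_card_ge h1 (card_cjs g T).le).symm
  have hsup : (⨆ g : G, cjs g T) = N := by
    have hnorm : (⨆ g : G, cjs g T).Normal := by
      constructor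
      intro x hx g
      have h1 : (⨆ h : G, cjs h T) ≤ (⨆ h : G, cjs h T).comap (MulAut.conj g).toMonoidHom := by
        apply iSup_le
        intro h y hy
        rw [Subgroup.mem_comap]
        have h2 : cjs (g * h) T ≤ ⨆ h : G, cjs h T := le_iSup (fun h => cjs h T) (g * h)
        apply h2
        rw [← cjs_cjs, mem_cjs]
        rwa [show g⁻¹ * (MulAut.conj g).toMonoidHom y * g = y by
          simp [MulAut.conj_apply]; group]
      exact h1 hx
    rcases hmin _ hnorm (iSup_le hcN) with h | h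
    · exfalso
      apply hT0
      rw [eq_bot_iff, ← h]
      have := le_iSup (fun h => cjs h T) (1 : G)
      rwa [cjs_one] at this
    · exact h
  have hsimp : Simp T := by
    intro Y hY hYT
    apply hTmin' Y hY
    -- the normalizer of `Y` contains all conjugates
    have h1 : (⨆ g : G, cjs g T) ≤ Subgroup.normalizer (Y : Set G) := by
      apply iSup_le
      intro g x hx
      rcases hdich g with h | h
      · rw [h] at hx
        rw [Subgroup.mem_normalizer_iff]
        intro y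
        constructor
        · exact hYT x hx y
        · intro hy
          have := hYT x⁻¹ (T.inv_mem hx) _ hy
          rwa [show x⁻¹ * (x * y * x⁻¹) * x⁻¹⁻¹ = y by group] at this
      · rw [Subgroup.mem_normalizer_iff]
        intro y
        constructor
        · intro hy
          have := h y (hY hy) x hx
          rw [← this]
          simpa using hy
        · intro hy
          have h2 := h _ (hY hy) x hx
          have h3 : x * y * x⁻¹ = y := by
            have : x⁻¹ * ((x * y * x⁻¹) * x) = x⁻¹ * (x * (x * y * x⁻¹)) := by rw [h2]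
            have h4 : x⁻¹ * ((x * y * x⁻¹) * x) = y := by group
            have h5 : x⁻¹ * (x * (x * y * x⁻¹)) = x * y * x⁻¹ := by group
            rw [h4, h5] at this
            exact this.symm
          rwa [h3] at hy
    rw [hsup] at h1
    intro n hn x hx
    exact ((Subgroup.mem_normalizer_iff.mp (h1 hn)) x).mp hx
  have hcf : CF T := by
    intro x hx hc
    -- the center of `N`
    let Z : Subgroup G := N ⊓ Subgroup.centralizer (N : Set G)
    have hZn : Z.Normal := inferInstance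
    have hZ : Z = ⊥ := by
      rcases hmin Z hZn inf_le_left with h | h
      · exact h
      · exfalso
        apply hna
        intro a ha b hb
        have : a ∈ Z := by rw [h]; exact ha
        exact ((Subgroup.mem_centralizer_iff.mp this.2) b hb).symm
    have h1 : x ∈ Z := by
      refine ⟨hTN hx, ?_⟩
      change x ∈ Subgroup.centralizer (N : Set G)
      have h2 : (⨆ g : G, cjs g T) ≤ Subgroup.centralizer ({x} : Set G) := by
        apply iSup_le
        intro g y hy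
        rw [Subgroup.mem_centralizer_singleton_iff]
        rcases hdich g with h | h
        · rw [h] at hy; exact (hc y hy).symm
        · exact (h x hx y hy).symm
      rw [hsup] at h2
      rw [Subgroup.mem_centralizer_iff]
      intro y hy
      exact (Subgroup.mem_centralizer_singleton_iff.mp (h2 hy))
    rw [hZ, Subgroup.mem_bot] at h1
    exact h1
  exact ⟨T, hTN, hT0, hsimp, hcf, hdich, hsup⟩

/-- a family of components -/
structure Good (D : Subgroup G) (𝒯 : Finset (Subgroup G)) : Prop where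
  le : ∀ T ∈ 𝒯, T ≤ D
  ne : ∀ T ∈ 𝒯, T ≠ ⊥
  simp : ∀ T ∈ 𝒯, Simp T
  cf : ∀ T ∈ 𝒯, CF T
  comm : ∀ T ∈ 𝒯, ∀ T' ∈ 𝒯, T ≠ T' → Cm T T'
  conj : ∀ g : G, ∀ T ∈ 𝒯, cjs g T ∈ 𝒯

theorem Good.sup_normal {D : Subgroup G} {𝒯 : Finset (Subgroup G)} (h : Good D 𝒯) :
    (⨆ T ∈ 𝒯, T).Normal := by
  constructor
  intro x hx g
  have h1 : (⨆ T ∈ 𝒯, T) ≤ (⨆ T ∈ 𝒯, T).comap (MulAut.conj g).toMonoidHom := by
    apply iSup₂_le
    intro T hT y hy
    rw [Subgroup.mem_comap]
    have h2 : cjs g T ≤ ⨆ T ∈ 𝒯, T := le_iSup₂_of_le (cjs g T) (h.conj g T hT) le_rfl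
    apply h2
    rw [mem_cjs]
    rwa [show g⁻¹ * (MulAut.conj g).toMonoidHom y * g = y by
      simp [MulAut.conj_apply]; group]
  exact h1 hx

/-- existence of the components -/
theorem exists_components [Finite G] (D : Subgroup G) [hD : D.Normal]
    (hnab : ∀ E : Subgroup G, E.Normal → E ≤ D → (∀ x ∈ E, ∀ y ∈ E, x * y = y * x) → E = ⊥) :
    ∃ 𝒯 : Finset (Subgroup G), Good D 𝒯 ∧
      D ⊓ Subgroup.centralizer ((⨆ T ∈ 𝒯, T : Subgroup G) : Set G) = ⊥ := by
  classical
  haveI : Fintype (Subgroup G) := Fintype.ofFinite _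
  obtain ⟨𝒯, h𝒯, hmax⟩ := (Set.toFinite {𝒯 : Finset (Subgroup G) | Good D 𝒯}).exists_maximalFor
    (fun 𝒯 => 𝒯.card) _ ⟨∅, by
      constructor <;> simp⟩
  refine ⟨𝒯, h𝒯, ?_⟩
  haveI := h𝒯.sup_normal
  set S : Subgroup G := ⨆ T ∈ 𝒯, T with hS
  by_contra hne
  set Z : Subgroup G := D ⊓ Subgroup.centralizer (S : Set G) with hZ
  have hZn : Z.Normal := inferInstance
  obtain ⟨N, ⟨hN, hN0, hNZ⟩, hNmin⟩ := (Set.toFinite {N : Subgroup G | N.Normal ∧ N ≠ ⊥ ∧
    N ≤ Z}).exists_minimal ⟨Z, hZn, hne, le_rfl⟩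
  have hND : N ≤ D := hNZ.trans inf_le_left
  obtain ⟨T, hTN, hT0, hTs, hTc, hTd, hTsup⟩ := core N hN0 (by
    intro M hM hMN
    by_cases h0 : M = ⊥
    · exact Or.inl h0
    · right
      exact le_antisymm hMN (hNmin ⟨hM, h0, hMN.trans hNZ⟩ hMN)) (by
    intro hab
    exact hN0 (hnab N hN hND hab))
  have hcN : ∀ g : G, cjs g T ≤ N := by
    intro g
    rw [← hTsup]
    exact le_iSup (fun g => cjs g T) g
  have hCmS : ∀ T' ∈ 𝒯, ∀ g : G, Cm (cjs g T) T' := by
    intro T' hT' g x hx y hy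
    have h1 := (hNZ (hcN g hx)).2
    have h2 : y ∈ S := by
      have : T' ≤ S := le_iSup₂_of_le T' hT' le_rfl
      exact this hy
    exact ((Subgroup.mem_centralizer_iff.mp h1) y h2).symm
  have hcc : ∀ g g' : G, cjs g T ≠ cjs g' T → Cm (cjs g T) (cjs g' T) := by
    intro g g' hne'
    rcases hTd (g⁻¹ * g') with h | h
    · exfalso
      apply hne'
      have := congrArg (cjs g) h
      rw [cjs_cjs, mul_inv_cancel_left] at this
      exact this.symm
    · intro x hx y hy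
      have h1 := h _ (mem_cjs.mp hx) (g⁻¹ * y * g) (by
        rw [mem_cjs] at hy ⊢
        rwa [show (g⁻¹ * g')⁻¹ * (g⁻¹ * y * g) * (g⁻¹ * g') = g'⁻¹ * y * g' by group])
      calc x * y = g * ((g⁻¹ * x * g) * (g⁻¹ * y * g)) * g⁻¹ := by group
        _ = g * ((g⁻¹ * y * g) * (g⁻¹ * x * g)) * g⁻¹ := by rw [h1]
        _ = y * x := by group
  have hTT : T ∉ 𝒯 := by
    intro h
    apply hT0
    rw [eq_bot_iff]
    intro x hx
    rw [Subgroup.mem_bot]
    apply hTc x hx
    intro y hy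
    have := hCmS T h 1
    rw [cjs_one] at this
    exact this x hx y hy
  let 𝒰 : Finset (Subgroup G) := 𝒯 ∪ Finset.univ.filter (fun S => ∃ g : G, S = cjs g T)
  have hmem : ∀ S : Subgroup G, S ∈ 𝒰 ↔ S ∈ 𝒯 ∨ ∃ g : G, S = cjs g T := by
    intro S
    simp [𝒰]
  have hgood : Good D 𝒰 := by
    refine ⟨?_, ?_, ?_, ?_, ?_, ?_⟩
    · intro S hS
      rcases (hmem S).mp hS with h | ⟨g, rfl⟩
      · exact h𝒯.le S h
      · exact (hcN g).trans hND
    · intro S hS
      rcases (hmem S).mp hS with h | ⟨g, rfl⟩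
      · exact h𝒯.ne S h
      · intro h0
        apply hT0
        have := congrArg (cjs g⁻¹) h0
        rwa [cjs_cjs, inv_mul_cancel, cjs_one, cjs_bot] at this
    · intro S hS
      rcases (hmem S).mp hS with h | ⟨g, rfl⟩
      · exact h𝒯.simp S h
      · exact hTs.cjs g
    · intro S hS
      rcases (hmem S).mp hS with h | ⟨g, rfl⟩
      · exact h𝒯.cf S h
      · exact hTc.cjs g
    · intro S hS S' hS' hne'
      rcases (hmem S).mp hS with h | ⟨g, rfl⟩
      · rcases (hmem S').mp hS' with h' | ⟨g', rfl⟩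
        · exact h𝒯.comm S h S' h' hne'
        · exact (hCmS S h g').symm
      · rcases (hmem S').mp hS' with h' | ⟨g', rfl⟩
        · exact hCmS S' h' g
        · exact hcc g g' hne'
    · intro g S hS
      rcases (hmem S).mp hS with h | ⟨g', rfl⟩
      · exact (hmem _).mpr (Or.inl (h𝒯.conj g S h))
      · exact (hmem _).mpr (Or.inr ⟨g * g', cjs_cjs g g' T⟩)
  have hT𝒰 : T ∈ 𝒰 := (hmem T).mpr (Or.inr ⟨1, (cjs_one T).symm⟩)
  have hlt : 𝒯.card < 𝒰.card := by
    apply Finset.card_lt_card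
    rw [Finset.ssubset_iff_of_subset Finset.subset_union_left]
    exact ⟨T, hT𝒰, hTT⟩
  have := hmax hgood hlt.le
  exact absurd hlt (not_lt.mpr this)

/-- the order of the product of the components -/
theorem card_sup_le [Finite G] {D : Subgroup G} {𝒯 : Finset (Subgroup G)} (h : Good D 𝒯)
    {B : ℕ} (hB : ∀ T ∈ 𝒯, Nat.card T ≤ B) :
    Nat.card (⨆ T ∈ 𝒯, T : Subgroup G) ≤ B ^ 𝒯.card := by
  classical
  have hcomm : Pairwise fun i j : 𝒯 => ∀ x y : G, x ∈ (i : Subgroup G) → y ∈ (j : Subgroup G) →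
      Commute x y := by
    intro i j hij x y hx hy
    exact h.comm i i.2 j j.2 (fun h => hij (Subtype.ext h)) x hx y hy
  have h1 := Subgroup.noncommPiCoprod_range (hcomm := hcomm)
  have h2 : (⨆ T ∈ 𝒯, T : Subgroup G) = ⨆ i : 𝒯, (i : Subgroup G) := by
    rw [iSup_subtype]
  rw [h2, ← h1]
  refine (Nat.card_le_card_of_surjective _ (MonoidHom.rangeRestrict_surjective _)).trans ?_
  rw [Nat.card_pi]
  refine (Finset.prod_le_pow_card _ _ B (fun (i : {x // x ∈ 𝒯}) _ => hB i.1 i.2)).trans ?_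
  simp

/-- `T` embeds in its automorphism group if it has trivial center -/
theorem card_le_card_mulAut [Finite G] {T : Subgroup G} (hc : CF T) :
    Nat.card T ≤ Nat.card (MulAut T) := by
  haveI : Finite (MulAut T) := Finite.of_injective (fun f : MulAut T => (f : T → T))
    DFunLike.coe_injective
  apply Nat.card_le_card_of_injective (MulAut.conj : T →* MulAut T)
  intro x y hxy
  have h1 : ∀ z : T, x * z * x⁻¹ = y * z * y⁻¹ := fun z => DFunLike.congr_fun hxy z
  have h2 : (y⁻¹ * x : T) = 1 := by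
    apply Subtype.ext
    apply hc _ (y⁻¹ * x).2
    intro z hz
    have h3 := h1 ⟨z, hz⟩
    have h4 : (y⁻¹ * x) * (⟨z, hz⟩ : T) = ⟨z, hz⟩ * (y⁻¹ * x) := by
      calc (y⁻¹ * x) * (⟨z, hz⟩ : T) = y⁻¹ * (x * ⟨z, hz⟩ * x⁻¹) * x := by group
        _ = y⁻¹ * (y * ⟨z, hz⟩ * y⁻¹) * x := by rw [h3]
        _ = ⟨z, hz⟩ * (y⁻¹ * x) := by group
    exact congrArg Subtype.val h4
  calc x = y * (y⁻¹ * x) := by group
    _ = y := by rw [h2, mul_one]

/-- embeddings of `T` with image in the family -/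
def Emb (𝒯 : Finset (Subgroup G)) (T : Subgroup G) : Type _ :=
  {f : T →* G // Function.Injective f ∧ f.range ∈ 𝒯}

instance [Finite G] (𝒯 : Finset (Subgroup G)) (T : Subgroup G) : Finite (Emb 𝒯 T) := by
  haveI : Finite (T →* G) := Finite.of_injective (fun f : T →* G => (f : T → G))
    DFunLike.coe_injective
  exact Subtype.finite

theorem card_emb_le [Finite G] (𝒯 : Finset (Subgroup G)) (T : Subgroup G) :
    Nat.card (Emb 𝒯 T) ≤ 𝒯.card * Nat.card (MulAut T) := by
  classical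
  haveI : Finite (MulAut T) := Finite.of_injective (fun f : MulAut T => (f : T → T))
    DFunLike.coe_injective
  -- a chosen embedding for each image
  have hex : ∀ f : Emb 𝒯 T, ∃ g : Emb 𝒯 T, g.1.range = f.1.range := fun f => ⟨f, rfl⟩
  let ch : {S // S ∈ 𝒯} → Option (Emb 𝒯 T) := fun S =>
    if h : ∃ g : Emb 𝒯 T, g.1.range = S.1 then some h.choose else none
  have hch : ∀ f : Emb 𝒯 T, ∃ g : Emb 𝒯 T, ch ⟨f.1.range, f.2.2⟩ = some g ∧
      g.1.range = f.1.range := by
    intro f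
    have h : ∃ g : Emb 𝒯 T, g.1.range = f.1.range := ⟨f, rfl⟩
    exact ⟨h.choose, by simp only [ch, dif_pos h], h.choose_spec⟩
  choose g hg1 hg2 using hch
  have hinj : Function.Injective (fun f : Emb 𝒯 T => ((⟨f.1.range, f.2.2⟩ : {S // S ∈ 𝒯}),
      (((MonoidHom.ofInjective f.2.1).trans (MulEquiv.subgroupCongr (hg2 f).symm)).trans
        (MonoidHom.ofInjective (g f).2.1).symm : MulAut T))) := by
    intro f f' hff
    rw [Prod.mk.injEq] at hff
    obtain ⟨e1, e2⟩ := hff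
    have e3 : g f = g f' := by
      have := hg1 f
      rw [e1, hg1 f'] at this
      exact (Option.some_injective _ this).symm
    apply Subtype.ext
    ext x
    have e4 := DFunLike.congr_fun e2 x
    have e5 : ∀ f : Emb 𝒯 T, (g f).1
        ((((MonoidHom.ofInjective f.2.1).trans (MulEquiv.subgroupCongr (hg2 f).symm)).trans
        (MonoidHom.ofInjective (g f).2.1).symm : MulAut T) x) = f.1 x := by
      intro f
      have h6 := (MonoidHom.ofInjective (g f).2.1).apply_symm_apply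
        ((MulEquiv.subgroupCongr (hg2 f).symm) ((MonoidHom.ofInjective f.2.1) x))
      have h7 := congrArg Subtype.val h6
      exact h7
    rw [← e5 f, ← e5 f', e4, e3]
  have h1 := Nat.card_le_card_of_injective _ hinj
  have h8 : Nat.card {S // S ∈ 𝒯} = 𝒯.card := by
    rw [Nat.card_eq_fintype_card, Fintype.card_coe]
  rw [Nat.card_prod, h8] at h1
  exact h1

theorem card_le_of_components [Finite G] {D : Subgroup G} {𝒯 : Finset (Subgroup G)}
    (h : Good D 𝒯) (hcent : D ⊓ Subgroup.centralizer ((⨆ T ∈ 𝒯, T : Subgroup G) : Set G) = ⊥)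
    {a : ℕ} (ha : ∀ T ∈ 𝒯, Nat.card (MulAut T) ≤ a) :
    Nat.card D ≤ (𝒯.card * a) ^ 𝒯.card := by
  classical
  let Φ : D → (∀ T : {T // T ∈ 𝒯}, Emb 𝒯 T.1) := fun d T =>
    ⟨(MulAut.conj (d : G)).toMonoidHom.comp T.1.subtype,
      fun x y hxy => Subtype.ext ((MulAut.conj (d : G)).injective hxy), by
        have h1 : ((MulAut.conj (d : G)).toMonoidHom.comp T.1.subtype).range = cjs (d : G) T.1 := by
          rw [MonoidHom.range_comp, Subgroup.range_subtype]
          rfl
        rw [h1]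
        exact h.conj d T.1 T.2⟩
  have hinj : Function.Injective Φ := by
    intro d d' hdd
    have h1 : ∀ T ∈ 𝒯, ∀ x ∈ T, (d : G) * x * (d : G)⁻¹ = d' * x * (d' : G)⁻¹ := by
      intro T hT x hx
      have h2 := congrFun hdd ⟨T, hT⟩
      have h3 := congrArg Subtype.val h2
      exact DFunLike.congr_fun h3 ⟨x, hx⟩
    have h2 : (d' : G)⁻¹ * d ∈ D ⊓ Subgroup.centralizer ((⨆ T ∈ 𝒯, T : Subgroup G) : Set G) := by
      refine ⟨D.mul_mem (D.inv_mem d'.2) d.2, ?_⟩
      have h3 : (⨆ T ∈ 𝒯, T : Subgroup G) ≤ Subgroup.centralizer ({(d' : G)⁻¹ * d} : Set G) := by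
        apply iSup₂_le
        intro T hT x hx
        rw [Subgroup.mem_centralizer_singleton_iff]
        have h4 := h1 T hT x hx
        calc x * ((d' : G)⁻¹ * d) = (d' : G)⁻¹ * (d' * x * (d' : G)⁻¹) * d := by group
          _ = (d' : G)⁻¹ * (d * x * (d : G)⁻¹) * d := by rw [h4]
          _ = (d' : G)⁻¹ * d * x := by group
      change (d' : G)⁻¹ * d ∈ Subgroup.centralizer ((⨆ T ∈ 𝒯, T : Subgroup G) : Set G)
      rw [Subgroup.mem_centralizer_iff]
      intro x hx
      exact Subgroup.mem_centralizer_singleton_iff.mp (h3 hx)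
    rw [hcent, Subgroup.mem_bot] at h2
    apply Subtype.ext
    calc (d : G) = d' * ((d' : G)⁻¹ * d) := by group
      _ = d' := by rw [h2, mul_one]
  have h3 := Nat.card_le_card_of_injective Φ hinj
  rw [Nat.card_pi] at h3
  refine h3.trans ?_
  refine (Finset.prod_le_pow_card _ _ (𝒯.card * a) (fun (T : {x // x ∈ 𝒯}) _ =>
    (card_emb_le 𝒯 T.1).trans (Nat.mul_le_mul_left _ (ha T.1 T.2)))).trans ?_
  simp

end H60.KG
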