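import Mathlib

/-!
Number theory: the `π`-part of `p ^ d - 1` is polynomial in `d`.
-/

namespace H60.KG

theorem val_bound {p r d : ℕ} (hp : p.Prime) (hr : r.Prime) (hrp : ¬ r ∣ p) (hd : d ≠ 0) :
    r ^ padicValNat r (p ^ d - 1) ≤ p ^ (r + 1) * d := by
  haveI : Fact r.Prime := ⟨hr⟩
  have hp2 := hp.two_le
  have hpd : 1 < p ^ d := Nat.one_lt_pow hd hp.one_lt
  by_cases h2 : r = 2
  · subst h2
    have hodd : ¬ 2 ∣ p := hrp
    have hsub : 2 ∣ p - 1 := by omega
    have h1 := padicValNat.pow_two_sub_pow (x := p) (y := 1) hp.one_lt hsub hodd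
      (n := 2 * d) (by omega) (by simp)
    rw [one_pow] at h1
    have hdvd : p ^ d - 1 ∣ p ^ (2 * d) - 1 := by
      have := Nat.sub_dvd_pow_sub_pow (p ^ d) 1 2
      rw [one_pow, ← pow_mul, mul_comm d 2] at this
      exact this
    have hne : p ^ (2 * d) - 1 ≠ 0 := by
      have : 1 < p ^ (2 * d) := Nat.one_lt_pow (by omega) hp.one_lt
      omega
    have h3 : padicValNat 2 (p ^ d - 1) ≤ padicValNat 2 (p ^ (2 * d) - 1) :=
      padicValNat_dvd_iff_le hne |>.mp (pow_padicValNat_dvd.trans hdvd)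
    have e1 : 2 ^ padicValNat 2 (p + 1) ≤ p + 1 := Nat.le_of_dvd (by omega) pow_padicValNat_dvd
    have e2 : 2 ^ padicValNat 2 (p - 1) ≤ p - 1 := Nat.le_of_dvd (by omega) pow_padicValNat_dvd
    have e3 : 2 ^ padicValNat 2 (2 * d) ≤ 2 * d := Nat.le_of_dvd (by omega) pow_padicValNat_dvd
    have h4 : 2 ^ (padicValNat 2 (p ^ d - 1) + 1) ≤ (p + 1) * (p - 1) * (2 * d) := by
      calc 2 ^ (padicValNat 2 (p ^ d - 1) + 1) ≤ 2 ^ (padicValNat 2 (p ^ (2 * d) - 1) + 1) :=
            Nat.pow_le_pow_right (by norm_num) (by omega)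
        _ = 2 ^ padicValNat 2 (p + 1) * 2 ^ padicValNat 2 (p - 1) * 2 ^ padicValNat 2 (2 * d) := by
            rw [h1, pow_add, pow_add]
        _ ≤ _ := Nat.mul_le_mul (Nat.mul_le_mul e1 e2) e3
    have h5 : (p + 1) * (p - 1) ≤ p ^ 3 := by
      obtain ⟨k, rfl⟩ : ∃ k, p = k + 1 := ⟨p - 1, by omega⟩
      simp only [Nat.add_sub_cancel]
      nlinarith [Nat.zero_le k, Nat.zero_le (k ^ 2), Nat.zero_le (k ^ 3)]
    rw [pow_succ] at h4
    have h6 : (p + 1) * (p - 1) * (2 * d) ≤ p ^ 3 * d * 2 := by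
      calc (p + 1) * (p - 1) * (2 * d) ≤ p ^ 3 * (2 * d) := Nat.mul_le_mul_right _ h5
        _ = p ^ 3 * d * 2 := by ring
    change 2 ^ padicValNat 2 (p ^ d - 1) ≤ p ^ 3 * d
    omega
  · have hodd : Odd r := hr.odd_of_ne_two h2
    have hcop : Nat.Coprime p r := (Nat.coprime_primes hp hr).mpr (by
      rintro rfl
      exact hrp dvd_rfl)
    set x := p ^ (r - 1) with hx
    have hr3 : 3 ≤ r := by
      have := hr.two_le
      omega
    have hx1 : 1 < x := Nat.one_lt_pow (by omega) hp.one_lt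
    have hmod : x ≡ 1 [MOD r] := by
      have := Nat.ModEq.pow_totient hcop
      rwa [Nat.totient_prime hr] at this
    have hrx : r ∣ x - 1 := (Nat.modEq_iff_dvd' hx1.le).mp hmod.symm
    have hnx : ¬ r ∣ x := by
      intro h
      exact hrp (hr.dvd_of_dvd_pow h)
    have h1 := padicValNat.pow_sub_pow hodd hx1 hrx hnx (n := d) hd
    rw [one_pow] at h1
    have hdvd : p ^ d - 1 ∣ x ^ d - 1 := by
      have := Nat.sub_dvd_pow_sub_pow (p ^ d) 1 (r - 1)
      rw [one_pow, ← pow_mul, mul_comm d (r - 1), pow_mul] at this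
      exact this
    have hne : x ^ d - 1 ≠ 0 := by
      have : 1 < x ^ d := Nat.one_lt_pow hd hx1
      omega
    have h3 : padicValNat r (p ^ d - 1) ≤ padicValNat r (x ^ d - 1) :=
      padicValNat_dvd_iff_le hne |>.mp (pow_padicValNat_dvd.trans hdvd)
    have e1 : r ^ padicValNat r (x - 1) ≤ x - 1 := Nat.le_of_dvd (by omega) pow_padicValNat_dvd
    have e2 : r ^ padicValNat r d ≤ d := Nat.le_of_dvd (by omega) pow_padicValNat_dvd
    calc r ^ padicValNat r (p ^ d - 1) ≤ r ^ padicValNat r (x ^ d - 1) :=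
          Nat.pow_le_pow_right (by omega) h3
      _ = r ^ padicValNat r (x - 1) * r ^ padicValNat r d := by rw [h1, pow_add]
      _ ≤ (x - 1) * d := Nat.mul_le_mul e1 e2
      _ ≤ p ^ (r + 1) * d := by
          apply Nat.mul_le_mul_right
          have : x ≤ p ^ (r + 1) := Nat.pow_le_pow_right (by omega) (by omega)
          omega

theorem part_bound {π : Finset ℕ} {S p d a : ℕ} (hp : p.Prime) (hpS : p ≤ S) (hd : d ≠ 0)
    (ha : a ∣ p ^ d - 1) (hπ : ∀ r : ℕ, r.Prime → r ∣ a → r ∈ π) (hS : ∀ r ∈ π, r ≤ S) :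
    a ≤ (S ^ (S + 1) * d) ^ π.card := by
  have hpd : 1 < p ^ d := Nat.one_lt_pow hd hp.one_lt
  have ha0 : a ≠ 0 := by
    rintro rfl
    rw [zero_dvd_iff] at ha
    omega
  have hS1 : 1 ≤ S := by have := hp.two_le; omega
  have hbase : 1 ≤ S ^ (S + 1) * d := Nat.mul_pos (Nat.pow_pos hS1) (Nat.pos_of_ne_zero hd)
  have h1 : ∀ r ∈ a.primeFactors, r ^ a.factorization r ≤ S ^ (S + 1) * d := by
    intro r hr
    have hrp := Nat.prime_of_mem_primeFactors hr
    have hra := Nat.dvd_of_mem_primeFactors hr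
    haveI : Fact r.Prime := ⟨hrp⟩
    have hnd : ¬ r ∣ p := by
      intro h
      have h2 : r ∣ p ^ d := dvd_pow h hd
      have h3 := hra.trans ha
      have h4 : r ∣ p ^ d - (p ^ d - 1) := Nat.dvd_sub h2 h3
      rw [Nat.sub_sub_self hpd.le] at h4
      exact hrp.one_lt.ne' (Nat.dvd_one.mp h4)
    have h2 : a.factorization r ≤ padicValNat r (p ^ d - 1) := by
      rw [← padicValNat_dvd_iff_le (by omega)]
      exact (Nat.ordProj_dvd a r).trans ha
    calc r ^ a.factorization r ≤ r ^ padicValNat r (p ^ d - 1) :=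
          Nat.pow_le_pow_right hrp.pos h2
      _ ≤ p ^ (r + 1) * d := val_bound hp hrp hnd hd
      _ ≤ S ^ (S + 1) * d := by
          apply Nat.mul_le_mul_right
          calc p ^ (r + 1) ≤ S ^ (r + 1) := Nat.pow_le_pow_left hpS _
            _ ≤ S ^ (S + 1) := Nat.pow_le_pow_right hS1 (by
              have := hS r (hπ r hrp hra)
              omega)
  calc a = ∏ r ∈ a.primeFactors, r ^ a.factorization r := by
        conv_lhs => rw [← Nat.factorization_prod_pow_eq_self ha0]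
        rfl
    _ ≤ (S ^ (S + 1) * d) ^ a.primeFactors.card := Finset.prod_le_pow_card _ _ _ h1
    _ ≤ (S ^ (S + 1) * d) ^ π.card := by
        apply Nat.pow_le_pow_right hbase
        apply Finset.card_le_card
        intro r hr
        exact hπ r (Nat.prime_of_mem_primeFactors hr) (Nat.dvd_of_mem_primeFactors hr)

theorem exists_exp (C k : ℕ) : ∃ d0 : ℕ, ∀ d, d0 ≤ d → (C * d) ^ k ≤ 2 ^ d := by
  have h := tendsto_pow_const_div_const_pow_of_one_lt k (by norm_num : (1 : ℝ) < 2)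
  have h2 := (h.eventually (ge_mem_nhds (show (0 : ℝ) < 1 / ((C : ℝ) + 1) ^ k by positivity)))
  obtain ⟨d0, hd0⟩ := Filter.eventually_atTop.mp h2
  refine ⟨d0, fun d hd => ?_⟩
  have h3 := hd0 d hd
  rw [div_le_div_iff₀ (by positivity) (by positivity), one_mul] at h3
  have h4 : ((C : ℝ) * d) ^ k ≤ 2 ^ d := by
    calc ((C : ℝ) * d) ^ k ≤ (((C : ℝ) + 1) * d) ^ k := by gcongr; linarith
      _ = (d : ℝ) ^ k * ((C : ℝ) + 1) ^ k := by rw [mul_pow]; ring
      _ ≤ 2 ^ d := h3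
  exact_mod_cast h4

theorem exists_M (π : Finset ℕ) : ∃ M : ℕ, ∀ p ∈ π, p.Prime → ∀ d, M < p ^ d → ∀ a,
    a ∣ p ^ d - 1 → (∀ r : ℕ, r.Prime → r ∣ a → r ∈ π) → a ^ 2 ≤ p ^ d := by
  set S := π.sup id + 1 with hS
  have hSle : ∀ r ∈ π, r ≤ S := fun r hr => (Finset.le_sup (f := id) hr).trans (Nat.le_succ _)
  obtain ⟨d0, hd0⟩ := exists_exp (S ^ (S + 1)) (π.card * 2)
  refine ⟨S ^ d0, ?_⟩
  intro p hp hpp d hd a ha hπ
  have hdd : d0 < d := by
    by_contra hcon
    push_neg at hcon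
    have : p ^ d ≤ S ^ d0 := (Nat.pow_le_pow_left (hSle p hp) d).trans
      (Nat.pow_le_pow_right (by omega) hcon)
    omega
  have h1 := part_bound hpp (hSle p hp) (by omega) ha hπ hSle
  calc a ^ 2 ≤ ((S ^ (S + 1) * d) ^ π.card) ^ 2 := Nat.pow_le_pow_left h1 2
    _ = (S ^ (S + 1) * d) ^ (π.card * 2) := by rw [pow_mul]
    _ ≤ 2 ^ d := hd0 d hdd.le
    _ ≤ p ^ d := Nat.pow_le_pow_left hpp.two_le _

end H60.KG
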