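import Pool.Agent.H60.KG.Main
import Pool.Agent.H60.KG.NT

/-!
The main bound.
-/

namespace H60.KG

universe u

theorem GAdm.quot {N0 M : ℕ} {G : Type*} [Group G] [Finite G] (h : GAdm N0 M G)
    (N : Subgroup G) [N.Normal] : GAdm N0 M (G ⧸ N) := by
  rcases h with ⟨hord, hdiv⟩ | hcl
  · left
    refine ⟨hord.of_surjective _ (QuotientGroup.mk'_surjective N), ?_⟩
    intro p hp hpd
    apply hdiv p hp
    exact hpd.trans (Subgroup.card_quotient_dvd_card N)
  · right
    exact le_trans (Nat.pow_le_pow_left
      (card_conj_le_of_surjective _ (QuotientGroup.mk'_surjective N)) 8) hcl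

theorem main_bound (s M N0 n : ℕ) : ∀ (G : Type u) [Group G] [Finite G],
    Nat.card G = n → SecAut s G → GAdm N0 M G →
    Nat.card G ≤ (cst s + M) ^ (Nat.card (ConjClasses G) - 1) := by
  classical
  have hc : 0 < cst s := by unfold cst; positivity
  induction n using Nat.strong_induction_on with
  | _ n ih =>
    intro G _ _ hn hsf hadm
    have hQ1 : 1 ≤ cst s + M := by omega
    by_cases htriv : Nat.card G = 1
    · rw [htriv]
      exact Nat.one_le_pow _ _ (by omega)
    · have hne : (⊤ : Subgroup G) ≠ ⊥ := by
        intro h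
        apply htriv
        rw [← Subgroup.card_top (G := G), h, Subgroup.card_bot]
      obtain ⟨N, ⟨hN, hN0⟩, hNmin⟩ := (Set.toFinite {N : Subgroup G | N.Normal ∧
        N ≠ ⊥}).exists_minimal ⟨⊤, inferInstance, hne⟩
      have hmin : ∀ Y : Subgroup G, Y.Normal → Y ≤ N → Y = ⊥ ∨ Y = N := by
        intro Y hY hYN
        by_cases h0 : Y = ⊥
        · exact Or.inl h0
        · exact Or.inr (le_antisymm hYN (hNmin ⟨hY, h0⟩ hYN))
      have hNcard : Nat.card N ≤ (cst s + M) ^ (clsIn N - 1) := by
        by_cases hab : ∀ x ∈ N, ∀ y ∈ N, x * y = y * x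
        · exact abel_case hsf hadm N hN0 hmin hab
        · refine (nonab_case hsf N hN0 hmin hab).trans ?_
          apply Nat.pow_le_pow_left
          have h1 : 2 ^ s ≤ cst s := by
            unfold cst
            apply Nat.pow_le_pow_right (by norm_num)
            have h2 : 1 + s ≤ lam s := Nat.le_mul_of_pos_right _ (by omega)
            omega
          omega
      have hGN : Nat.card G = Nat.card N * Nat.card (G ⧸ N) := by
        rw [mul_comm]
        exact Subgroup.card_eq_card_quotient_mul_card_subgroup N
      have hN2 : 1 < Nat.card N := by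
        rw [Finite.one_lt_card_iff_nontrivial]
        exact (Subgroup.nontrivial_iff_ne_bot N).mpr hN0
      have hQpos : 0 < Nat.card (G ⧸ N) := Nat.card_pos
      have hlt : Nat.card (G ⧸ N) < n := by
        rw [← hn, hGN]
        calc Nat.card (G ⧸ N) = 1 * Nat.card (G ⧸ N) := (one_mul _).symm
          _ < Nat.card N * Nat.card (G ⧸ N) := Nat.mul_lt_mul_of_pos_right hN2 hQpos
      have h5 := ih _ hlt (G ⧸ N) rfl
        (hsf.of_surjective _ (QuotientGroup.mk'_surjective N)) (hadm.quot N)
      have h6 := card_conj_ge N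
      haveI : Finite (ConjClasses (G ⧸ N)) := Quotient.finite _
      haveI : Nonempty (ConjClasses (G ⧸ N)) := ⟨ConjClasses.mk 1⟩
      have h7 : 0 < Nat.card (ConjClasses (G ⧸ N)) := Nat.card_pos
      calc Nat.card G = Nat.card N * Nat.card (G ⧸ N) := hGN
        _ ≤ (cst s + M) ^ (clsIn N - 1) *
            (cst s + M) ^ (Nat.card (ConjClasses (G ⧸ N)) - 1) :=
            Nat.mul_le_mul hNcard h5
        _ = (cst s + M) ^ (clsIn N - 1 + (Nat.card (ConjClasses (G ⧸ N)) - 1)) := by
            rw [pow_add]
        _ ≤ (cst s + M) ^ (Nat.card (ConjClasses G) - 1) :=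
            Nat.pow_le_pow_right hQ1 (by
              have h8 : 1 ≤ clsIn N := by
                haveI : Finite (ConjClasses G) := Quotient.finite _
                haveI : Nonempty {c : ConjClasses G // ∃ x ∈ N, ConjClasses.mk x = c} :=
                  ⟨⟨ConjClasses.mk 1, 1, N.one_mem, rfl⟩⟩
                exact Nat.card_pos
              omega)

end H60.KG
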