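import Pool.Agent.H60.KG.Hom

/-!
The field generated by an abelian normal subgroup in a primitive faithful action.
-/

namespace H60.KG

open MulAction
open scoped Pointwise

universe u

variable {H V : Type u} [Group H] [AddCommGroup V] [Finite V] [DistribMulAction H V]

/-- ring of operators generated by a subgroup -/
def opRing (V : Type u) [AddCommGroup V] [DistribMulAction H V] (N : Subgroup H) :
    Subring (AddMonoid.End V) :=
  Subring.closure ((DistribMulAction.toAddMonoidEnd H V) '' (N : Set H))

omit [Finite V] in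
theorem mem_opRing {N : Subgroup H} {n : H} (hn : n ∈ N) :
    DistribMulAction.toAddMonoidEnd H V n ∈ opRing V N :=
  Subring.subset_closure ⟨n, hn, rfl⟩

/-- conjugation as a ring hom -/
def cjHom (V : Type u) [AddCommGroup V] [DistribMulAction H V] (h : H) :
    AddMonoid.End V →+* AddMonoid.End V where
  toFun := cj h
  map_one' := by ext v; simp [cj_apply]
  map_mul' a b := by ext v; simp [cj_apply]
  map_zero' := by ext v; simp [cj_apply]
  map_add' a b := by
    ext v
    change h • (a (h⁻¹ • v) + b (h⁻¹ • v)) = h • a (h⁻¹ • v) + h • b (h⁻¹ • v)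
    rw [smul_add]

omit [Finite V] in
theorem opRing_normd (N : Subgroup H) [hN : N.Normal] : Normd H (opRing V N) := by
  intro h r hr
  have h1 : opRing V N ≤ (opRing V N).comap (cjHom V h) := by
    apply Subring.closure_le.mpr
    rintro _ ⟨n, hn, rfl⟩
    change cj h _ ∈ opRing V N
    have : cj h (DistribMulAction.toAddMonoidEnd H V n) =
        DistribMulAction.toAddMonoidEnd H V (h * n * h⁻¹) := by
      unfold cj
      rw [map_mul, map_mul]
    rw [this]
    exact mem_opRing (hN.conj_mem n hn h)
  exact h1 hr

omit [Finite V] in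
theorem inv_opRing {N : Subgroup H} {W : AddSubgroup V} (hW : ∀ n ∈ N, ∀ v ∈ W, n • v ∈ W) :
    Inv (opRing V N) W := by
  let S : Subring (AddMonoid.End V) :=
    { carrier := {r | ∀ v ∈ W, r v ∈ W}
      mul_mem' := fun {a b} ha hb v hv => ha _ (hb v hv)
      one_mem' := fun v hv => hv
      add_mem' := fun {a b} ha hb v hv => W.add_mem (ha v hv) (hb v hv)
      zero_mem' := fun v _ => W.zero_mem
      neg_mem' := fun {a} ha v hv => W.neg_mem (ha v hv) }
  have : opRing V N ≤ S := by
    apply Subring.closure_le.mpr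
    rintro _ ⟨n, hn, rfl⟩ v hv
    exact hW n hn v hv
  exact fun r hr => this hr

omit [Finite V] in
/-- an element commuting with `N` commutes with the ring -/
theorem opRing_comm {N : Subgroup H} {c : H} (hc : ∀ n ∈ N, c * n = n * c)
    {r : AddMonoid.End V} (hr : r ∈ opRing V N) (v : V) : c • r v = r (c • v) := by
  let S : Subring (AddMonoid.End V) :=
    { carrier := {r | ∀ v : V, c • r v = r (c • v)}
      mul_mem' := fun {a b} ha hb v => by
        change c • a (b v) = a (b (c • v))
        rw [ha, hb]
      one_mem' := fun v => rfl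
      add_mem' := fun {a b} ha hb v => by
        change c • (a v + b v) = a (c • v) + b (c • v)
        rw [smul_add, ha, hb]
      zero_mem' := fun v => smul_zero c
      neg_mem' := fun {a} ha v => by
        change c • (-(a v)) = -(a (c • v))
        rw [smul_neg, ha] }
  have : opRing V N ≤ S := by
    apply Subring.closure_le.mpr
    rintro _ ⟨n, hn, rfl⟩ v
    change c • n • v = n • c • v
    rw [← mul_smul, hc n hn, mul_smul]
  exact this hr v

/-- Faithfulness of a normal subgroup on each nonzero invariant subgroup. -/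
theorem faith_of_prim [FaithfulSMul H V] (hP : Prim H V) [Nontrivial V] (N : Subgroup H)
    [N.Normal] {U : AddSubgroup V} (hU : U ≠ ⊥) (hUN : ∀ n ∈ N, ∀ v ∈ U, n • v ∈ U)
    {g g' : H} (hg : g ∈ N) (hg' : g' ∈ N) (h : ∀ v ∈ U, g • v = g' • v) : g = g' := by
  have h1 := eq_zero_of_prim hP (opRing V N) (opRing_normd N) hU (inv_opRing hUN)
    (Subring.sub_mem _ (mem_opRing hg) (mem_opRing hg')) (by
      intro v hv
      change g • v - g' • v = 0
      rw [h v hv, sub_self])
  apply FaithfulSMul.eq_of_smul_eq_smul (α := V)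
  intro v
  have := DFunLike.congr_fun h1 v
  exact sub_eq_zero.mp this

/-- the abelian group inside the ring -/
def chiHom (V : Type u) [AddCommGroup V] [DistribMulAction H V] (A : Subgroup H) :
    A →* opRing V A where
  toFun a := ⟨DistribMulAction.toAddMonoidEnd H V a, mem_opRing a.2⟩
  map_one' := Subtype.ext (map_one _)
  map_mul' a b := Subtype.ext (map_mul _ _ _)

/-- conjugation by `h` as an automorphism of the ring -/
def sigEquiv (V : Type u) [AddCommGroup V] [DistribMulAction H V] (A : Subgroup H) [A.Normal]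
    (h : H) : RingAut (opRing V A) where
  toFun r := ⟨cj h r, opRing_normd (V := V) A h (r : AddMonoid.End V) r.2⟩
  invFun r := ⟨cj h⁻¹ r, opRing_normd (V := V) A h⁻¹ (r : AddMonoid.End V) r.2⟩
  left_inv r := by
    apply Subtype.ext
    exact cj_inv h (r : AddMonoid.End V)
  right_inv r := by
    apply Subtype.ext
    have := cj_inv h⁻¹ (r : AddMonoid.End V)
    rw [inv_inv] at this
    exact this
  map_mul' a b := by
    apply Subtype.ext
    ext v
    change h • (a : AddMonoid.End V) ((b : AddMonoid.End V) (h⁻¹ • v)) =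
      h • (a : AddMonoid.End V) (h⁻¹ • h • (b : AddMonoid.End V) (h⁻¹ • v))
    rw [inv_smul_smul]
  map_add' a b := by
    apply Subtype.ext
    ext v
    change h • ((a : AddMonoid.End V) (h⁻¹ • v) + (b : AddMonoid.End V) (h⁻¹ • v)) =
      h • (a : AddMonoid.End V) (h⁻¹ • v) + h • (b : AddMonoid.End V) (h⁻¹ • v)
    rw [smul_add]

/-- conjugation as a hom to automorphisms of the ring -/
def sigHom (V : Type u) [AddCommGroup V] [DistribMulAction H V] (A : Subgroup H) [A.Normal] :
    H →* RingAut (opRing V A) where
  toFun := sigEquiv V A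
  map_one' := by
    apply RingEquiv.ext
    intro r
    apply Subtype.ext
    ext v
    change (1 : H) • (r : AddMonoid.End V) ((1 : H)⁻¹ • v) = (r : AddMonoid.End V) v
    rw [one_smul, inv_one, one_smul]
  map_mul' a b := by
    apply RingEquiv.ext
    intro r
    apply Subtype.ext
    ext v
    change (a * b) • (r : AddMonoid.End V) ((a * b)⁻¹ • v) =
      a • b • (r : AddMonoid.End V) (b⁻¹ • a⁻¹ • v)
    rw [mul_smul, mul_inv_rev, mul_smul]

omit [Finite V] in
theorem chi_smul (A : Subgroup H) (a : A) (v : V) : chiHom V A a • v = (a : H) • v := rfl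

omit [Finite V] in
theorem sig_smul (A : Subgroup H) [A.Normal] (h : H) (x : opRing V A) (v : V) :
    h • (x • v) = (sigHom V A h x) • (h • v) := by
  change h • (x : AddMonoid.End V) v = h • (x : AddMonoid.End V) (h⁻¹ • h • v)
  rw [inv_smul_smul]

theorem exists_field_aux (A : Subgroup H)
    [A.Normal] (hF : IsField (opRing V A)) :
    ∃ (K : Type u) (_ : Field K) (_ : Finite K) (_ : Module K V) (χ : A →* K)
      (σ : H →* RingAut K),
      (∀ (a : A) (v : V), χ a • v = (a : H) • v) ∧
      (∀ (h : H) (x : K) (v : V), h • (x • v) = (σ h x) • (h • v)) ∧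
      (∀ c : H, (∀ a ∈ A, c * a = a * c) → ∀ (x : K) (v : V), c • (x • v) = x • (c • v)) := by
  letI i2 : Field (opRing V A) := hF.toField
  letI i3 : Module (opRing V A) V := inferInstance
  refine ⟨opRing V A, i2, inferInstance, i3, chiHom V A, sigHom V A, ?_, ?_, ?_⟩
  · exact chi_smul A
  · exact sig_smul A
  · exact fun c hc x v => opRing_comm hc x.2 v

theorem exists_field [FaithfulSMul H V] (hP : Prim H V) [Nontrivial V] (A : Subgroup H)
    [A.Normal] (hA : ∀ a ∈ A, ∀ b ∈ A, a * b = b * a) :
    ∃ (K : Type u) (_ : Field K) (_ : Finite K) (_ : Module K V) (χ : A →* K)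
      (σ : H →* RingAut K),
      (∀ (a : A) (v : V), χ a • v = (a : H) • v) ∧
      (∀ (h : H) (x : K) (v : V), h • (x • v) = (σ h x) • (h • v)) ∧
      (∀ c : H, (∀ a ∈ A, c * a = a * c) → ∀ (x : K) (v : V), c • (x • v) = x • (c • v)) := by
  classical
  have hcomm : ∀ x ∈ ((DistribMulAction.toAddMonoidEnd H V) '' (A : Set H)),
      ∀ y ∈ ((DistribMulAction.toAddMonoidEnd H V) '' (A : Set H)), x * y = y * x := by
    rintro _ ⟨a, ha, rfl⟩ _ ⟨b, hb, rfl⟩
    rw [← map_mul, hA a ha b hb, map_mul]
  have hmc : ∀ x y : opRing V A, x * y = y * x := by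
    intro x y
    exact ((Subring.isMulCommutative_closure hcomm).is_comm).comm x y
  have hnz : ∀ r s : opRing V A, r * s = 0 → r = 0 ∨ s = 0 := by
    intro r s hrs
    by_contra hcon
    push_neg at hcon
    obtain ⟨hr, hs⟩ := hcon
    apply hr
    apply Subtype.ext
    have hrs' : (r : AddMonoid.End V) * (s : AddMonoid.End V) = 0 := congrArg Subtype.val hrs
    refine eq_zero_of_prim hP (opRing V A) (opRing_normd A)
      (U := (r : AddMonoid.End V).ker) ?_ ?_ r.2 (fun v hv => hv)
    · intro hbot
      apply hs
      apply Subtype.ext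
      ext v
      have h1 : (s : AddMonoid.End V) v ∈ (r : AddMonoid.End V).ker :=
        DFunLike.congr_fun hrs' v
      rw [hbot, AddSubgroup.mem_bot] at h1
      exact h1
    · intro t ht v hv
      have h2 : r * ⟨t, ht⟩ = ⟨t, ht⟩ * r := hmc _ _
      have h3 : (r : AddMonoid.End V) * t = t * (r : AddMonoid.End V) := congrArg Subtype.val h2
      change (r : AddMonoid.End V) (t v) = 0
      have h4 := DFunLike.congr_fun h3 v
      change (r : AddMonoid.End V) (t v) = t ((r : AddMonoid.End V) v) at h4
      have hv' : (r : AddMonoid.End V) v = 0 := hv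
      rw [h4, hv', map_zero]
  haveI : Nontrivial (opRing V A) := by
    obtain ⟨v, hv⟩ := exists_ne (0 : V)
    refine ⟨0, 1, ?_⟩
    intro h
    have h1 : (0 : AddMonoid.End V) = 1 := congrArg Subtype.val h
    exact hv (DFunLike.congr_fun h1 v).symm
  have hF : IsField (opRing V A) := by
    letI : CommRing (opRing V A) := { (inferInstance : Ring (opRing V A)) with mul_comm := hmc }
    haveI : NoZeroDivisors (opRing V A) := ⟨fun {a b} h => hnz a b h⟩
    haveI : IsDomain (opRing V A) := NoZeroDivisors.to_isDomain _
    exact Finite.isField_of_domain _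
  exact exists_field_aux A hF

end H60.KG
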