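import Pool.Agent.H60.KG.Irr

/-!
In a primitive action, a normalized ring of operators acts faithfully on each nonzero invariant
subgroup.
-/

namespace H60.KG

open MulAction
open scoped Pointwise

/-- No proper block. -/
def Prim (H V : Type*) [Group H] [AddCommGroup V] [Finite V] [DistribMulAction H V] : Prop :=
  ∀ U : AddSubgroup V, U ≠ ⊥ → IndepOrbit H U → U = ⊤

variable {H V : Type*} [Group H] [AddCommGroup V] [Finite V] [DistribMulAction H V]

/-- the annihilator of `W` in `R` -/
def ann (R : Subring (AddMonoid.End V)) (W : AddSubgroup V) : Set (AddMonoid.End V) :=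
  {r | r ∈ R ∧ ∀ v ∈ W, r v = 0}

/-- invariance -/
def Inv (R : Subring (AddMonoid.End V)) (W : AddSubgroup V) : Prop :=
  ∀ r ∈ R, ∀ v ∈ W, r v ∈ W

/-- the ring is normalized by `H` -/
def Normd (H : Type*) [Group H] [DistribMulAction H V] (R : Subring (AddMonoid.End V)) : Prop :=
  ∀ (h : H), ∀ r ∈ R, DistribMulAction.toAddMonoidEnd H V h * r *
    DistribMulAction.toAddMonoidEnd H V h⁻¹ ∈ R

omit [Finite V] in
theorem toEnd_apply (h : H) (v : V) : DistribMulAction.toAddMonoidEnd H V h v = h • v := rfl

instance : Finite (AddMonoid.End V) :=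
  Finite.of_injective (fun f => (f : V → V)) DFunLike.coe_injective

/-- the conjugation map on operators -/
def cj (h : H) (r : AddMonoid.End V) : AddMonoid.End V :=
  DistribMulAction.toAddMonoidEnd H V h * r * DistribMulAction.toAddMonoidEnd H V h⁻¹

omit [Finite V] in
theorem cj_apply (h : H) (r : AddMonoid.End V) (v : V) : cj h r v = h • r (h⁻¹ • v) := rfl

omit [Finite V] in
theorem cj_inv (h : H) (r : AddMonoid.End V) : cj h⁻¹ (cj h r) = r := by
  ext v
  simp [cj_apply]

omit [Finite V] in
theorem ann_smul_sub (R : Subring (AddMonoid.End V)) (hR : Normd H R) (h : H) (W : AddSubgroup V) :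
    cj h '' ann R W ⊆ ann R (h • W) := by
  rintro _ ⟨r, hr, rfl⟩
  refine ⟨hR h r hr.1, ?_⟩
  intro v hv
  rw [cj_apply]
  have h1 : h⁻¹ • v ∈ W := by
    rwa [AddSubgroup.mem_pointwise_smul_iff_inv_smul_mem] at hv
  rw [hr.2 _ h1, smul_zero]

theorem ann_ncard (R : Subring (AddMonoid.End V)) (hR : Normd H R) (h : H) (W : AddSubgroup V) :
    (ann R (h • W)).ncard = (ann R W).ncard := by
  have hinj : ∀ g : H, Function.Injective (cj (V := V) g) := by
    intro g a b hab
    have := congrArg (cj g⁻¹) hab
    rwa [cj_inv, cj_inv] at this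
  have key : ∀ (g : H) (W : AddSubgroup V), (ann R W).ncard ≤ (ann R (g • W)).ncard := by
    intro g W
    rw [← Set.ncard_image_of_injective (ann R W) (hinj g)]
    exact Set.ncard_le_ncard (ann_smul_sub R hR g W) (Set.toFinite _)
  apply le_antisymm _ (key h W)
  have := key h⁻¹ (h • W)
  rwa [inv_smul_smul] at this

omit [Finite V] in
theorem Inv.smul {R : Subring (AddMonoid.End V)} (hR : Normd H R) {W : AddSubgroup V}
    (hW : Inv R W) (h : H) : Inv R (h • W) := by
  intro r hr v hv
  rw [AddSubgroup.mem_pointwise_smul_iff_inv_smul_mem] at hv ⊢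
  have h1 := hW _ (hR h⁻¹ r hr) _ hv
  have h2 : (DistribMulAction.toAddMonoidEnd H V h⁻¹ * r *
      DistribMulAction.toAddMonoidEnd H V h⁻¹⁻¹) (h⁻¹ • v) = h⁻¹ • r v := by
    change h⁻¹ • r (h⁻¹⁻¹ • (h⁻¹ • v)) = _
    rw [inv_inv, smul_inv_smul]
  rwa [h2] at h1

/-- The key lemma: in a primitive action a normalized ring acts faithfully on each nonzero
invariant subgroup. -/
theorem eq_zero_of_prim (hP : Prim H V) [Nontrivial V] (R : Subring (AddMonoid.End V))
    (hR : Normd H R) {U : AddSubgroup V} (hU : U ≠ ⊥) (hUR : Inv R U) {r : AddMonoid.End V}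
    (hr : r ∈ R) (hrU : ∀ v ∈ U, r v = 0) : r = 0 := by
  classical
  -- a nonzero invariant subgroup with maximal annihilator
  obtain ⟨U0, ⟨hU0, hU0R⟩, hmax⟩ := (Set.toFinite {W : AddSubgroup V | W ≠ ⊥ ∧ Inv R W}).exists_maximalFor
    (fun W => (ann R W).ncard) _ ⟨U, hU, hUR⟩
  have hmax' : ∀ W : AddSubgroup V, W ≠ ⊥ → Inv R W → (ann R W).ncard ≤ (ann R U0).ncard := by
    intro W h1 h2
    by_contra hcon
    push_neg at hcon
    exact absurd (hmax ⟨h1, h2⟩ hcon.le) (not_le.mpr hcon)
  -- the block
  let B : AddSubgroup V :=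
    { carrier := {v | ∀ s ∈ ann R U0, s v = 0}
      add_mem' := by
        intro v w hv hw s hs
        rw [map_add, hv s hs, hw s hs, add_zero]
      zero_mem' := fun s _ => map_zero s
      neg_mem' := by
        intro v hv s hs
        rw [map_neg, hv s hs, neg_zero] }
  have hUB : U0 ≤ B := fun v hv s hs => hs.2 v hv
  have hB0 : B ≠ ⊥ := fun h => hU0 (by rw [eq_bot_iff, ← h]; exact hUB)
  have hBR : Inv R B := by
    intro s hs v hv t ht
    change (t * s) v = 0
    apply hv
    refine ⟨R.mul_mem ht.1 hs, ?_⟩
    intro u hu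
    change t (s u) = 0
    exact ht.2 _ (hU0R s hs u hu)
  have hannB : ann R B = ann R U0 := by
    symm
    apply Set.eq_of_subset_of_ncard_le _ _ (Set.toFinite _)
    · intro s hs
      exact ⟨hs.1, fun v hv => hv s hs⟩
    · exact hmax' B hB0 hBR
  -- properties of the members of the orbit
  have o1 : ∀ i : MulAction.orbit H B, Inv R (i : AddSubgroup V) := by
    rintro ⟨_, h, rfl⟩
    exact hBR.smul hR h
  have o2 : ∀ i : MulAction.orbit H B, (ann R (i : AddSubgroup V)).ncard = (ann R U0).ncard := by
    rintro ⟨_, h, rfl⟩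
    change (ann R (h • B)).ncard = _
    rw [ann_ncard R hR, hannB]
  have o3 : ∀ i : MulAction.orbit H B, ∀ v : V, (∀ s ∈ ann R (i : AddSubgroup V), s v = 0) →
      v ∈ (i : AddSubgroup V) := by
    rintro ⟨_, h, rfl⟩ v hv
    change v ∈ h • B
    rw [AddSubgroup.mem_pointwise_smul_iff_inv_smul_mem]
    intro s hs
    have h1 := hv (cj h s) (ann_smul_sub R hR h B ⟨s, by rw [hannB]; exact hs, rfl⟩)
    rw [cj_apply] at h1
    exact (smul_eq_zero_iff_eq h).mp h1
  haveI : Fintype (MulAction.orbit H B) := Fintype.ofFinite _
  have hind : IndepOrbit H B := by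
    intro f hf h0
    rw [finsum_eq_sum_of_fintype] at h0
    -- strong induction on the support
    have main : ∀ (n : ℕ) (f : MulAction.orbit H B → V),
        (Finset.univ.filter (fun i => f i ≠ 0)).card = n →
        (∀ i : MulAction.orbit H B, f i ∈ (i : AddSubgroup V)) → ∑ i, f i = 0 → ∀ i, f i = 0 := by
      intro n
      induction n using Nat.strong_induction_on with
      | _ n ih =>
        intro f hn hf h0
        by_contra hcon
        push_neg at hcon
        obtain ⟨j, hj⟩ := hcon
        have step : ∀ i, f i ≠ 0 → ∀ s ∈ ann R (i : AddSubgroup V), ∀ k, s (f k) = 0 := by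
          intro i hi s hs
          apply ih _ _ (fun k => s (f k)) rfl (fun k => o1 k s hs.1 _ (hf k))
          · rw [← map_sum, h0, map_zero]
          · rw [← hn]
            apply Finset.card_lt_card
            rw [Finset.ssubset_iff_of_subset]
            · refine ⟨i, by simpa using hi, ?_⟩
              simp [hs.2 _ (hf i)]
            · intro k hk
              simp only [Finset.mem_filter, Finset.mem_univ, true_and] at hk ⊢
              intro hk0
              rw [hk0, map_zero] at hk
              exact hk rfl
        have allEq : ∀ i, f i ≠ 0 → i = j := by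
          intro i hi
          let W : AddSubgroup V := (i : AddSubgroup V) ⊓ (j : AddSubgroup V)
          have hfjW : f j ∈ W := ⟨o3 i _ (fun s hs => step i hi s hs j), hf j⟩
          have hW0 : W ≠ ⊥ := by
            intro h
            rw [h, AddSubgroup.mem_bot] at hfjW
            exact hj hfjW
          have hWR : Inv R W := fun s hs v hv => ⟨o1 i s hs v hv.1, o1 j s hs v hv.2⟩
          have hW1 := hmax' W hW0 hWR
          have e1 : ann R (i : AddSubgroup V) = ann R W := by
            apply Set.eq_of_subset_of_ncard_le _ _ (Set.toFinite _)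
            · intro s hs
              exact ⟨hs.1, fun v hv => hs.2 v hv.1⟩
            · rw [o2 i]; exact hW1
          have e2 : ann R (j : AddSubgroup V) = ann R W := by
            apply Set.eq_of_subset_of_ncard_le _ _ (Set.toFinite _)
            · intro s hs
              exact ⟨hs.1, fun v hv => hs.2 v hv.2⟩
            · rw [o2 j]; exact hW1
          apply Subtype.ext
          apply le_antisymm
          · intro v hv
            apply o3 j
            intro s hs
            rw [e2, ← e1] at hs
            exact hs.2 v hv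
          · intro v hv
            apply o3 i
            intro s hs
            rw [e1, ← e2] at hs
            exact hs.2 v hv
        apply hj
        rw [← h0]
        symm
        apply Finset.sum_eq_single j
        · intro i _ hij
          by_contra hi
          exact hij (allEq i hi)
        · intro h; exact absurd (Finset.mem_univ j) h
    exact main _ f rfl hf h0
  have hBtop := hP B hB0 hind
  have hann0 : ann R U0 = {0} := by
    rw [← hannB, hBtop]
    ext s
    simp only [Set.mem_singleton_iff]
    constructor
    · intro hs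
      ext v
      exact hs.2 v trivial
    · rintro rfl
      exact ⟨R.zero_mem, fun v _ => rfl⟩
  have h1 := hmax' U hU hUR
  rw [hann0, Set.ncard_singleton] at h1
  rw [Set.ncard_le_one (Set.toFinite _)] at h1
  exact h1 r ⟨hr, hrU⟩ 0 ⟨R.zero_mem, fun v _ => rfl⟩

end H60.KG
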