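import Pool.Agent.H60.KG.Blocks

/-!
Irreducible actions and block systems.
-/

namespace H60.KG

open MulAction
open scoped Pointwise

/-- Irreducible action on an abelian group. -/
def Irred (H V : Type*) [Group H] [AddCommGroup V] [DistribMulAction H V] : Prop :=
  Nontrivial V ∧ ∀ W : AddSubgroup V, (∀ (h : H), ∀ v ∈ W, h • v ∈ W) → W = ⊥ ∨ W = ⊤

section

variable {H V ι : Type*} [Group H] [AddCommGroup V] [DistribMulAction H V]
    [MulAction H ι] [Fintype ι] {U : ι → AddSubgroup V}

theorem BlockSys.comp_add (B : BlockSys H V ι U) (v w : V) (i : ι) :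
    B.comp (v + w) i = B.comp v i + B.comp w i := by
  have : B.comp (v + w) = fun i => B.comp v i + B.comp w i := by
    apply B.uniq (B.comp_mem _) (fun i => (U i).add_mem (B.comp_mem _ _) (B.comp_mem _ _))
    rw [B.comp_sum, Finset.sum_add_distrib, B.comp_sum, B.comp_sum]
  rw [this]

theorem BlockSys.comp_neg (B : BlockSys H V ι U) (v : V) (i : ι) :
    B.comp (-v) i = -B.comp v i := by
  have : B.comp (-v) = fun i => -B.comp v i := by
    apply B.uniq (B.comp_mem _) (fun i => (U i).neg_mem (B.comp_mem _ _))
    rw [B.comp_sum, Finset.sum_neg_distrib, B.comp_sum]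
  rw [this]

theorem BlockSys.comp_zero (B : BlockSys H V ι U) (i : ι) :
    B.comp 0 i = 0 := by
  have : B.comp 0 = fun i => 0 := by
    apply B.uniq (B.comp_mem _) (fun i => (U i).zero_mem)
    rw [B.comp_sum]; simp
  rw [this]

open Classical in
theorem BlockSys.comp_of_mem (B : BlockSys H V ι U) {v : V} {i : ι} (hv : v ∈ U i) (j : ι) :
    B.comp v j = if j = i then v else 0 := by
  have : B.comp v = fun j => if j = i then v else 0 := by
    apply B.uniq (B.comp_mem _)
    · intro k
      by_cases hk : k = i
      · subst hk; simpa using hv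
      · simp [hk, (U k).zero_mem]
    · rw [B.comp_sum]; simp
  rw [this]

theorem BlockSys.irred [Finite V] (B : BlockSys H V ι U) (hI : Irred H V) (i0 : ι) :
    letI := blockAct B i0
    Irred (MulAction.stabilizer H i0) (U i0) := by
  classical
  letI := blockAct B i0
  refine ⟨?_, ?_⟩
  · haveI := hI.1
    have h1 := B.card_eq i0
    have h2 : 1 < Nat.card V := Finite.one_lt_card_iff_nontrivial.mpr hI.1
    by_contra hn
    rw [← Finite.one_lt_card_iff_nontrivial, not_lt] at hn
    have h3 : Nat.card (U i0) = 1 := le_antisymm hn (Nat.card_pos)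
    rw [h3, one_pow] at h1
    omega
  · intro W hW
    -- the subgroup of `V`
    let V' : AddSubgroup V :=
      { carrier := {v | ∀ (j : ι) (g : H), g • i0 = j →
          g⁻¹ • B.comp v j ∈ W.map (U i0).subtype}
        add_mem' := by
          intro v w hv hw j g hg
          rw [B.comp_add, smul_add]
          exact AddSubgroup.add_mem _ (hv j g hg) (hw j g hg)
        zero_mem' := by
          intro j g hg
          rw [B.comp_zero, smul_zero]
          exact AddSubgroup.zero_mem _
        neg_mem' := by
          intro v hv j g hg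
          rw [B.comp_neg, smul_neg]
          exact AddSubgroup.neg_mem _ (hv j g hg) }
    have hV'inv : ∀ (h : H), ∀ v ∈ V', h • v ∈ V' := by
      intro h v hv j g hg
      have h1 : B.comp (h • v) j = h • B.comp v (h⁻¹ • j) := by
        have := B.comp_smul h v (h⁻¹ • j)
        rwa [smul_inv_smul] at this
      rw [h1]
      have h2 := hv (h⁻¹ • j) (h⁻¹ * g) (by rw [mul_smul, hg])
      rwa [mul_inv_rev, inv_inv, mul_smul] at h2
    rcases hI.2 V' hV'inv with h | h
    · left
      rw [eq_bot_iff]
      intro w hw
      have h1 : (w : V) ∈ V' := by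
        intro j g hg
        rw [B.comp_of_mem w.2]
        by_cases hj : j = i0
        · rw [if_pos hj]
          have hgs : g⁻¹ ∈ MulAction.stabilizer H i0 := by
            apply Subgroup.inv_mem
            rw [MulAction.mem_stabilizer_iff, hg, hj]
          exact ⟨_, hW ⟨g⁻¹, hgs⟩ w hw, rfl⟩
        · rw [if_neg hj, smul_zero]
          exact AddSubgroup.zero_mem _
      rw [h, AddSubgroup.mem_bot] at h1
      rw [AddSubgroup.mem_bot]
      exact Subtype.ext h1
    · right
      rw [eq_top_iff]
      intro u _
      have h1 : (u : V) ∈ V' := by rw [h]; trivial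
      have h2 := h1 i0 1 (one_smul _ _)
      rw [B.comp_of_mem u.2, if_pos rfl, inv_one, one_smul] at h2
      obtain ⟨w, hw, hwu⟩ := h2
      have : w = u := Subtype.ext hwu
      rwa [← this]

end

/-- A subgroup with independent orbit. -/
def IndepOrbit (H : Type*) {V : Type*} [Group H] [AddCommGroup V] [Finite V]
    [DistribMulAction H V] (U : AddSubgroup V) : Prop :=
  ∀ f : MulAction.orbit H U → V, (∀ i : MulAction.orbit H U, f i ∈ (i : AddSubgroup V)) → ∑ᶠ i, f i = 0 →
    ∀ i, f i = 0

theorem blockSys_of_indep {H V : Type*} [Group H] [AddCommGroup V] [Finite V]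
    [DistribMulAction H V] (hI : Irred H V) (U : AddSubgroup V) (hU : U ≠ ⊥)
    [Fintype (MulAction.orbit H U)] (hind : IndepOrbit H U) :
    BlockSys H V (MulAction.orbit H U) (fun i => (i : AddSubgroup V)) where
  equiv h i v hv := by
    change h • v ∈ h • (i : AddSubgroup V)
    exact AddSubgroup.smul_mem_pointwise_smul _ _ _ hv
  indep f hf h0 := hind f hf (by rw [finsum_eq_sum_of_fintype]; exact h0)
  span := by
    classical
    let W : AddSubgroup V :=
      { carrier := {v | ∃ f : MulAction.orbit H U → V,
          (∀ i : MulAction.orbit H U, f i ∈ (i : AddSubgroup V)) ∧ ∑ i, f i = v}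
        add_mem' := by
          rintro v w ⟨f, hf, rfl⟩ ⟨g, hg, rfl⟩
          exact ⟨fun i => f i + g i, fun i => AddSubgroup.add_mem _ (hf i) (hg i),
            Finset.sum_add_distrib⟩
        zero_mem' := ⟨fun _ => 0, fun i => AddSubgroup.zero_mem _, by simp⟩
        neg_mem' := by
          rintro v ⟨f, hf, rfl⟩
          exact ⟨fun i => -f i, fun i => AddSubgroup.neg_mem _ (hf i),
            Finset.sum_neg_distrib _⟩ }
    have hW : ∀ (h : H), ∀ v ∈ W, h • v ∈ W := by
      rintro h v ⟨f, hf, rfl⟩
      refine ⟨fun i => h • f (h⁻¹ • i), ?_, ?_⟩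
      · intro i
        have h1 := hf (h⁻¹ • i)
        have h2 := AddSubgroup.smul_mem_pointwise_smul _ h _ h1
        have h3 : h • ((h⁻¹ • i : MulAction.orbit H U) : AddSubgroup V) = i := by
          change h • (h⁻¹ • (i : AddSubgroup V)) = i
          rw [smul_inv_smul]
        rwa [h3] at h2
      · rw [Finset.smul_sum]
        exact Equiv.sum_comp (MulAction.toPerm h⁻¹ : Equiv.Perm (MulAction.orbit H U))
          (fun j => h • f j)
    rcases hI.2 W hW with h | h
    · exfalso
      apply hU
      rw [eq_bot_iff]
      intro u hu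
      have : u ∈ W := by
        refine ⟨fun i => if i = ⟨U, MulAction.mem_orbit_self U⟩ then u else 0, ?_, by simp⟩
        intro i
        by_cases hi : i = ⟨U, MulAction.mem_orbit_self U⟩
        · subst hi; simpa using hu
        · simp [hi]
      rwa [h] at this
    · intro v
      have : v ∈ W := by rw [h]; trivial
      exact this
  trans i j := MulAction.exists_smul_eq H i j

end H60.KG
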