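import Pool.Agent.H60.KG.Fld

/-!
Commuting nonabelian groups force the dimension to be exponential in their number.
-/

namespace H60.KG

theorem two_pow_le_finrank {K E ι : Type*} [Field K] [Ring E] [Algebra K E] [Module.Finite K E]
    [Nontrivial E] (L : ι → Set E) (t y z : ι → E) (ht : ∀ i, t i ∈ L i)
    (hy : ∀ i, y i ∈ L i) (hyz : ∀ i, y i * z i = 1)
    (hcomm : ∀ i j, i ≠ j → ∀ x ∈ L i, t j * x = x * t j)
    (hnd : ∀ i, ∀ Q : E, (∀ x ∈ L i, Q * x = x * Q) → Q * (t i - y i * t i * z i) = 0 → Q = 0)
    (J : Finset ι) : 2 ^ J.card ≤ Module.finrank K (Algebra.adjoin K (t '' (J : Set ι))) := by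
  classical
  induction J using Finset.induction_on with
  | empty =>
    simp only [Finset.card_empty, pow_zero]
    exact Module.finrank_pos
  | insert i J hi ih =>
    rw [Finset.card_insert_of_notMem hi, pow_succ]
    set M := Algebra.adjoin K (t '' (J : Set ι)) with hM
    set M' := Algebra.adjoin K (t '' ((insert i J : Finset ι) : Set ι)) with hM'
    have hMM' : M ≤ M' := Algebra.adjoin_mono (Set.image_mono (by simp))
    have hti : t i ∈ M' := Algebra.subset_adjoin ⟨i, by simp, rfl⟩
    have hMc : ∀ Q ∈ M, ∀ x ∈ L i, Q * x = x * Q := by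
      have : M ≤ Subalgebra.centralizer K (L i) := by
        apply Algebra.adjoin_le
        rintro _ ⟨j, hj, rfl⟩
        rw [SetLike.mem_coe, Subalgebra.mem_centralizer_iff]
        intro x hx
        exact (hcomm i j (fun h => hi (h ▸ hj)) x hx).symm
      intro Q hQ x hx
      exact ((Subalgebra.mem_centralizer_iff K).mp (this hQ) x hx).symm
    let φ : (M × M) →ₗ[K] M' :=
      { toFun := fun pq => ⟨(pq.1 : E) + (pq.2 : E) * t i,
          M'.add_mem (hMM' pq.1.2) (M'.mul_mem (hMM' pq.2.2) hti)⟩
        map_add' := by
          intro a b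
          apply Subtype.ext
          simp only [Prod.fst_add, Prod.snd_add, Subalgebra.coe_add, add_mul]
          abel
        map_smul' := by
          intro c a
          apply Subtype.ext
          simp [smul_add] }
    have hinj : Function.Injective φ := by
      rw [← LinearMap.ker_eq_bot, LinearMap.ker_eq_bot']
      rintro ⟨P, Q⟩ h0
      have h1 : (P : E) + (Q : E) * t i = 0 := congrArg Subtype.val h0
      have h2 : (P : E) + (Q : E) * (y i * t i * z i) = 0 := by
        have e1 := congrArg (fun w => y i * w * z i) h1
        simp only [mul_zero, zero_mul, mul_add, add_mul] at e1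
        have e2 : y i * (P : E) * z i = P := by
          rw [← hMc P P.2 (y i) (hy i), mul_assoc, hyz, mul_one]
        have e3 : y i * ((Q : E) * t i) * z i = (Q : E) * (y i * t i * z i) := by
          rw [← mul_assoc, ← hMc Q Q.2 (y i) (hy i)]
          simp only [mul_assoc]
        rw [e2, e3] at e1
        exact e1
      have h3 : (Q : E) * (t i - y i * t i * z i) = 0 := by
        rw [mul_sub]
        have := congrArg₂ (fun a b => a - b) h1 h2
        simp only [sub_self] at this
        rw [← this]
        abel
      have h4 : (Q : E) = 0 := hnd i Q (hMc Q Q.2) h3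
      have h5 : (P : E) = 0 := by rw [h4, zero_mul, add_zero] at h1; exact h1
      exact Prod.ext (Subtype.ext h5) (Subtype.ext h4)
    have h6 := LinearMap.finrank_le_finrank_of_injective hinj
    rw [Module.finrank_prod] at h6
    omega

universe u

theorem two_pow_le_log {H V : Type u} [Group H] [Finite H] [AddCommGroup V] [Finite V]
    [DistribMulAction H V] [FaithfulSMul H V] [Nontrivial V] (hPr : Prim H V)
    (A : Subgroup H) [A.Normal] (hA : ∀ a ∈ A, ∀ b ∈ A, a * b = b * a)
    (S : Subgroup H) [S.Normal] {ι : Type*} [Fintype ι] (L : ι → Subgroup H)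
    (hLC : ∀ i, L i ≤ Subgroup.centralizer (A : Set H)) (hLS : ∀ i, L i ≤ S)
    (hS : ∀ i, S ≤ L i ⊔ Subgroup.centralizer (L i : Set H))
    (hcomm : ∀ i j, i ≠ j → ∀ x ∈ L i, ∀ y ∈ L j, x * y = y * x)
    (hna : ∀ i, ∃ t ∈ L i, ∃ y ∈ L i, t * y ≠ y * t) :
    2 ^ Fintype.card ι ≤ (Nat.log 2 (Nat.card V)) ^ 2 := by
  classical
  obtain ⟨K, _, _, _, χ, σ, h1, h2, h3⟩ := exists_field (V := V) hPr A hA
  haveI : Module.Finite K V := Module.Finite.of_finite
  set b := Module.finrank K V with hb
  have hVK : Nat.card V = Nat.card K ^ b := Module.natCard_eq_pow_finrank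
  have hK2 : 2 ≤ Nat.card K := Finite.one_lt_card_iff_nontrivial.mpr inferInstance
  have hbL : b ≤ Nat.log 2 (Nat.card V) := by
    apply Nat.le_log_of_pow_le (by norm_num)
    rw [hVK]
    exact Nat.pow_le_pow_left hK2 _
  have hCK : ∀ x ∈ Subgroup.centralizer (A : Set H), ∀ (c : K) (v : V),
      x • (c • v) = c • (x • v) := by
    intro x hx c v
    apply h3 x _ c v
    intro a ha
    exact ((Subgroup.mem_centralizer_iff.mp hx) a ha).symm
  -- operators
  let T : (Subgroup.centralizer (A : Set H)) → Module.End K V := fun x =>
    { toFun := fun v => (x : H) • v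
      map_add' := fun v w => smul_add _ _ _
      map_smul' := fun k v => hCK x x.2 k v }
  have hT : ∀ x v, T x v = (x : H) • v := fun x v => rfl
  have hTm : ∀ x y, T x * T y = T (x * y) := by
    intro x y
    ext v
    change (x : H) • ((y : H) • v) = ((x * y : Subgroup.centralizer (A : Set H)) : H) • v
    rw [Subgroup.coe_mul, mul_smul]
  have hT1 : T 1 = 1 := by
    ext v
    change ((1 : Subgroup.centralizer (A : Set H)) : H) • v = v
    rw [Subgroup.coe_one, one_smul]
  choose t ht y hy hty using hna
  let tt : ι → Subgroup.centralizer (A : Set H) := fun i => ⟨t i, hLC i (ht i)⟩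
  let yy : ι → Subgroup.centralizer (A : Set H) := fun i => ⟨y i, hLC i (hy i)⟩
  let LL : ι → Set (Module.End K V) := fun i => {f | ∃ x : Subgroup.centralizer (A : Set H),
    (x : H) ∈ L i ∧ f = T x}
  have main := two_pow_le_finrank (K := K) LL (fun i => T (tt i)) (fun i => T (yy i))
    (fun i => T (yy i)⁻¹) (fun i => ⟨tt i, ht i, rfl⟩) (fun i => ⟨yy i, hy i, rfl⟩)
    (fun i => by rw [hTm, mul_inv_cancel, hT1]) (by
      rintro i j hij _ ⟨x, hx, rfl⟩
      rw [hTm, hTm]
      congr 1
      apply Subtype.ext
      exact hcomm j i hij.symm _ (ht j) _ hx) (by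
      intro i Q hQ h0
      by_contra hQ0
      -- the range of `Q`
      let u : H := y i * t i * (y i)⁻¹
      have huL : u ∈ L i := (L i).mul_mem ((L i).mul_mem (hy i) (ht i)) ((L i).inv_mem (hy i))
      have hu : T (yy i) * T (tt i) * T (yy i)⁻¹ = T (yy i * tt i * (yy i)⁻¹) := by
        rw [hTm, hTm]
      have h5 : ∀ v : V, t i • (Q v) = u • (Q v) := by
        intro v
        have e1 : Q (T (tt i) v) - Q (T (yy i * tt i * (yy i)⁻¹) v) = 0 := by
          have := LinearMap.congr_fun h0 v
          rw [hu] at this
          rw [← map_sub]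
          exact this
        have e2 := LinearMap.congr_fun (hQ (T (tt i)) ⟨tt i, ht i, rfl⟩) v
        have e3 := LinearMap.congr_fun (hQ (T (yy i * tt i * (yy i)⁻¹)) ⟨_, huL, rfl⟩) v
        change Q (T (tt i) v) = T (tt i) (Q v) at e2
        change Q (T (yy i * tt i * (yy i)⁻¹) v) = T (yy i * tt i * (yy i)⁻¹) (Q v) at e3
        rw [e2, e3] at e1
        exact sub_eq_zero.mp e1
      let W : AddSubgroup V :=
        { carrier := {v | ∀ x ∈ L i, t i • (x • v) = u • (x • v)}
          add_mem' := by
            intro v w hv hw x hx
            rw [smul_add, smul_add, smul_add, hv x hx, hw x hx]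
          zero_mem' := by intro x hx; simp
          neg_mem' := by
            intro v hv x hx
            rw [smul_neg, smul_neg, smul_neg, hv x hx] }
      have hQW : ∀ v, Q v ∈ W := by
        intro v x hx
        have e1 := LinearMap.congr_fun (hQ (T ⟨x, hLC i hx⟩) ⟨⟨x, hLC i hx⟩, hx, rfl⟩) v
        change Q (x • v) = x • Q v at e1
        rw [← e1]
        exact h5 _
      have hW0 : W ≠ ⊥ := by
        intro h
        apply hQ0
        ext v
        have := hQW v
        rw [h, AddSubgroup.mem_bot] at this
        exact this
      have hWS : ∀ n ∈ S, ∀ v ∈ W, n • v ∈ W := by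
        have : S ≤ { carrier := {n : H | ∀ v ∈ W, n • v ∈ W}
                     mul_mem' := fun {a b} ha hb v hv => by
                       rw [mul_smul]; exact ha _ (hb v hv)
                     one_mem' := fun v hv => by rw [one_smul]; exact hv
                     inv_mem' := fun {a} ha v hv => by
                       have hbij : Function.Injective (fun w : W => (⟨a • w.1, ha _ w.2⟩ : W)) := by
                         intro w w' hww
                         have := congrArg Subtype.val hww
                         exact Subtype.ext (smul_left_cancel a this)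
                       obtain ⟨w, hw⟩ := Finite.surjective_of_injective hbij ⟨v, hv⟩
                       have := congrArg Subtype.val hw
                       change a • w.1 = v at this
                       rw [← this, inv_smul_smul]
                       exact w.2 : Subgroup H } := by
          refine (hS i).trans ?_
          apply sup_le
          · intro x hx v hv x' hx'
            rw [← mul_smul x' x v]
            exact hv _ ((L i).mul_mem hx' hx)
          · intro c hc v hv x hx
            have hc' := Subgroup.mem_centralizer_iff.mp hc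
            rw [← mul_smul x c v, hc' x hx, mul_smul, ← mul_smul (t i), hc' _ (ht i), mul_smul,
              hv x hx, ← mul_smul, ← hc' _ huL, mul_smul]
        exact fun n hn v hv => this hn v hv
      have e := faith_of_prim hPr S hW0 hWS (hLS i (ht i)) (hLS i huL) (by
        intro v hv
        have := hv 1 (L i).one_mem
        rwa [one_smul] at this)
      apply hty i
      have e' : t i = y i * t i * (y i)⁻¹ := e
      rw [eq_mul_inv_iff_mul_eq] at e'
      exact e') Finset.univ
  haveI : Nontrivial (Module.End K V) := inferInstance
  rw [Finset.card_univ] at main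
  refine main.trans ?_
  have h6 : Module.finrank K (Algebra.adjoin K ((fun i => T (tt i)) '' ((Finset.univ : Finset ι) : Set ι)))
      ≤ Module.finrank K (Module.End K V) :=
    LinearMap.finrank_le_finrank_of_injective
      (f := (Algebra.adjoin K ((fun i => T (tt i)) '' ((Finset.univ : Finset ι) : Set ι))).val.toLinearMap)
      Subtype.val_injective
  refine h6.trans ?_
  rw [Module.finrank_linearMap, sq]
  exact Nat.mul_le_mul hbL hbL

end H60.KG
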