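import Pool.Agent.H60.KG.Comp
import Pool.Agent.H60.KG.TT

/-!
Bounding the part of a primitive linear group that centralizes the class-two part.
-/

namespace H60.KG

universe u

open QuotientGroup

theorem card_eq_card_map_mk {H : Type*} [Group H] [Finite H] (A P : Subgroup H) [A.Normal]
    (hAP : A ≤ P) : Nat.card P = Nat.card A * Nat.card (P.map (QuotientGroup.mk' A)) := by
  have e := Subgroup.card_mul_index ((QuotientGroup.mk' A).comp P.subtype).ker
  rw [Subgroup.index_ker, MonoidHom.range_comp, Subgroup.range_subtype] at e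
  rw [← e]
  congr 1
  apply Nat.card_congr
  refine
    { toFun := fun x => ⟨x.1.1, ?_⟩
      invFun := fun a => ⟨⟨a.1, hAP a.2⟩, ?_⟩
      left_inv := fun x => rfl
      right_inv := fun a => rfl }
  · exact (QuotientGroup.eq_one_iff _).mp x.2
  · exact (QuotientGroup.eq_one_iff _).mpr a.2

theorem simp_perfect {G : Type*} [Group G] {T : Subgroup G} (hs : Simp T) (hc : CF T)
    (h0 : T ≠ ⊥) : ⁅T, T⁆ = T := by
  have h1 : ⁅T, T⁆ ≤ T := by
    rw [Subgroup.commutator_le]
    intro x hx y hy
    exact T.mul_mem (T.mul_mem (T.mul_mem hx hy) (T.inv_mem hx)) (T.inv_mem hy)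
  rcases hs _ h1 (by
    intro t ht y hy
    have h2 := Subgroup.commutator_mem_commutator ht (h1 hy)
    have h3 := (⁅T, T⁆).mul_mem h2 hy
    rwa [commutatorElement_def, show t * y * t⁻¹ * y⁻¹ * y = t * y * t⁻¹ by group] at h3)
    with h | h
  · exfalso
    apply h0
    rw [eq_bot_iff]
    intro x hx
    rw [Subgroup.mem_bot]
    apply hc x hx
    intro y hy
    have h2 := Subgroup.commutator_mem_commutator hx hy
    rw [h, Subgroup.mem_bot, commutatorElement_eq_one_iff_mul_comm] at h2
    exact h2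
  · exact h

theorem card_D_le {H V : Type u} [Group H] [Finite H] [AddCommGroup V] [Finite V]
    [DistribMulAction H V] [FaithfulSMul H V] [Nontrivial V] (hPr : Prim H V)
    (A D : Subgroup H) [A.Normal] [D.Normal] (hA : ∀ a ∈ A, ∀ b ∈ A, a * b = b * a)
    (hAD : A ≤ D) (hDC : D ≤ Subgroup.centralizer (A : Set H))
    (hnab : ∀ E : Subgroup H, E.Normal → A ≤ E → E ≤ D →
      (∀ x ∈ E, ∀ y ∈ E, x * y * x⁻¹ * y⁻¹ ∈ A) → E ≤ A) {a : ℕ}
    (ha : ∀ T : Subgroup (H ⧸ A), T ≠ ⊥ → Simp T → CF T → Nat.card (MulAut T) ≤ a) :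
    ∃ l : ℕ, 2 ^ l ≤ (Nat.log 2 (Nat.card V)) ^ 2 ∧
      Nat.card D ≤ Nat.card A * (l * a) ^ l := by
  classical
  set mk := QuotientGroup.mk' A with hmk
  have hmks : Function.Surjective mk := QuotientGroup.mk'_surjective A
  have hmk1 : ∀ x : H, mk x = 1 ↔ x ∈ A := fun x => QuotientGroup.eq_one_iff x
  set Db : Subgroup (H ⧸ A) := D.map mk with hDb
  haveI : Db.Normal := Subgroup.Normal.map inferInstance _ hmks
  obtain ⟨𝒯, hg, hcent⟩ := exists_components Db (by
    intro E hE hED hEab
    have h1 := hnab (E.comap mk) (Subgroup.Normal.comap hE mk) (by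
        intro a ha
        rw [Subgroup.mem_comap, (hmk1 a).mpr ha]
        exact E.one_mem) (by
        intro x hx
        obtain ⟨d, hd, hdx⟩ := hED hx
        have h2 : d⁻¹ * x ∈ A := by
          rw [← hmk1, map_mul, map_inv, hdx, inv_mul_cancel]
        have h3 := D.mul_mem hd (hAD h2)
        rwa [mul_inv_cancel_left] at h3) (by
        intro x hx y hy
        rw [← hmk1]
        simp only [map_mul, map_inv]
        rw [hEab _ hx _ hy]
        group)
    rw [eq_bot_iff]
    intro e he
    obtain ⟨x, rfl⟩ := hmks e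
    rw [Subgroup.mem_bot, hmk1]
    exact h1 he)
  set S : Subgroup (H ⧸ A) := ⨆ T ∈ 𝒯, T with hS
  haveI : S.Normal := hg.sup_normal
  refine ⟨𝒯.card, ?_, ?_⟩
  · -- the commuting subgroups
    have hle : ∀ T ∈ 𝒯, T.comap mk ≤ D := by
      intro T hT x hx
      obtain ⟨d, hd, hdx⟩ := hg.le T hT hx
      have h2 : d⁻¹ * x ∈ A := by
        rw [← hmk1, map_mul, map_inv, hdx, inv_mul_cancel]
      have h3 := D.mul_mem hd (hAD h2)
      rwa [mul_inv_cancel_left] at h3
    have hcA : ∀ a ∈ A, ∀ d ∈ D, a * d = d * a :=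
      fun a ha d hd => (Subgroup.mem_centralizer_iff.mp (hDC hd)) a ha
    let L : {T // T ∈ 𝒯} → Subgroup H := fun T => ⁅T.1.comap mk, T.1.comap mk⁆
    have hLT : ∀ T, L T ≤ T.1.comap mk := by
      intro T
      rw [Subgroup.commutator_le]
      intro x hx y hy
      exact Subgroup.mul_mem _ (Subgroup.mul_mem _ (Subgroup.mul_mem _ hx hy)
        (Subgroup.inv_mem _ hx)) (Subgroup.inv_mem _ hy)
    have hLD : ∀ T, L T ≤ D := fun T => (hLT T).trans (hle T.1 T.2)
    have hmap : ∀ T, (L T).map mk = T.1 := by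
      intro T
      change (⁅T.1.comap mk, T.1.comap mk⁆).map mk = T.1
      rw [Subgroup.map_commutator, Subgroup.map_comap_eq_self_of_surjective hmks]
      exact simp_perfect (hg.simp _ T.2) (hg.cf _ T.2) (hg.ne _ T.2)
    have hcross : ∀ T T' : {T // T ∈ 𝒯}, T ≠ T' → ∀ x ∈ L T, ∀ z ∈ T'.1.comap mk,
        x * z = z * x := by
      intro T T' hne x hx z hz
      have h1 : L T ≤ Subgroup.centralizer ({z} : Set H) := by
        rw [Subgroup.commutator_le]
        intro x hx y hy
        rw [Subgroup.mem_centralizer_singleton_iff]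
        have hxz : z * x * z⁻¹ * x⁻¹ ∈ A := by
          rw [← hmk1]
          simp only [map_mul, map_inv]
          rw [← hg.comm T.1 T.2 T'.1 T'.2 (fun h => hne (Subtype.ext h)) _ hx _ hz]
          group
        have hyz : z * y * z⁻¹ * y⁻¹ ∈ A := by
          rw [← hmk1]
          simp only [map_mul, map_inv]
          rw [← hg.comm T.1 T.2 T'.1 T'.2 (fun h => hne (Subtype.ext h)) _ hy _ hz]
          group
        set a := z * x * z⁻¹ * x⁻¹ with ha
        set a' := z * y * z⁻¹ * y⁻¹ with ha'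
        have hxD : x ∈ D := hle T.1 T.2 hx
        have hyD : y ∈ D := hle T.1 T.2 hy
        have e1 : z * x * z⁻¹ = a * x := by rw [ha]; group
        have e2 : z * y * z⁻¹ = a' * y := by rw [ha']; group
        rw [commutatorElement_def]
        have e3 : z * (x * y * x⁻¹ * y⁻¹) * z⁻¹ =
            (z * x * z⁻¹) * (z * y * z⁻¹) * (z * x * z⁻¹)⁻¹ * (z * y * z⁻¹)⁻¹ := by group
        have e4 : (a * x) * (a' * y) * (a * x)⁻¹ * (a' * y)⁻¹ = x * y * x⁻¹ * y⁻¹ := by
          have c1 := hcA a hxz x hxD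
          have c2 := hcA a hxz y hyD
          have c3 := hcA a' hyz x hxD
          have c4 := hcA a' hyz y hyD
          have c5 := hcA a hxz a' (hAD hyz)
          have c6 : a' * x⁻¹ = x⁻¹ * a' := hcA a' hyz _ (D.inv_mem hxD)
          calc (a * x) * (a' * y) * (a * x)⁻¹ * (a' * y)⁻¹
              = a * (x * a') * y * x⁻¹ * a⁻¹ * y⁻¹ * a'⁻¹ := by group
            _ = a * (a' * x) * y * x⁻¹ * a⁻¹ * y⁻¹ * a'⁻¹ := by rw [c3]
            _ = a' * a * x * y * x⁻¹ * a⁻¹ * y⁻¹ * a'⁻¹ := by rw [← mul_assoc a a' x, c5]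
            _ = a' * (a * (x * y * x⁻¹)) * a⁻¹ * y⁻¹ * a'⁻¹ := by group
            _ = a' * ((x * y * x⁻¹) * a) * a⁻¹ * y⁻¹ * a'⁻¹ := by
                rw [hcA a hxz (x * y * x⁻¹) (D.mul_mem (D.mul_mem hxD hyD) (D.inv_mem hxD))]
            _ = a' * (x * y * x⁻¹ * y⁻¹) * a'⁻¹ := by group
            _ = (x * y * x⁻¹ * y⁻¹) * a' * a'⁻¹ := by
                rw [hcA a' hyz _ (D.mul_mem (D.mul_mem (D.mul_mem hxD hyD) (D.inv_mem hxD))
                  (D.inv_mem hyD))]
            _ = x * y * x⁻¹ * y⁻¹ := by group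
        rw [e1, e2, e4] at e3
        calc x * y * x⁻¹ * y⁻¹ * z = z * (x * y * x⁻¹ * y⁻¹) * z⁻¹ * z := by rw [e3]
          _ = z * (x * y * x⁻¹ * y⁻¹) := by group
      exact Subgroup.mem_centralizer_singleton_iff.mp (h1 hx)
    have hmain := two_pow_le_log hPr A hA (S.comap mk) L (fun T => (hLD T).trans hDC) (by
      intro T x hx
      have h1 : mk x ∈ T.1 := hLT T hx
      have h2 : T.1 ≤ S := le_iSup₂_of_le T.1 T.2 le_rfl
      exact h2 h1) (by
      intro T
      have hA' : A ≤ L T ⊔ Subgroup.centralizer (L T : Set H) := by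
        refine le_trans ?_ le_sup_right
        intro a ha
        rw [Subgroup.mem_centralizer_iff]
        intro x hx
        exact (hcA a ha x (hLD T hx)).symm
      have hS' : S ≤ (L T ⊔ Subgroup.centralizer (L T : Set H)).map mk := by
        apply iSup₂_le
        intro T' hT'
        by_cases h : T' = T.1
        · subst h
          rw [← hmap T]
          exact Subgroup.map_mono le_sup_left
        · have h1 : T'.comap mk ≤ L T ⊔ Subgroup.centralizer (L T : Set H) := by
            refine le_trans ?_ le_sup_right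
            intro z hz
            rw [Subgroup.mem_centralizer_iff]
            intro x hx
            exact hcross T ⟨T', hT'⟩ (fun h' => h (by rw [h'])) x hx z hz
          have h2 := Subgroup.map_mono (f := mk) h1
          rwa [Subgroup.map_comap_eq_self_of_surjective hmks] at h2
      intro s hs
      obtain ⟨s', hs', hss⟩ := hS' hs
      have h2 : s'⁻¹ * s ∈ A := by
        rw [← hmk1, map_mul, map_inv, hss, inv_mul_cancel]
      have h3 := Subgroup.mul_mem _ hs' (hA' h2)
      rwa [mul_inv_cancel_left] at h3) (by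
      intro T T' hne x hx y hy
      exact hcross T T' hne x hx y (hLT T' hy)) (by
      intro T
      by_contra hcon
      push_neg at hcon
      apply hg.ne T.1 T.2
      rw [eq_bot_iff]
      intro x hx
      rw [Subgroup.mem_bot]
      apply hg.cf T.1 T.2 x hx
      intro y hy
      rw [← hmap T] at hx hy
      obtain ⟨x', hx', rfl⟩ := hx
      obtain ⟨y', hy', rfl⟩ := hy
      rw [← map_mul, ← map_mul, hcon x' hx' y' hy'])
    rw [Fintype.card_coe] at hmain
    exact hmain
  · rw [card_eq_card_map_mk A D hAD]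
    apply Nat.mul_le_mul_left
    exact card_le_of_components hg hcent
      (fun T hT => ha T (hg.ne T hT) (hg.simp T hT) (hg.cf T hT))

end H60.KG
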