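import Mathlib

/-!
Operators with distinct commutator characters are linearly independent.
-/

namespace H60.KG

theorem card_le_of_scalar_comm {K V H : Type*} [Field K] [AddCommGroup V] [Finite V]
    [Nontrivial V] [Module K V] [Group H] [Finite H] [DistribMulAction H V] [FaithfulSMul H V]
    (X P : Subgroup H)
    (hX : ∀ x ∈ X, ∀ (c : K) (v : V), x • (c • v) = c • (x • v))
    (hP : ∀ x ∈ P, ∀ (c : K) (v : V), x • (c • v) = c • (x • v))
    (hXP : ∀ g ∈ P, ∀ x ∈ X, ∃ c : K, ∀ v : V, (g * x * g⁻¹ * x⁻¹) • v = c • v) :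
    Nat.card X ≤ Nat.card (X ⊓ Subgroup.centralizer (P : Set H) : Subgroup H) *
      (Module.finrank K V) ^ 2 := by
  classical
  haveI : Module.Finite K V := Module.Finite.of_finite
  obtain ⟨v0, hv0⟩ := exists_ne (0 : V)
  choose c hc using hXP
  -- the character of `x`
  let F : X → (P →* K) := fun x =>
    { toFun := fun g => c g g.2 x x.2
      map_one' := by
        have h1 := hc (1 : P) (1 : P).2 x x.2 v0
        have h2 : (((1 : P) : H) * (x : H) * ((1 : P) : H)⁻¹ * (x : H)⁻¹) = 1 := by simp
        rw [h2, one_smul] at h1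
        have h3 : (1 - c (1 : P) (1 : P).2 x x.2) • v0 = 0 := by
          rw [sub_smul, one_smul, ← h1, sub_self]
        rcases smul_eq_zero.mp h3 with h | h
        · exact (sub_eq_zero.mp h).symm
        · exact absurd h hv0
      map_mul' := by
        intro g g'
        have h1 := hc (g * g' : P) (g * g' : P).2 x x.2 v0
        have h2 : (((g * g' : P) : H) * (x : H) * ((g * g' : P) : H)⁻¹ * (x : H)⁻¹) =
          (g : H) * (((g' : H) * (x : H) * (g' : H)⁻¹ * (x : H)⁻¹) * ((g : H)⁻¹ *
            ((g : H) * (x : H) * (g : H)⁻¹ * (x : H)⁻¹))) := by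
          simp only [Subgroup.coe_mul]
          group
        have h4 : (((g * g' : P) : H) * (x : H) * ((g * g' : P) : H)⁻¹ * (x : H)⁻¹) • v0 =
            (c g g.2 x x.2 * c g' g'.2 x x.2) • v0 := by
          rw [h2, mul_smul, mul_smul, hc g' g'.2 x x.2, hP g g.2, mul_smul, smul_inv_smul,
            hc g g.2 x x.2, smul_smul, mul_comm]
        rw [h4] at h1
        have h3 : ((c g g.2 x x.2 * c g' g'.2 x x.2) -
            c (g * g' : P) (g * g' : P).2 x x.2) • v0 = 0 := by
          rw [sub_smul, h1, sub_self]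
        rcases smul_eq_zero.mp h3 with h | h
        · exact (sub_eq_zero.mp h).symm
        · exact absurd h hv0 }
  have hF : ∀ (x : X) (g : P) (v : V),
      ((g : H) * (x : H) * (g : H)⁻¹ * (x : H)⁻¹) • v = F x g • v :=
    fun x g v => hc g g.2 x x.2 v
  have hfib : ∀ x y : X, F x = F y → (y : H)⁻¹ * x ∈ Subgroup.centralizer (P : Set H) := by
    intro x y hxy
    rw [Subgroup.mem_centralizer_iff]
    intro g hg
    have h1 : (g : H)⁻¹ * (x : H) * (g : H) * (x : H)⁻¹ =
        (g : H)⁻¹ * (y : H) * (g : H) * (y : H)⁻¹ := by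
      apply FaithfulSMul.eq_of_smul_eq_smul (α := V)
      intro v
      have e1 := hF x ⟨g⁻¹, P.inv_mem hg⟩ v
      have e2 := hF y ⟨g⁻¹, P.inv_mem hg⟩ v
      rw [hxy, ← e2] at e1
      simpa using e1
    have h2 : (x : H) * g * (x : H)⁻¹ = (y : H) * g * (y : H)⁻¹ := by
      have := congrArg (fun z => g * z) h1
      simp only [mul_assoc, mul_inv_cancel_left] at this
      simpa [mul_assoc] using this
    calc g * ((y : H)⁻¹ * x) = (y : H)⁻¹ * ((y : H) * g * (y : H)⁻¹) * x := by group
      _ = (y : H)⁻¹ * ((x : H) * g * (x : H)⁻¹) * x := by rw [h2]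
      _ = (y : H)⁻¹ * x * g := by group
  -- representatives
  let R := Set.range F
  haveI : Finite R := Set.finite_range F
  haveI : Fintype R := Fintype.ofFinite R
  choose rep hrep using fun χ : R => χ.2
  have hcount : Nat.card X ≤ Nat.card (R × (X ⊓ Subgroup.centralizer (P : Set H) : Subgroup H)) := by
    apply Nat.card_le_card_of_injective (fun x : X =>
      ((⟨F x, x, rfl⟩ : R), (⟨((rep ⟨F x, x, rfl⟩ : X) : H)⁻¹ * x, X.mul_mem (X.inv_mem
        (rep ⟨F x, x, rfl⟩).2) x.2, hfib _ _ (hrep ⟨F x, x, rfl⟩).symm⟩ :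
        (X ⊓ Subgroup.centralizer (P : Set H) : Subgroup H))))
    intro x y hxy
    rw [Prod.mk.injEq] at hxy
    obtain ⟨h1, h2⟩ := hxy
    have h3 : F x = F y := congrArg Subtype.val h1
    have h4 := congrArg (fun z : (X ⊓ Subgroup.centralizer (P : Set H) : Subgroup H) => (z : H)) h2
    simp only [h3] at h4
    exact Subtype.ext (mul_left_cancel h4)
  rw [Nat.card_prod, mul_comm] at hcount
  refine hcount.trans (Nat.mul_le_mul_left _ ?_)
  -- linear independence
  let T : R → (V →ₗ[K] V) := fun χ =>
    { toFun := fun v => ((rep χ : X) : H) • v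
      map_add' := fun v w => smul_add _ _ _
      map_smul' := fun k v => hX _ (rep χ).2 k v }
  have hT : LinearIndependent K T := by
    rw [Fintype.linearIndependent_iff]
    intro a ha χ0
    have h1 : ∀ (g : P) (v : V), ∑ χ : R, ((χ : P →* K) g) • (a χ • (((rep χ : X) : H) • v)) = 0 := by
      intro g v
      have h2 := LinearMap.congr_fun ha ((g : H)⁻¹ • v)
      simp only [LinearMap.sum_apply, LinearMap.smul_apply, LinearMap.zero_apply] at h2
      have h3 := congrArg (fun w => (g : H) • w) h2
      simp only [smul_zero, Finset.smul_sum] at h3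
      rw [← h3]
      apply Finset.sum_congr rfl
      intro χ _
      have h4 := hF (rep χ) g ((((rep χ : X) : H)) • v)
      rw [hrep χ] at h4
      rw [smul_comm, ← h4, ← mul_smul]
      change a χ • _ = (g : H) • (a χ • (((rep χ : X) : H) • ((g : H)⁻¹ • v)))
      rw [hP g g.2, ← mul_smul, ← mul_smul]
      congr 2
      group
    have h2 : ∀ v : V, a χ0 • (((rep χ0 : X) : H) • v) = 0 := by
      intro v
      rw [← Module.forall_dual_apply_eq_zero_iff K]
      intro φ
      have hli := (linearIndependent_monoidHom P K).comp (fun χ : R => (χ : P →* K))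
        Subtype.val_injective
      rw [Fintype.linearIndependent_iff] at hli
      apply hli (fun χ => φ (a χ • (((rep χ : X) : H) • v))) _ χ0
      funext g
      have h3 := congrArg φ (h1 g v)
      rw [map_sum, map_zero] at h3
      rw [Finset.sum_apply]
      simp only [Function.comp, Pi.smul_apply, smul_eq_mul, Pi.zero_apply]
      rw [← h3]
      apply Finset.sum_congr rfl
      intro χ _
      simp only [map_smul, smul_eq_mul]
      ring
    rcases smul_eq_zero.mp (h2 v0) with h | h
    · exact h
    · exact absurd ((smul_eq_zero_iff_eq _).mp h) hv0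
  have h5 := hT.fintype_card_le_finrank
  rw [Module.finrank_linearMap] at h5
  rw [Nat.card_eq_fintype_card, sq]
  exact h5

end H60.KG
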