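import Pool.Agent.H60.KG.Orb

/-!
The number of conjugacy classes: induction over a chief series.
-/

namespace H60.KG

open MulAction
open scoped Pointwise

universe u

/-- number of conjugacy classes of `G` meeting `N` -/
noncomputable def clsIn {G : Type*} [Group G] (N : Subgroup G) : ℕ :=
  Nat.card {c : ConjClasses G // ∃ x ∈ N, ConjClasses.mk x = c}

theorem card_conj_ge {G : Type*} [Group G] [Finite G] (N : Subgroup G) [hN : N.Normal] :
    Nat.card (ConjClasses (G ⧸ N)) + clsIn N ≤ Nat.card (ConjClasses G) + 1 := by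
  classical
  haveI : Finite (ConjClasses G) := Quotient.finite _
  haveI : Finite (ConjClasses (G ⧸ N)) := Quotient.finite _
  let π : ConjClasses G → ConjClasses (G ⧸ N) := ConjClasses.map (QuotientGroup.mk' N)
  have hπ : Function.Surjective π := ConjClasses.map_surjective (QuotientGroup.mk'_surjective N)
  let S : Set (ConjClasses G) := {c | ∃ x ∈ N, ConjClasses.mk x = c}
  have hS : clsIn N = S.ncard := rfl
  have h1 : S.ncard + Sᶜ.ncard = Nat.card (ConjClasses G) := Set.ncard_add_ncard_compl S
  have h2 : ({ConjClasses.mk (1 : G ⧸ N)}ᶜ : Set (ConjClasses (G ⧸ N))) ⊆ π '' Sᶜ := by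
    intro c' hc'
    obtain ⟨c, rfl⟩ := hπ c'
    refine ⟨c, ?_, rfl⟩
    rintro ⟨x, hx, rfl⟩
    apply hc'
    change ConjClasses.mk (QuotientGroup.mk' N x) = ConjClasses.mk 1
    have : QuotientGroup.mk' N x = 1 := (QuotientGroup.eq_one_iff x).mpr hx
    rw [this]
  have h3 := Set.ncard_le_ncard h2 (Set.toFinite _)
  have h4 := Set.ncard_image_le (f := π) (Set.toFinite Sᶜ)
  have h5 := Set.ncard_compl ({ConjClasses.mk (1 : G ⧸ N)} : Set (ConjClasses (G ⧸ N)))
  rw [Set.ncard_singleton] at h5
  rw [hS]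
  omega

/-- conjugation action on an abelian normal subgroup -/
noncomputable abbrev conjAct {G : Type u} [Group G] (N : Subgroup G) [N.Normal]
    [inst : AddCommGroup (Additive N)] (h : ∀ a b : Additive N, a + b =
      Additive.ofMul (a.toMul * b.toMul)) : DistribMulAction G (Additive N) where
  smul g v := Additive.ofMul (MulAut.conjNormal g v.toMul)
  one_smul v := by
    change Additive.ofMul (MulAut.conjNormal (1 : G) v.toMul) = v
    rw [map_one]; rfl
  mul_smul g h v := by
    change Additive.ofMul (MulAut.conjNormal (g * h) v.toMul) =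
      Additive.ofMul (MulAut.conjNormal g (MulAut.conjNormal h v.toMul))
    rw [map_mul]; rfl
  smul_add g v w := by
    change Additive.ofMul (MulAut.conjNormal g (v + w).toMul) =
      Additive.ofMul (MulAut.conjNormal g v.toMul) + Additive.ofMul (MulAut.conjNormal g w.toMul)
    rw [h, h]
    change Additive.ofMul (MulAut.conjNormal g (v.toMul * w.toMul)) = _
    rw [map_mul]; rfl
  smul_zero g := by
    have hz : (0 : Additive N) = Additive.ofMul 1 := by
      have h0 := h 0 0
      rw [add_zero] at h0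
      have h1 : (0 : Additive N).toMul = (0 : Additive N).toMul * (0 : Additive N).toMul :=
        congrArg Additive.toMul h0
      have h2 : (0 : Additive N).toMul = 1 := by
        exact (mul_eq_left.mp h1.symm)
      exact congrArg Additive.ofMul h2
    change Additive.ofMul (MulAut.conjNormal g (0 : Additive N).toMul) = 0
    rw [hz]
    change Additive.ofMul (MulAut.conjNormal g 1) = _
    rw [map_one]

/-- Admissibility of `M` for a group. -/
def GAdm (N0 M : ℕ) (G : Type*) [Group G] : Prop :=
  (OrdHyp N0 M G ∧ ∀ p : ℕ, p.Prime → p ∣ Nat.card G → p ∣ N0) ∨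
    (Nat.card (ConjClasses G)) ^ 8 ≤ M

/-- abelian minimal normal subgroups -/
theorem abel_case {s M N0 : ℕ}
    {G : Type u} [Group G] [Finite G] (hsf : SecAut s G) (hadm : GAdm N0 M G)
    (N : Subgroup G) [hN : N.Normal] (hN0 : N ≠ ⊥)
    (hmin : ∀ M : Subgroup G, M.Normal → M ≤ N → M = ⊥ ∨ M = N)
    (hab : ∀ x ∈ N, ∀ y ∈ N, x * y = y * x) : Nat.card N ≤ (cst s + M) ^ (clsIn N - 1) := by
  classical
  letI c1 : CommGroup N := { (inferInstance : Group N) with
    mul_comm := fun a b => Subtype.ext (hab a a.2 b b.2) }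
  letI c2 : AddCommGroup (Additive N) := Additive.addCommGroup
  letI c3 : DistribMulAction G (Additive N) := conjAct N (fun a b => rfl)
  have hsm : ∀ (g : G) (v : Additive N), ((g • v).toMul : G) = g * (v.toMul : G) * g⁻¹ :=
    fun g v => rfl
  haveI : Finite (Additive N) := inferInstanceAs (Finite N)
  have hcard : Nat.card (Additive N) = Nat.card N := rfl
  have hI : Irred G (Additive N) := by
    refine ⟨?_, ?_⟩
    · obtain ⟨x, hx⟩ := Subgroup.ne_bot_iff_exists_ne_one.mp hN0
      exact ⟨Additive.ofMul x, 0, fun h => hx (congrArg Additive.toMul h)⟩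
    · intro W hW
      let Y : Subgroup G :=
        { carrier := {x | ∃ hx : x ∈ N, Additive.ofMul (⟨x, hx⟩ : N) ∈ W}
          mul_mem' := by
            rintro a b ⟨ha, ha'⟩ ⟨hb, hb'⟩
            exact ⟨N.mul_mem ha hb, W.add_mem ha' hb'⟩
          one_mem' := ⟨N.one_mem, W.zero_mem⟩
          inv_mem' := by
            rintro a ⟨ha, ha'⟩
            exact ⟨N.inv_mem ha, W.neg_mem ha'⟩ }
      have hYn : Y.Normal := by
        constructor
        rintro x ⟨hx, hx'⟩ g
        exact ⟨hN.conj_mem x hx g, hW g _ hx'⟩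
      rcases hmin Y hYn (fun x hx => hx.1) with h | h
      · left
        rw [eq_bot_iff]
        intro v hv
        have h1 : (v.toMul : G) ∈ Y := ⟨v.toMul.2, hv⟩
        rw [h, Subgroup.mem_bot] at h1
        rw [AddSubgroup.mem_bot]
        have h2 : v.toMul = (1 : N) := Subtype.ext h1
        exact congrArg Additive.ofMul h2
      · right
        rw [eq_top_iff]
        intro v _
        have h1 : (v.toMul : G) ∈ Y := by rw [h]; exact v.toMul.2
        obtain ⟨_, h2⟩ := h1
        exact h2
  haveI : Finite (ConjClasses G) := Quotient.finite _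
  -- orbits inject into classes
  have horb : orb G (Additive N) ≤ clsIn N := by
    apply Nat.card_le_card_of_injective (fun q : MulAction.orbitRel.Quotient G (Additive N) =>
      (⟨ConjClasses.mk ((Quotient.out q).toMul : G), _, (Quotient.out q).toMul.2, rfl⟩ :
        {c : ConjClasses G // ∃ x ∈ N, ConjClasses.mk x = c}))
    intro q q' hqq
    have h2 : ConjClasses.mk ((Quotient.out q).toMul : G) =
      ConjClasses.mk ((Quotient.out q').toMul : G) := congrArg Subtype.val hqq
    rw [ConjClasses.mk_eq_mk_iff_isConj, isConj_iff] at h2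
    obtain ⟨g, hg⟩ := h2
    rw [← Quotient.out_eq q, ← Quotient.out_eq q']
    apply Quotient.sound
    change (MulAction.orbitRel G (Additive N)).r _ _
    refine MulAction.mem_orbit_symm.mp ⟨g, ?_⟩
    have h3 : (g • Quotient.out q).toMul = (Quotient.out q').toMul := Subtype.ext hg
    exact congrArg Additive.ofMul h3
  have hcls : clsIn N ≤ Nat.card (ConjClasses G) :=
    Nat.card_le_card_of_injective _ Subtype.val_injective
  have hadm' : Adm N0 M G (Additive N) := by
    rcases hadm with ⟨hord, hdiv⟩ | hcl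
    · left
      refine ⟨hord, ?_⟩
      intro p hp hpN
      apply hdiv p hp
      exact hpN.trans (Subgroup.card_subgroup_dvd_card N)
    · right
      refine le_trans ?_ hcl
      calc (Nat.card (ConjClasses G) * (orb G (Additive N) - 1)) ^ 4
          ≤ (Nat.card (ConjClasses G) * Nat.card (ConjClasses G)) ^ 4 :=
            Nat.pow_le_pow_left (Nat.mul_le_mul_left _ (by omega)) 4
        _ = (Nat.card (ConjClasses G)) ^ 8 := by ring
  have h1 := orbit_bound s M N0 _ (Additive N) G rfl hI hsf hadm'
  rw [hcard] at h1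
  refine h1.trans (Nat.pow_le_pow_right ?_ (Nat.sub_le_sub_right horb 1))
  have : 0 < cst s := by unfold cst; positivity
  omega

/-- nonabelian minimal normal subgroups -/
theorem nonab_case {s : ℕ} {G : Type u} [Group G] [Finite G] (hsf : SecAut s G)
    (N : Subgroup G) [hN : N.Normal] (hN0 : N ≠ ⊥)
    (hmin : ∀ M : Subgroup G, M.Normal → M ≤ N → M = ⊥ ∨ M = N)
    (hna : ¬ ∀ x ∈ N, ∀ y ∈ N, x * y = y * x) :
    Nat.card N ≤ (2 ^ s) ^ (clsIn N - 1) := by
  classical
  haveI : Fintype (Subgroup G) := Fintype.ofFinite _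
  obtain ⟨T, hTN, hT0, hTs, hTc, hTd, hTsup⟩ := core N hN0 hmin hna
  let 𝒯 : Finset (Subgroup G) := Finset.univ.filter (fun S => ∃ g : G, S = cjs g T)
  have hmem : ∀ S : Subgroup G, S ∈ 𝒯 ↔ ∃ g : G, S = cjs g T := by
    intro S
    simp [𝒯]
  have hcN : ∀ g : G, cjs g T ≤ N := by
    intro g
    rw [← hTsup]
    exact le_iSup (fun g => cjs g T) g
  have hcc : ∀ g g' : G, cjs g T ≠ cjs g' T → Cm (cjs g T) (cjs g' T) := by
    intro g g' hne'
    rcases hTd (g⁻¹ * g') with h | h
    · exfalso
      apply hne'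
      have := congrArg (cjs g) h
      rw [cjs_cjs, mul_inv_cancel_left] at this
      exact this.symm
    · intro x hx y hy
      have h1 := h _ (mem_cjs.mp hx) (g⁻¹ * y * g) (by
        rw [mem_cjs] at hy ⊢
        rwa [show (g⁻¹ * g')⁻¹ * (g⁻¹ * y * g) * (g⁻¹ * g') = g'⁻¹ * y * g' by group])
      calc x * y = g * ((g⁻¹ * x * g) * (g⁻¹ * y * g)) * g⁻¹ := by group
        _ = g * ((g⁻¹ * y * g) * (g⁻¹ * x * g)) * g⁻¹ := by rw [h1]
        _ = y * x := by group
  have hgood : Good N 𝒯 := by
    refine ⟨?_, ?_, ?_, ?_, ?_, ?_⟩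
    · intro S hS
      obtain ⟨g, rfl⟩ := (hmem S).mp hS
      exact hcN g
    · intro S hS
      obtain ⟨g, rfl⟩ := (hmem S).mp hS
      intro h0
      apply hT0
      have := congrArg (cjs g⁻¹) h0
      rwa [cjs_cjs, inv_mul_cancel, cjs_one, cjs_bot] at this
    · intro S hS
      obtain ⟨g, rfl⟩ := (hmem S).mp hS
      exact hTs.cjs g
    · intro S hS
      obtain ⟨g, rfl⟩ := (hmem S).mp hS
      exact hTc.cjs g
    · intro S hS S' hS' hne'
      obtain ⟨g, rfl⟩ := (hmem S).mp hS
      obtain ⟨g', rfl⟩ := (hmem S').mp hS'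
      exact hcc g g' hne'
    · intro g S hS
      obtain ⟨g', rfl⟩ := (hmem S).mp hS
      exact (hmem _).mpr ⟨g * g', cjs_cjs g g' T⟩
  have hNs : (⨆ S ∈ 𝒯, S) = N := by
    rw [← hTsup]
    apply le_antisymm
    · apply iSup₂_le
      intro S hS
      obtain ⟨g, rfl⟩ := (hmem S).mp hS
      exact le_iSup (fun g => cjs g T) g
    · apply iSup_le
      intro g
      exact le_iSup₂_of_le (cjs g T) ((hmem _).mpr ⟨g, rfl⟩) le_rfl
  have hcard := card_sup_le hgood (B := 2 ^ s) (fun S hS =>
    (card_le_card_mulAut (hgood.cf S hS)).trans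
      (hsf.card_simp_le S (hgood.ne S hS) (hgood.simp S hS) (hgood.cf S hS)))
  rw [hNs] at hcard
  refine hcard.trans (Nat.pow_le_pow_right (by positivity) ?_)
  -- the support of an element
  let supp : G → Finset (Subgroup G) := fun x => 𝒯.filter (fun S => ¬ ∀ y ∈ S, x * y = y * x)
  have hsupp : ∀ (x : G) (S : Subgroup G), S ∈ supp x ↔ S ∈ 𝒯 ∧ ¬ ∀ y ∈ S, x * y = y * x := by
    intro x S
    simp only [supp, Finset.mem_filter]
  have hconj : ∀ (g x : G), (supp (g * x * g⁻¹)).card = (supp x).card := by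
    intro g x
    symm
    apply Finset.card_bij (fun S _ => cjs g S)
    · intro S hS
      rw [hsupp] at hS ⊢
      refine ⟨hgood.conj g S hS.1, ?_⟩
      intro hcon
      apply hS.2
      intro y hy
      have h1 := hcon (g * y * g⁻¹) (by
        rw [mem_cjs]
        rwa [show g⁻¹ * (g * y * g⁻¹) * g = y by group])
      calc x * y = g⁻¹ * ((g * x * g⁻¹) * (g * y * g⁻¹)) * g := by group
        _ = g⁻¹ * ((g * y * g⁻¹) * (g * x * g⁻¹)) * g := by rw [h1]
        _ = y * x := by group
    · intro S _ S' _ h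
      have := congrArg (cjs g⁻¹) h
      rwa [cjs_cjs, cjs_cjs, inv_mul_cancel, cjs_one, cjs_one] at this
    · intro S hS
      rw [hsupp] at hS
      refine ⟨cjs g⁻¹ S, ?_, by rw [cjs_cjs, mul_inv_cancel, cjs_one]⟩
      rw [hsupp]
      refine ⟨hgood.conj g⁻¹ S hS.1, ?_⟩
      intro hcon
      apply hS.2
      intro y hy
      have h1 := hcon (g⁻¹ * y * g) (by
        rw [mem_cjs]
        rwa [show g⁻¹⁻¹ * (g⁻¹ * y * g) * g⁻¹ = y by group])
      calc g * x * g⁻¹ * y = g * (x * (g⁻¹ * y * g)) * g⁻¹ := by group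
        _ = g * ((g⁻¹ * y * g) * x) * g⁻¹ := by rw [h1]
        _ = y * (g * x * g⁻¹) := by group
  have hex : ∀ F : Finset (Subgroup G), F ⊆ 𝒯 → ∃ x ∈ N, supp x = F := by
    intro F
    induction F using Finset.induction_on with
    | empty =>
      intro _
      refine ⟨1, N.one_mem, ?_⟩
      rw [Finset.eq_empty_iff_forall_notMem]
      intro S hS
      rw [hsupp] at hS
      exact hS.2 (fun y _ => by rw [one_mul, mul_one])
    | insert S F hSF ih =>
      intro hsub
      obtain ⟨x, hxN, hx⟩ := ih ((Finset.subset_insert S F).trans hsub)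
      have hS𝒯 : S ∈ 𝒯 := hsub (Finset.mem_insert_self S F)
      obtain ⟨t, ht1⟩ := Subgroup.ne_bot_iff_exists_ne_one.mp (hgood.ne S hS𝒯)
      have ht : (t : G) ∈ S := t.2
      have ht1' : (t : G) ≠ 1 := fun h => ht1 (Subtype.ext h)
      have hcomx : ∀ S' ∈ 𝒯, S' ∉ F → ∀ y ∈ S', x * y = y * x := by
        intro S' hS' hF
        by_contra hcon
        exact hF (by rw [← hx, hsupp]; exact ⟨hS', hcon⟩)
      refine ⟨x * t, N.mul_mem hxN (hgood.le S hS𝒯 ht), ?_⟩
      ext S'
      rw [hsupp, Finset.mem_insert]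
      constructor
      · rintro ⟨h1, h2⟩
        by_contra hcon
        push_neg at hcon
        apply h2
        intro y hy
        have e1 := hcomx S' h1 hcon.2 y hy
        have e2 := hgood.comm S hS𝒯 S' h1 (fun h => hcon.1 h.symm) t ht y hy
        rw [mul_assoc, e2, ← mul_assoc, e1, mul_assoc]
      · rintro (rfl | h1)
        · refine ⟨hS𝒯, ?_⟩
          intro hcon
          apply ht1'
          apply hgood.cf _ hS𝒯 t ht
          intro y hy
          have e1 := hcomx _ hS𝒯 hSF y hy
          have e2 := hcon y hy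
          rw [mul_assoc, ← mul_assoc y x, ← e1, mul_assoc] at e2
          exact mul_left_cancel e2
        · refine ⟨hsub (Finset.mem_insert_of_mem h1), ?_⟩
          intro hcon
          have hS'x : S' ∈ supp x := by rw [hx]; exact h1
          apply ((hsupp x S').mp hS'x).2
          intro y hy
          have hne : S ≠ S' := fun h => hSF (h ▸ h1)
          have e2 := hgood.comm S hS𝒯 S' (hsub (Finset.mem_insert_of_mem h1)) hne t ht y hy
          have e3 := hcon y hy
          rw [mul_assoc, e2, ← mul_assoc, ← mul_assoc] at e3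
          exact mul_right_cancel e3
  -- an injection into the classes inside `N`
  haveI : Finite (ConjClasses G) := Quotient.finite _
  have hsub : ∀ k : Fin (𝒯.card + 1), ∃ x ∈ N, (supp x).card = k := by
    intro k
    obtain ⟨F, hF, hFk⟩ := Finset.exists_subset_card_eq (Nat.lt_succ_iff.mp k.2)
    obtain ⟨x, hxN, hx⟩ := hex F hF
    exact ⟨x, hxN, by rw [hx, hFk]⟩
  choose x hxN hx using hsub
  have hle : Nat.card (Fin (𝒯.card + 1)) ≤ clsIn N := by
    apply Nat.card_le_card_of_injective (fun k =>
      (⟨ConjClasses.mk (x k), x k, hxN k, rfl⟩ :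
        {c : ConjClasses G // ∃ x ∈ N, ConjClasses.mk x = c}))
    intro k k' hkk
    have h2 : ConjClasses.mk (x k) = ConjClasses.mk (x k') := congrArg Subtype.val hkk
    rw [ConjClasses.mk_eq_mk_iff_isConj, isConj_iff] at h2
    obtain ⟨g, hg⟩ := h2
    have h3 := hconj g (x k)
    rw [hg, hx, hx] at h3
    exact Fin.ext h3.symm
  rw [Nat.card_eq_fintype_card, Fintype.card_fin] at hle
  omega

end H60.KG
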