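import Mathlib

/-!
Numerical inequality.
-/

namespace H60.KG

theorem sq_aux (n : ℕ) (hn : 14 ≤ n) : 52 * (n + 1) ^ 2 ≤ 2 ^ n := by
  induction n, hn using Nat.le_induction with
  | base => norm_num
  | succ n hn ih =>
    have h1 : 52 * (n + 1 + 1) ^ 2 ≤ 2 * (52 * (n + 1) ^ 2) := by nlinarith
    calc 52 * (n + 1 + 1) ^ 2 ≤ 2 * (52 * (n + 1) ^ 2) := h1
      _ ≤ 2 * 2 ^ n := Nat.mul_le_mul_left _ ih
      _ = 2 ^ (n + 1) := by ring

theorem lin_aux (h : ℕ) (hh : 3 ≤ h) : 2 * h + 2 ≤ 2 ^ h := by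
  induction h, hh using Nat.le_induction with
  | base => norm_num
  | succ n hn ih =>
    rw [pow_succ]
    omega

/-- the size beyond which a primitive module is large compared with the group -/
def lam (s : ℕ) : ℕ := (1 + s) * (1 + Nat.log 2 (1 + s))

theorem exp_le (s L e : ℕ) (hL : 16384 * lam s ≤ L) (he : 2 ^ e ≤ L) (he' : L < 2 ^ (e + 1)) :
    26 * (e + 1) ^ 2 + 4 * s * (e + 1) ≤ L := by
  have hlam : 1 ≤ lam s := Nat.mul_pos (by omega) (by omega)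
  have he14 : 14 ≤ e := by
    by_contra hcon
    have h1 : 2 ^ (e + 1) ≤ 2 ^ 14 := Nat.pow_le_pow_right (by norm_num) (by omega)
    have h2 : (2 : ℕ) ^ 14 = 16384 := by norm_num
    omega
  have h1 := sq_aux e he14
  have h2 : 8 * s * (e + 1) ≤ L := by
    by_cases hc : e + 1 ≤ 2048 * (1 + Nat.log 2 (1 + s))
    · calc 8 * s * (e + 1) ≤ 8 * s * (2048 * (1 + Nat.log 2 (1 + s))) :=
            Nat.mul_le_mul_left _ hc
        _ ≤ 8 * (1 + s) * (2048 * (1 + Nat.log 2 (1 + s))) :=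
            Nat.mul_le_mul_right _ (by omega)
        _ = 16384 * lam s := by unfold lam; ring
        _ ≤ L := hL
    · rw [not_le] at hc
      set t := Nat.log 2 (1 + s) with ht
      have h3 : 1 + s < 2 ^ (t + 1) := Nat.lt_pow_succ_log_self (by norm_num) _
      set h := e / 2 with hh
      have h4 : t + 4 ≤ h := by omega
      have h5 : e + 1 ≤ 2 ^ h := le_trans (by omega) (lin_aux h (by omega))
      calc 8 * s * (e + 1) ≤ 8 * 2 ^ (t + 1) * 2 ^ h :=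
            Nat.mul_le_mul (Nat.mul_le_mul_left _ (by omega)) h5
        _ = 2 ^ (t + 4) * 2 ^ h := by ring
        _ ≤ 2 ^ h * 2 ^ h := Nat.mul_le_mul_right _ (Nat.pow_le_pow_right (by norm_num) h4)
        _ = 2 ^ (h + h) := by rw [pow_add]
        _ ≤ 2 ^ e := Nat.pow_le_pow_right (by norm_num) (by omega)
        _ ≤ L := he
  have h3 : 4 * s * (e + 1) * 2 = 8 * s * (e + 1) := by ring
  omega

theorem numeric (s : ℕ) : ∀ L, 16384 * lam s ≤ L → ∀ l, 2 ^ l ≤ L ^ 2 →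
    ((L * (((L ^ 2) ^ Nat.log 2 (L ^ 2)) * (L ^ 2 * (l * 2 ^ s) ^ l))) *
      (L + 2)) ^ 2 ≤ 2 ^ L := by
  intro L hL l hl
  have hlam : 1 ≤ lam s := Nat.mul_pos (by omega) (by omega)
  set e := Nat.log 2 L with he
  have hL0 : L ≠ 0 := by omega
  have h1 : L < 2 ^ (e + 1) := Nat.lt_pow_succ_log_self (by norm_num) L
  have h2 : 2 ^ e ≤ L := Nat.pow_log_le_self 2 hL0
  have h3 : L ^ 2 < 2 ^ (2 * e + 2) := by
    calc L ^ 2 < (2 ^ (e + 1)) ^ 2 := Nat.pow_lt_pow_left h1 (by norm_num)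
      _ = 2 ^ (2 * e + 2) := by rw [← pow_mul]; ring_nf
  have h4 : Nat.log 2 (L ^ 2) ≤ 2 * e + 1 := by
    have := Nat.log_lt_of_lt_pow (by positivity) h3
    omega
  have h5 : l ≤ 2 * e + 1 := by
    have h6 : 2 ^ l < 2 ^ (2 * e + 2) := lt_of_le_of_lt hl h3
    have := (Nat.pow_lt_pow_iff_right (by norm_num : 1 < 2)).mp h6
    omega
  have h8 : (l * 2 ^ s) ^ l ≤ 2 ^ ((2 * e + 1 + s) * (2 * e + 1)) := by
    calc (l * 2 ^ s) ^ l ≤ (2 ^ l * 2 ^ s) ^ l :=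
          Nat.pow_le_pow_left (Nat.mul_le_mul_right _ (Nat.lt_two_pow_self).le) _
      _ = 2 ^ ((l + s) * l) := by rw [← pow_add, ← pow_mul]
      _ ≤ 2 ^ ((2 * e + 1 + s) * (2 * e + 1)) :=
          Nat.pow_le_pow_right (by norm_num) (Nat.mul_le_mul (by omega) h5)
  have h9 : (L ^ 2) ^ Nat.log 2 (L ^ 2) ≤ 2 ^ ((2 * e + 2) * (2 * e + 1)) := by
    calc (L ^ 2) ^ Nat.log 2 (L ^ 2) ≤ (2 ^ (2 * e + 2)) ^ Nat.log 2 (L ^ 2) :=
          Nat.pow_le_pow_left h3.le _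
      _ ≤ (2 ^ (2 * e + 2)) ^ (2 * e + 1) := Nat.pow_le_pow_right (by positivity) h4
      _ = _ := by rw [← pow_mul]
  have h10 : L + 2 ≤ 2 ^ (e + 2) := by
    have : 2 ^ (e + 2) = 2 ^ (e + 1) + 2 ^ (e + 1) := by rw [pow_succ]; ring
    have h11 : 2 ≤ 2 ^ (e + 1) := by
      calc 2 = 2 ^ 1 := by norm_num
        _ ≤ 2 ^ (e + 1) := Nat.pow_le_pow_right (by norm_num) (by omega)
    omega
  set E := (e + 1) + ((2 * e + 2) * (2 * e + 1) + ((2 * e + 2) + (2 * e + 1 + s) * (2 * e + 1))) +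
    (e + 2) with hE
  have h12 : (L * (((L ^ 2) ^ Nat.log 2 (L ^ 2)) * (L ^ 2 * (l * 2 ^ s) ^ l))) *
      (L + 2) ≤ 2 ^ E := by
    rw [hE, pow_add, pow_add, pow_add _ ((2 * e + 2) * (2 * e + 1)), pow_add _ (2 * e + 2)]
    exact Nat.mul_le_mul (Nat.mul_le_mul h1.le (Nat.mul_le_mul h9 (Nat.mul_le_mul h3.le h8))) h10
  have h13 : 2 * E ≤ 26 * (e + 1) ^ 2 + 4 * s * (e + 1) := by
    rw [hE]
    nlinarith [Nat.zero_le e, Nat.zero_le s]
  calc _ ≤ (2 ^ E) ^ 2 := Nat.pow_le_pow_left h12 2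
    _ = 2 ^ (2 * E) := by rw [← pow_mul, mul_comm]
    _ ≤ 2 ^ L := Nat.pow_le_pow_right (by norm_num) (h13.trans (exp_le s L e hL h2 h1))

/-- `L ^ 4 ≤ 2 ^ L` -/
theorem four_le (L : ℕ) (hL : 16 ≤ L) : L ^ 4 ≤ 2 ^ L := by
  induction L, hL using Nat.le_induction with
  | base => norm_num
  | succ n hn ih =>
    have h1 : (n + 1) ^ 4 ≤ 2 * n ^ 4 := by
      obtain ⟨k, rfl⟩ := Nat.exists_eq_add_of_le hn
      ring_nf
      nlinarith [Nat.zero_le k, Nat.zero_le (k ^ 2), Nat.zero_le (k ^ 3), Nat.zero_le (k ^ 4)]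
    calc (n + 1) ^ 4 ≤ 2 * n ^ 4 := h1
      _ ≤ 2 * 2 ^ n := Nat.mul_le_mul_left _ ih
      _ = 2 ^ (n + 1) := by ring

end H60.KG
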