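import Pool.Agent.H60.KG.Prop

/-!
The number of orbits of an irreducible action: the induction over block systems.
-/

namespace H60.KG

open MulAction
open scoped Pointwise

universe u

theorem two_le_orb (H V : Type*) [Group H] [Finite V] [AddCommGroup V] [Nontrivial V]
    [DistribMulAction H V] : 2 ≤ orb H V := by
  classical
  obtain ⟨v, hv⟩ := exists_ne (0 : V)
  haveI : Finite (MulAction.orbitRel.Quotient H V) := Quotient.finite _
  have h1 : (Quotient.mk'' v : MulAction.orbitRel.Quotient H V) ≠ Quotient.mk'' 0 := by
    intro h
    have h2 := Quotient.eq''.mp h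
    rw [MulAction.orbitRel_apply] at h2
    obtain ⟨h, hh⟩ := h2
    apply hv
    rw [← hh]
    exact smul_zero h
  haveI : Nontrivial (MulAction.orbitRel.Quotient H V) := ⟨_, _, h1⟩
  exact Finite.one_lt_card_iff_nontrivial.mpr inferInstance

/-- the constant depending only on the nonabelian composition factors -/
def cst (s : ℕ) : ℕ := 2 ^ (16384 * lam s + 1)

theorem orbit_bound (s M N0 n : ℕ) : ∀ (V : Type u) [AddCommGroup V]
    [Finite V] (H : Type u) [Group H] [Finite H] [DistribMulAction H V], Nat.card V = n →
    Irred H V → SecAut s H → Adm N0 M H V → Nat.card V ≤ (cst s + M) ^ (orb H V - 1) := by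
  classical
  have hnum := numeric s
  set L0 := 16384 * lam s with hL0
  have hL16 : 16 ≤ L0 := by
    have : 1 ≤ lam s := Nat.mul_pos (by omega) (by omega)
    omega
  set Q := cst s + M with hQ
  have hQd : Q = 2 ^ (L0 + 1) + M := rfl
  have hpw : 2 ^ (L0 + 1) = 2 ^ L0 * 2 := pow_succ _ _
  have hp1 : 0 < 2 ^ L0 := by positivity
  have hQ2 : 2 ≤ Q := by omega
  induction n using Nat.strong_induction_on with
  | _ n ih =>
    intro V _ _ H _ _ _ hn hI hsf hadm
    haveI := hI.1
    have h2 := two_le_orb H V
    by_cases hP : Prim H V
    · by_cases hQV : Nat.card V ≤ Q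
      · calc Nat.card V ≤ Q ^ 1 := by rwa [pow_one]
          _ ≤ Q ^ (orb H V - 1) := Nat.pow_le_pow_right (by omega) (by omega)
      · rw [not_le] at hQV
        have h1 : 2 ^ L0 ≤ Nat.card V := by omega
        have h3 := prim_case hL16 hnum hP hsf hadm h2 h1 (by omega)
        have h4 : Nat.card V < 2 ^ (Nat.log 2 (Nat.card V) + 1) :=
          Nat.lt_pow_succ_log_self (by norm_num) _
        calc Nat.card V ≤ 2 ^ (Nat.log 2 (Nat.card V) + 1) := h4.le
          _ ≤ Q ^ (Nat.log 2 (Nat.card V) + 1) := Nat.pow_le_pow_left hQ2 _
          _ ≤ Q ^ (orb H V - 1) := Nat.pow_le_pow_right (by omega) (by omega)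
    · have hP' : ∃ U : AddSubgroup V, U ≠ ⊥ ∧ IndepOrbit H U ∧ U ≠ ⊤ := by
        by_contra hcon
        apply hP
        intro U h1 h2
        by_contra h3
        exact hcon ⟨U, h1, h2, h3⟩
      obtain ⟨U, hU0, hind, hUt⟩ := hP'
      haveI : Finite (MulAction.orbit H U) := inferInstance
      haveI : Fintype (MulAction.orbit H U) := Fintype.ofFinite _
      have BS := blockSys_of_indep hI U hU0 hind
      let i0 : MulAction.orbit H U := ⟨U, MulAction.mem_orbit_self U⟩
      have hcard := BS.card_eq i0
      letI := blockAct BS i0
      have hirr := BS.irred hI i0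
      have horb := BS.orb_le i0
      have hlt : Nat.card ((i0 : AddSubgroup V)) < n := by
        rw [← hn]
        have h5 : Nat.card (i0 : AddSubgroup V) ≤ Nat.card V :=
          Nat.card_le_card_of_injective _ Subtype.val_injective
        rcases h5.lt_or_eq with h6 | h6
        · exact h6
        · exfalso
          exact hUt (AddSubgroup.eq_top_of_card_eq _ h6)
      have hm : 1 ≤ Fintype.card (MulAction.orbit H U) := Fintype.card_pos_iff.mpr ⟨i0⟩
      have hadm' : Adm N0 M (MulAction.stabilizer H i0) (i0 : AddSubgroup V) := by
        rcases hadm with ⟨hord, hdiv⟩ | hcl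
        · left
          refine ⟨hord.of_injective (MulAction.stabilizer H i0).subtype Subtype.val_injective, ?_⟩
          intro p hp hpU
          apply hdiv p hp
          rw [hcard]
          exact hpU.trans (dvd_pow_self _ (by omega))
        · right
          refine le_trans (Nat.pow_le_pow_left ?_ 4) hcl
          have e1 := card_conj_mul_le (MulAction.stabilizer H i0)
          have e2 := Subgroup.card_mul_index (MulAction.stabilizer H i0)
          rw [MulAction.index_stabilizer_of_transitive, Nat.card_eq_fintype_card
            (α := MulAction.orbit H U)] at e2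
          have e3 : Nat.card (ConjClasses (MulAction.stabilizer H i0)) ≤
              Nat.card (ConjClasses H) * Fintype.card (MulAction.orbit H U) := by
            rw [← e2, mul_comm (Nat.card (MulAction.stabilizer H i0)), ← mul_assoc] at e1
            exact Nat.le_of_mul_le_mul_right e1 Nat.card_pos
          calc Nat.card (ConjClasses (MulAction.stabilizer H i0)) *
                (orb (MulAction.stabilizer H i0) (i0 : AddSubgroup V) - 1)
              ≤ (Nat.card (ConjClasses H) * Fintype.card (MulAction.orbit H U)) *
                (orb (MulAction.stabilizer H i0) (i0 : AddSubgroup V) - 1) :=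
                Nat.mul_le_mul_right _ e3
            _ = Nat.card (ConjClasses H) * (Fintype.card (MulAction.orbit H U) *
                (orb (MulAction.stabilizer H i0) (i0 : AddSubgroup V) - 1)) := by ring
            _ ≤ Nat.card (ConjClasses H) * (orb H V - 1) :=
                Nat.mul_le_mul_left _ (by omega)
      have h7 := ih _ hlt (i0 : AddSubgroup V) (MulAction.stabilizer H i0) rfl hirr
        (hsf.of_injective (MulAction.stabilizer H i0).subtype Subtype.val_injective) hadm'
      rw [hcard]
      calc (Nat.card (i0 : AddSubgroup V)) ^ Fintype.card (MulAction.orbit H U)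
          ≤ (Q ^ (orb (MulAction.stabilizer H i0) (i0 : AddSubgroup V) - 1)) ^
            Fintype.card (MulAction.orbit H U) := Nat.pow_le_pow_left h7 _
        _ = Q ^ (Fintype.card (MulAction.orbit H U) *
            (orb (MulAction.stabilizer H i0) (i0 : AddSubgroup V) - 1)) := by
            rw [← pow_mul, mul_comm]
        _ ≤ Q ^ (orb H V - 1) := Nat.pow_le_pow_right (by omega) (by omega)

end H60.KG
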