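import Pool.Agent.H60.KG.Lift

/-!
Groups with a subnormal series with small or abelian factors.
-/

namespace H60.KG

/-- `G` has a subnormal series in which each factor is abelian or has order at most `B`. -/
def SmallFactors (B : ℕ) (G : Type*) [Group G] : Prop :=
  ∃ (n : ℕ) (s : ℕ → Subgroup G), s 0 = ⊤ ∧ s n = ⊥ ∧ ∀ i, i < n →
    s (i + 1) ≤ s i ∧ (∀ g ∈ s i, ∀ x ∈ s (i + 1), g * x * g⁻¹ ∈ s (i + 1)) ∧
    ((∀ x ∈ s i, ∀ y ∈ s i, x * y * x⁻¹ * y⁻¹ ∈ s (i + 1)) ∨
      (s (i + 1)).relIndex (s i) ≤ B)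

theorem relIndex_ne_zero_fin {G : Type*} [Group G] [Finite G] (H K : Subgroup G) :
    H.relIndex K ≠ 0 := by
  intro h
  have h1 := Subgroup.relIndex_dvd_card H K
  rw [h, zero_dvd_iff] at h1
  exact (Nat.card_pos (α := K)).ne' h1

theorem SmallFactors.of_injective {B : ℕ} {G G' : Type*} [Group G] [Group G'] [Finite G]
    (h : SmallFactors B G) (f : G' →* G) (hf : Function.Injective f) : SmallFactors B G' := by
  obtain ⟨n, s, h0, hn, hs⟩ := h
  refine ⟨n, fun i => (s i).comap f, ?_, ?_, ?_⟩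
  · change (s 0).comap f = ⊤
    rw [h0, Subgroup.comap_top]
  · change (s n).comap f = ⊥
    rw [hn]
    exact (MonoidHom.ker_eq_bot_iff f).mpr hf
  · intro i hi
    obtain ⟨h1, h2, h3⟩ := hs i hi
    refine ⟨Subgroup.comap_mono h1, ?_, ?_⟩
    · intro g hg x hx
      rw [Subgroup.mem_comap] at hg hx ⊢
      rw [map_mul, map_mul, map_inv]
      exact h2 _ hg _ hx
    · rcases h3 with h3 | h3
      · left
        intro x hx y hy
        rw [Subgroup.mem_comap] at hx hy ⊢
        simp only [map_mul, map_inv]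
        exact h3 _ hx _ hy
      · right
        rw [Subgroup.relIndex_comap]
        refine le_trans (Subgroup.relIndex_le_of_le_right (Subgroup.map_comap_le _ _) ?_) h3
        exact relIndex_ne_zero_fin _ _

theorem SmallFactors.of_surjective {B : ℕ} {G G' : Type*} [Group G] [Group G'] [Finite G]
    (h : SmallFactors B G) (f : G →* G') (hf : Function.Surjective f) : SmallFactors B G' := by
  obtain ⟨n, s, h0, hn, hs⟩ := h
  refine ⟨n, fun i => (s i).map f, ?_, ?_, ?_⟩
  · change (s 0).map f = ⊤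
    rw [h0, Subgroup.map_top_of_surjective f hf]
  · change (s n).map f = ⊥
    rw [hn, Subgroup.map_bot]
  · intro i hi
    obtain ⟨h1, h2, h3⟩ := hs i hi
    refine ⟨Subgroup.map_mono h1, ?_, ?_⟩
    · rintro _ ⟨g, hg, rfl⟩ _ ⟨x, hx, rfl⟩
      exact ⟨_, h2 g hg x hx, by simp⟩
    · rcases h3 with h3 | h3
      · left
        rintro _ ⟨x, hx, rfl⟩ _ ⟨y, hy, rfl⟩
        exact ⟨_, h3 x hx y hy, by simp⟩
      · right
        change ((s (i + 1)).map f).relIndex ((s i).map f) ≤ B
        rw [← Subgroup.relIndex_comap]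
        refine le_trans (Subgroup.relIndex_le_of_le_left (Subgroup.le_comap_map _ _) ?_) h3
        exact relIndex_ne_zero_fin _ _

theorem SmallFactors.card_simp_le {B : ℕ} {G : Type*} [Group G] [Finite G]
    (h : SmallFactors B G) (T : Subgroup G) (h0 : T ≠ ⊥) (hT : Simp T) (hc : CF T) :
    Nat.card T ≤ B := by
  classical
  obtain ⟨n, s, hs0, hsn, hs⟩ := h
  have hex : ∃ i, ¬ T ≤ s i := ⟨n, by rw [hsn, le_bot_iff]; exact h0⟩
  set j := Nat.find hex with hj
  have hj1 : ¬ T ≤ s j := Nat.find_spec hex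
  have hj0 : j ≠ 0 := by
    intro h
    rw [h, hs0] at hj1
    exact hj1 le_top
  obtain ⟨i, hi⟩ := Nat.exists_eq_succ_of_ne_zero hj0
  have hTi : T ≤ s i := by
    by_contra hcon
    have := Nat.find_min' hex hcon
    omega
  have hjn : j ≤ n := Nat.find_min' hex (by rw [hsn, le_bot_iff]; exact h0)
  rw [hi] at hj1
  obtain ⟨h1, h2, h3⟩ := hs i (by omega)
  have hbot : s (i + 1) ⊓ T = ⊥ := by
    rcases hT (s (i + 1) ⊓ T) inf_le_right (by
      intro t ht y hy
      exact ⟨h2 t (hTi ht) y hy.1, T.mul_mem (T.mul_mem ht hy.2) (T.inv_mem ht)⟩) with h | h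
    · exact h
    · exfalso
      exact hj1 (inf_eq_right.mp h)
  rcases h3 with h3 | h3
  · exfalso
    apply h0
    rw [eq_bot_iff]
    intro x hx
    rw [Subgroup.mem_bot]
    apply hc x hx
    intro y hy
    have h4 : x * y * x⁻¹ * y⁻¹ ∈ s (i + 1) ⊓ T :=
      ⟨h3 x (hTi hx) y (hTi hy), T.mul_mem (T.mul_mem (T.mul_mem hx hy) (T.inv_mem hx))
        (T.inv_mem hy)⟩
    rw [hbot, Subgroup.mem_bot] at h4
    calc x * y = (x * y * x⁻¹ * y⁻¹) * (y * x) := by group
      _ = y * x := by rw [h4, one_mul]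
  · have h5 : Nat.card T = (s (i + 1)).relIndex T := by
      rw [← Subgroup.inf_relIndex_right, hbot, Subgroup.relIndex_bot_left]
    rw [h5]
    exact (Subgroup.relIndex_le_of_le_right hTi (relIndex_ne_zero_fin _ _)).trans h3

universe u

/-- Each nonabelian simple section `T` of `G` (quotient of a subgroup) has at most `2 ^ s`
automorphisms. -/
def SecAut (s : ℕ) (G : Type u) [Group G] : Prop :=
  ∀ (T : Type u) [Group T] [IsSimpleGroup T], (∃ x y : T, x * y ≠ y * x) →
    (∃ (K : Subgroup G) (f : K →* T), Function.Surjective f) → Nat.card (MulAut T) ≤ 2 ^ s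

theorem SecAut.of_injective {s : ℕ} {G G' : Type u} [Group G] [Group G']
    (h : SecAut s G) (f : G' →* G) (hf : Function.Injective f) : SecAut s G' := by
  intro T _ _ hT hK
  obtain ⟨K, g, hg⟩ := hK
  refine h T hT ⟨K.map f, g.comp (K.equivMapOfInjective f hf).symm.toMonoidHom, ?_⟩
  exact hg.comp (K.equivMapOfInjective f hf).symm.surjective

theorem SecAut.of_surjective {s : ℕ} {G G' : Type u} [Group G] [Group G']
    (h : SecAut s G) (f : G →* G') (hf : Function.Surjective f) : SecAut s G' := by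
  intro T _ _ hT hK
  obtain ⟨K, g, hg⟩ := hK
  refine h T hT ⟨K.comap f, g.comp (f.subgroupComap K), ?_⟩
  exact hg.comp (MonoidHom.subgroupComap_surjective_of_surjective f K hf)

theorem isSimpleGroup_of_simp {G : Type*} [Group G] {T : Subgroup G} (h0 : T ≠ ⊥)
    (hT : Simp T) : IsSimpleGroup T := by
  haveI : Nontrivial T := (Subgroup.nontrivial_iff_ne_bot T).mpr h0
  refine ⟨fun N hN => ?_⟩
  rcases hT (N.map T.subtype) (Subgroup.map_subtype_le N) (by
    rintro t ht _ ⟨y, hy, rfl⟩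
    exact ⟨_, hN.conj_mem y hy ⟨t, ht⟩, rfl⟩) with h | h
  · left
    rwa [Subgroup.map_eq_bot_iff_of_injective _ T.subtype_injective] at h
  · right
    rw [eq_top_iff]
    intro x _
    have h1 : (x : G) ∈ N.map T.subtype := by rw [h]; exact x.2
    obtain ⟨y, hy, hyx⟩ := h1
    have : y = x := Subtype.ext hyx
    rwa [← this]

theorem SecAut.card_simp_le {s : ℕ} {G : Type u} [Group G] (h : SecAut s G) (T : Subgroup G)
    (h0 : T ≠ ⊥) (hT : Simp T) (hc : CF T) : Nat.card (MulAut T) ≤ 2 ^ s := by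
  haveI := isSimpleGroup_of_simp h0 hT
  refine h T ?_ ⟨T, MonoidHom.id T, fun x => ⟨x, rfl⟩⟩
  obtain ⟨x, hx⟩ := Subgroup.ne_bot_iff_exists_ne_one.mp h0
  by_contra hcon
  apply hx
  apply Subtype.ext
  apply hc x x.2
  intro y hy
  by_contra h2
  exact hcon ⟨x, ⟨y, hy⟩, fun h3 => h2 (congrArg Subtype.val h3)⟩

/-- Solvable groups have no nonabelian simple sections. -/
theorem SecAut.of_isSolvable {G : Type u} [Group G] [Finite G] [Group.IsSolvable G] :
    SecAut 0 G := by
  intro T _ _ hT hK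
  exfalso
  obtain ⟨K, g, hg⟩ := hK
  haveI : Group.IsSolvable T := solvable_of_surjective hg
  obtain ⟨x, y, hxy⟩ := hT
  exact hxy (IsSimpleGroup.comm_iff_isSolvable.mpr inferInstance x y)

/-- Groups with small factors have small nonabelian simple sections. -/
theorem SecAut.of_smallFactors {B : ℕ} {G : Type u} [Group G] [Finite G]
    (h : SmallFactors B G) : SecAut (B * B) G := by
  intro T _ _ hT hK
  obtain ⟨K, g, hg⟩ := hK
  have h1 : SmallFactors B K := h.of_injective K.subtype Subtype.val_injective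
  have h2 : SmallFactors B T := h1.of_surjective g hg
  haveI : Finite T := Finite.of_surjective g hg
  obtain ⟨x, y, hxy⟩ := hT
  have htop : (⊤ : Subgroup T) ≠ ⊥ := by
    intro h
    have hx : x ∈ (⊤ : Subgroup T) := trivial
    rw [h, Subgroup.mem_bot] at hx
    apply hxy
    rw [hx, one_mul, mul_one]
  have hs : Simp (⊤ : Subgroup T) := by
    intro Y _ hYn
    have hYN : Y.Normal := ⟨fun y hy g => hYn g trivial y hy⟩
    exact hYN.eq_bot_or_eq_top
  have hcf : CF (⊤ : Subgroup T) := by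
    intro z _ hz
    have hc : z ∈ Subgroup.center T := by
      rw [Subgroup.mem_center_iff]
      intro w
      exact (hz w trivial).symm
    rcases (inferInstance : (Subgroup.center T).Normal).eq_bot_or_eq_top with h | h
    · rwa [h, Subgroup.mem_bot] at hc
    · exfalso
      apply hxy
      have hx : x ∈ Subgroup.center T := by rw [h]; trivial
      exact ((Subgroup.mem_center_iff.mp hx) y).symm
  have h3 := h2.card_simp_le ⊤ htop hs hcf
  rw [Subgroup.card_top] at h3
  have hB1 : 1 ≤ B := le_trans (Nat.succ_le_of_lt Nat.card_pos) h3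
  calc Nat.card (MulAut T) ≤ Nat.card T ^ Nat.log 2 (Nat.card T) := card_mulAut_le
    _ ≤ B ^ Nat.log 2 (Nat.card T) := Nat.pow_le_pow_left h3 _
    _ ≤ B ^ B := Nat.pow_le_pow_right hB1 ((Nat.log_le_self 2 _).trans h3)
    _ ≤ (2 ^ B) ^ B := Nat.pow_le_pow_left (Nat.lt_two_pow_self).le _
    _ = 2 ^ (B * B) := by rw [← pow_mul]

/-- The hypothesis on element orders: for each prime `p` dividing `N0` and each power
`p ^ d > M`, an element whose order divides `p ^ d - 1` has order at most `√(p ^ d)`. -/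
def OrdHyp (N0 M : ℕ) (G : Type*) [Group G] : Prop :=
  ∀ p : ℕ, p.Prime → p ∣ N0 → ∀ d : ℕ, M < p ^ d → ∀ g : G, orderOf g ∣ p ^ d - 1 →
    (orderOf g) ^ 2 ≤ p ^ d

theorem OrdHyp.of_injective {N0 M : ℕ} {G G' : Type*} [Group G] [Group G']
    (h : OrdHyp N0 M G) (f : G' →* G) (hf : Function.Injective f) : OrdHyp N0 M G' := by
  intro p hp hpN d hd g hg
  rw [← orderOf_injective f hf g] at hg ⊢
  exact h p hp hpN d hd _ hg

theorem OrdHyp.of_surjective {N0 M : ℕ} {G G' : Type*} [Group G] [Group G'] [Finite G]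
    (h : OrdHyp N0 M G) (f : G →* G') (hf : Function.Surjective f) : OrdHyp N0 M G' := by
  intro p hp hpN d hd g hg
  obtain ⟨x, rfl⟩ := hf g
  have h1 : orderOf (f x) ∣ orderOf x := orderOf_map_dvd f x
  obtain ⟨k, hk⟩ := h1
  have hx0 : orderOf x ≠ 0 := (orderOf_pos x).ne'
  have hk0 : k ≠ 0 := by
    rintro rfl
    rw [mul_zero] at hk
    exact hx0 hk
  have h2 : orderOf (x ^ k) = orderOf (f x) := by
    rw [orderOf_pow_of_dvd hk0 ⟨orderOf (f x), by rw [hk, mul_comm]⟩, hk]
    exact Nat.mul_div_cancel _ (Nat.pos_of_ne_zero hk0)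
  rw [← h2] at hg ⊢
  exact h p hp hpN d hd _ hg

end H60.KG
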