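import Pool.Agent.H60.KG.Struct
import Pool.Agent.H60.KG.Ser
import Pool.Agent.H60.KG.Num

/-!
The number of orbits of an irreducible action.
-/

namespace H60.KG

open MulAction
open scoped Pointwise

universe u

/-- selection of the abelian and class-two parts -/
theorem exists_AP (H : Type*) [Group H] [Finite H] :
    ∃ A P : Subgroup H, A.Normal ∧ P.Normal ∧ (∀ a ∈ A, ∀ b ∈ A, a * b = b * a) ∧ A ≤ P ∧
      P ≤ Subgroup.centralizer (A : Set H) ∧ (∀ x ∈ P, ∀ y ∈ P, x * y * x⁻¹ * y⁻¹ ∈ A) ∧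
      P ⊓ Subgroup.centralizer (P : Set H) ≤ A ∧
      (∀ E : Subgroup H, E.Normal → A ≤ E → E ≤ Subgroup.centralizer (P : Set H) →
        (∀ x ∈ E, ∀ y ∈ E, x * y * x⁻¹ * y⁻¹ ∈ A) → E ≤ A) := by
  classical
  obtain ⟨A, ⟨hAn, hAab⟩, hAmax⟩ := (Set.toFinite {A : Subgroup H | A.Normal ∧
    ∀ a ∈ A, ∀ b ∈ A, a * b = b * a}).exists_maximal ⟨⊥, inferInstance, by
      intro a ha b hb
      rw [Subgroup.mem_bot] at ha hb
      rw [ha, hb]⟩
  have hAC : A ≤ Subgroup.centralizer (A : Set H) := by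
    intro a ha
    rw [Subgroup.mem_centralizer_iff]
    intro b hb
    exact hAab b hb a ha
  obtain ⟨P, ⟨hPn, hAP, hPC, hPP⟩, hPmax⟩ := (Set.toFinite {P : Subgroup H | P.Normal ∧ A ≤ P ∧
    P ≤ Subgroup.centralizer (A : Set H) ∧ ∀ x ∈ P, ∀ y ∈ P, x * y * x⁻¹ * y⁻¹ ∈ A}).exists_maximal
      ⟨A, hAn, le_rfl, hAC, by
        intro x hx y hy
        exact A.mul_mem (A.mul_mem (A.mul_mem hx hy) (A.inv_mem hx)) (A.inv_mem hy)⟩
  have hAD : A ≤ Subgroup.centralizer (P : Set H) := by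
    intro a ha
    rw [Subgroup.mem_centralizer_iff]
    intro p hp
    exact ((Subgroup.mem_centralizer_iff.mp (hPC hp)) a ha).symm
  have hZ : P ⊓ Subgroup.centralizer (P : Set H) ≤ A := by
    have hn : (P ⊓ Subgroup.centralizer (P : Set H)).Normal := inferInstance
    refine hAmax ⟨hn, ?_⟩ (le_inf hAP hAD)
    intro a ha b hb
    exact (Subgroup.mem_centralizer_iff.mp hb.2) a ha.1
  refine ⟨A, P, hAn, hPn, hAab, hAP, hPC, hPP, hZ, ?_⟩
  intro E hEn hAE hEP hEE
  have hcomm : ∀ p ∈ P, ∀ e ∈ E, p * e = e * p := fun p hp e he =>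
    (Subgroup.mem_centralizer_iff.mp (hEP he)) p hp
  have hEC : E ≤ Subgroup.centralizer (A : Set H) := by
    intro e he
    rw [Subgroup.mem_centralizer_iff]
    intro a ha
    exact hcomm a (hAP ha) e he
  have hle : P ⊔ E ≤ P := by
    refine hPmax ⟨Subgroup.sup_normal P E, hAP.trans le_sup_left, sup_le hPC hEC, ?_⟩ le_sup_left
    intro x hx y hy
    obtain ⟨p, hp, e, he, rfl⟩ := Subgroup.mem_sup_of_normal_left.mp hx
    obtain ⟨q, hq, f, hf, rfl⟩ := Subgroup.mem_sup_of_normal_left.mp hy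
    have h1 : p * e * (q * f) * (p * e)⁻¹ * (q * f)⁻¹ =
        (p * q * p⁻¹ * q⁻¹) * (e * f * e⁻¹ * f⁻¹) := by
      have c1 : e * q = q * e := (hcomm q hq e he).symm
      have c2 : e * f * e⁻¹ * p⁻¹ = p⁻¹ * (e * f * e⁻¹) :=
        (hcomm _ (P.inv_mem hp) _ (E.mul_mem (E.mul_mem he hf) (E.inv_mem he))).symm
      have c3 : (e * f * e⁻¹ * f⁻¹) * q⁻¹ = q⁻¹ * (e * f * e⁻¹ * f⁻¹) :=
        (hcomm _ (P.inv_mem hq) _ (E.mul_mem (E.mul_mem (E.mul_mem he hf) (E.inv_mem he))
          (E.inv_mem hf))).symm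
      calc p * e * (q * f) * (p * e)⁻¹ * (q * f)⁻¹
          = p * (e * q) * f * e⁻¹ * p⁻¹ * f⁻¹ * q⁻¹ := by group
        _ = p * (q * e) * f * e⁻¹ * p⁻¹ * f⁻¹ * q⁻¹ := by rw [c1]
        _ = p * q * (e * f * e⁻¹ * p⁻¹) * f⁻¹ * q⁻¹ := by group
        _ = p * q * (p⁻¹ * (e * f * e⁻¹)) * f⁻¹ * q⁻¹ := by rw [c2]
        _ = p * q * p⁻¹ * ((e * f * e⁻¹ * f⁻¹) * q⁻¹) := by group
        _ = p * q * p⁻¹ * (q⁻¹ * (e * f * e⁻¹ * f⁻¹)) := by rw [c3]
        _ = _ := by group
    rw [h1]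
    exact A.mul_mem (hPP p hp q hq) (hEE e he f hf)
  intro e he
  exact hZ ⟨hle (Subgroup.mem_sup_right he), hEP he⟩

/-- The map to the unit group of the endomorphism ring. -/
def toU (H V : Type*) [Group H] [AddCommGroup V] [DistribMulAction H V] :
    H →* (AddMonoid.End V)ˣ := (DistribMulAction.toAddMonoidEnd H V).toHomUnits

/-- The image of `H` in the automorphism group of `V`. -/
def img (H V : Type*) [Group H] [AddCommGroup V] [DistribMulAction H V] :
    Subgroup (AddMonoid.End V)ˣ := (toU H V).range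

theorem toU_smul {H V : Type*} [Group H] [AddCommGroup V] [DistribMulAction H V] (h : H) (v : V) :
    toU H V h • v = h • v := rfl

theorem card_le_orb_mul (H V : Type*) [Group H] [Finite V] [AddCommGroup V]
    [DistribMulAction H V] : Nat.card V ≤ orb H V * Nat.card (img H V) := by
  classical
  haveI : Finite (MulAction.orbitRel.Quotient H V) := Quotient.finite _
  haveI : Finite (AddMonoid.End V)ˣ := inferInstance
  rw [orb, ← Nat.card_prod]
  apply Nat.card_le_card_of_surjective (fun x : (MulAction.orbitRel.Quotient H V) × img H V =>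
    (x.2 : (AddMonoid.End V)ˣ) • (Quotient.out x.1))
  intro v
  have h1 : (Quotient.mk'' (Quotient.out (Quotient.mk'' v : MulAction.orbitRel.Quotient H V)) :
    MulAction.orbitRel.Quotient H V) = Quotient.mk'' v := Quotient.out_eq' _
  have h2 := Quotient.eq''.mp h1
  rw [MulAction.orbitRel_apply] at h2
  obtain ⟨h, hh⟩ := MulAction.mem_orbit_symm.mp h2
  exact ⟨(Quotient.mk'' v, ⟨toU H V h, ⟨h, rfl⟩⟩), hh⟩

theorem prim_img {H V : Type*} [Group H] [Finite V] [AddCommGroup V]
    [DistribMulAction H V] (hP : Prim H V) : Prim (img H V) V := by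
  intro U hU hind
  apply hP U hU
  have horb : MulAction.orbit H U = MulAction.orbit (img H V) U := by
    ext W
    constructor
    · rintro ⟨h, rfl⟩
      exact ⟨⟨toU H V h, ⟨h, rfl⟩⟩, rfl⟩
    · rintro ⟨⟨_, ⟨h, rfl⟩⟩, rfl⟩
      exact ⟨h, rfl⟩
  unfold IndepOrbit at hind ⊢
  rw [horb]
  exact hind

/-- class numbers of quotients -/
theorem card_conj_le_of_surjective {G G' : Type*} [Group G] [Group G'] [Finite G] (f : G →* G')
    (hf : Function.Surjective f) : Nat.card (ConjClasses G') ≤ Nat.card (ConjClasses G) := by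
  haveI : Finite (ConjClasses G) := Quotient.finite _
  exact Nat.card_le_card_of_surjective (ConjClasses.map f) (ConjClasses.map_surjective hf)

/-- class numbers of subgroups -/
theorem card_conj_mul_le {G : Type*} [Group G] [Finite G] (K : Subgroup G) :
    Nat.card (ConjClasses K) * Nat.card K ≤ Nat.card (ConjClasses G) * Nat.card G := by
  classical
  rw [← card_comm_eq_card_conjClasses_mul_card, ← card_comm_eq_card_conjClasses_mul_card]
  apply Nat.card_le_card_of_injective (fun x : {p : K × K // Commute p.1 p.2} =>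
    (⟨((x.1.1 : G), (x.1.2 : G)), by
      have := x.2
      have h2 : (x.1.1 * x.1.2 : K) = x.1.2 * x.1.1 := this
      exact congrArg Subtype.val h2⟩ : {p : G × G // Commute p.1 p.2}))
  intro x y hxy
  have h := congrArg Subtype.val hxy
  rw [Prod.mk.injEq] at h
  exact Subtype.ext (Prod.ext (Subtype.ext h.1) (Subtype.ext h.2))

/-- Admissibility of the constant `M` for the action of `H` on `V`: either the hypothesis on
element orders, or `M` is at least the fourth power of class number times number of orbits. -/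
def Adm (N0 M : ℕ) (H V : Type*) [Group H] [AddCommGroup V] [DistribMulAction H V] : Prop :=
  (OrdHyp N0 M H ∧ ∀ p : ℕ, p.Prime → p ∣ Nat.card V → p ∣ N0) ∨
    (Nat.card (ConjClasses H) * (orb H V - 1)) ^ 4 ≤ M

/-- primitive case -/
theorem prim_case {s M N0 L0 : ℕ} (hL16 : 16 ≤ L0) (hnum : ∀ L, L0 ≤ L → ∀ l, 2 ^ l ≤ L ^ 2 →
    ((L * (((L ^ 2) ^ Nat.log 2 (L ^ 2)) * (L ^ 2 * (l * 2 ^ s) ^ l))) *
      (L + 2)) ^ 2 ≤ 2 ^ L)
    {H V : Type u} [Group H] [Finite H] [AddCommGroup V] [Finite V] [DistribMulAction H V]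
    [Nontrivial V] (hP : Prim H V) (hsf : SecAut s H) (hadm : Adm N0 M H V)
    (horb2 : 2 ≤ orb H V)
    (hbig : 2 ^ L0 ≤ Nat.card V) (hM : M < Nat.card V) :
    Nat.log 2 (Nat.card V) + 2 ≤ orb H V := by
  classical
  haveI : Finite (img H V) := inferInstance
  have hsur : Function.Surjective (toU H V).rangeRestrict := (toU H V).rangeRestrict_surjective
  have hP' : Prim (img H V) V := prim_img hP
  have hsf' : SecAut s (img H V) := hsf.of_surjective _ hsur
  obtain ⟨A, P, hAn, hPn, hA, hAP, hPC, hPP, hZ, hnab⟩ := exists_AP (img H V)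
  obtain ⟨h1, h2⟩ := struct_bound hP' A P hA hAP hPC hPP hZ
  set D := Subgroup.centralizer (P : Set (img H V)) with hD
  haveI : D.Normal := inferInstance
  have hAD : A ≤ D := by
    intro a ha
    rw [hD, Subgroup.mem_centralizer_iff]
    intro p hp
    exact ((Subgroup.mem_centralizer_iff.mp (hPC hp)) a ha).symm
  have hDC : D ≤ Subgroup.centralizer (A : Set (img H V)) := by
    apply Subgroup.centralizer_le
    exact hAP
  obtain ⟨l, hl, hDl⟩ := card_D_le hP' A D hA hAD hDC hnab (a := 2 ^ s) (by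
    intro T hT0 hTs hTc
    exact (hsf'.of_surjective _ (QuotientGroup.mk'_surjective A)).card_simp_le T hT0 hTs hTc)
  have hAcl := abel_le_classes hP' A hA
  set L := Nat.log 2 (Nat.card V) with hL
  have hV0 : Nat.card V ≠ 0 := Nat.card_pos.ne'
  have hLL0 : L0 ≤ L := Nat.le_log_of_pow_le (by norm_num) hbig
  have hLV : 2 ^ L ≤ Nat.card V := Nat.pow_log_le_self 2 hV0
  have hA2 : (Nat.card A) ^ 2 ≤ Nat.card V := by
    rcases hadm with ⟨hord, hdiv⟩ | hcl
    · have hord' : OrdHyp N0 M (img H V) := hord.of_surjective _ hsur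
      rcases h2 with h2 | ⟨hcyc, hdvd, hpp⟩
      · exact h2
      · obtain ⟨p, k, hp, hk, hpk⟩ := hpp
        have hp' : p.Prime := hp.nat_prime
        have hpV : p ∣ Nat.card V := by
          rw [← hpk]
          exact dvd_pow_self p (by omega)
        obtain ⟨a, ha⟩ := IsCyclic.exists_ofOrder_eq_natCard (α := A)
        have h3 := hord' p hp' (hdiv p hp' hpV) k (by rw [hpk]; exact hM) (a : img H V) (by
          rw [Subgroup.orderOf_coe, ha, hpk]
          exact hdvd)
        rw [Subgroup.orderOf_coe, ha, hpk] at h3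
        exact h3
    · have h3 : Nat.card (ConjClasses (img H V)) ≤
          Nat.card (ConjClasses H) * (orb H V - 1) := by
        calc Nat.card (ConjClasses (img H V)) ≤ Nat.card (ConjClasses H) :=
              card_conj_le_of_surjective _ hsur
          _ = Nat.card (ConjClasses H) * 1 := (mul_one _).symm
          _ ≤ _ := Nat.mul_le_mul_left _ (by omega)
      have h4 : ((Nat.card A) ^ 2) ^ 2 ≤ (Nat.card V) ^ 2 := by
        calc ((Nat.card A) ^ 2) ^ 2 = (Nat.card A) ^ 4 := by ring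
          _ ≤ (Nat.card (ConjClasses (img H V)) * L) ^ 4 := Nat.pow_le_pow_left hAcl 4
          _ = (Nat.card (ConjClasses (img H V))) ^ 4 * L ^ 4 := by ring
          _ ≤ (Nat.card (ConjClasses H) * (orb H V - 1)) ^ 4 * 2 ^ L :=
              Nat.mul_le_mul (Nat.pow_le_pow_left h3 4) (four_le L (by omega))
          _ ≤ Nat.card V * Nat.card V := Nat.mul_le_mul (hcl.trans hM.le) hLV
          _ = _ := by ring
      exact (Nat.pow_le_pow_iff_left (by norm_num)).mp h4
  have hkey := hnum L hLL0 l hl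
  set X := (l * 2 ^ s) ^ l with hX
  have h3 : Nat.card (img H V) ≤ (L * (((L ^ 2) ^ Nat.log 2 (L ^ 2)) * (L ^ 2 * X))) *
      Nat.card A := by
    calc Nat.card (img H V) ≤ L * (((L ^ 2) ^ Nat.log 2 (L ^ 2)) * (L ^ 2 * Nat.card D)) := h1
      _ ≤ L * (((L ^ 2) ^ Nat.log 2 (L ^ 2)) * (L ^ 2 * (Nat.card A * X))) := by
          gcongr
      _ = _ := by ring
  have h4 : (Nat.card (img H V) * (L + 2)) ^ 2 ≤ (Nat.card V) ^ 2 := by
    calc (Nat.card (img H V) * (L + 2)) ^ 2
        ≤ (((L * (((L ^ 2) ^ Nat.log 2 (L ^ 2)) * (L ^ 2 * X))) * Nat.card A) * (L + 2)) ^ 2 := by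
          gcongr
      _ = ((L * (((L ^ 2) ^ Nat.log 2 (L ^ 2)) * (L ^ 2 * X))) * (L + 2)) ^ 2 *
          (Nat.card A) ^ 2 := by ring
      _ ≤ 2 ^ L * Nat.card V := Nat.mul_le_mul hkey hA2
      _ ≤ Nat.card V * Nat.card V := Nat.mul_le_mul_right _ hLV
      _ = _ := by ring
  have h5 : Nat.card (img H V) * (L + 2) ≤ Nat.card V := (Nat.pow_le_pow_iff_left (by norm_num)).mp h4
  have h6 := card_le_orb_mul H V
  have h7 : Nat.card (img H V) * (L + 2) ≤ Nat.card (img H V) * orb H V := by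
    rw [mul_comm (Nat.card (img H V)) (orb H V)]
    exact h5.trans h6
  exact Nat.le_of_mul_le_mul_left h7 Nat.card_pos

end H60.KG
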