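import Pool.Agent.H60.KG.Fld
import Pool.Agent.H60.KG.Cnt
import Pool.Agent.H60.KG.Lin

/-!
The order of a primitive linear group in terms of the abelian normal subgroup and the centralizer
of the class-two part.
-/

namespace H60.KG

open MulAction

universe u

variable {H V : Type u} [Group H] [Finite H] [AddCommGroup V] [Finite V] [DistribMulAction H V]

theorem struct_bound [FaithfulSMul H V] [Nontrivial V] (hPr : Prim H V) (A P : Subgroup H)
    [A.Normal] [P.Normal] (hA : ∀ a ∈ A, ∀ b ∈ A, a * b = b * a) (hAP : A ≤ P)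
    (hPC : P ≤ Subgroup.centralizer (A : Set H))
    (hPP : ∀ x ∈ P, ∀ y ∈ P, x * y * x⁻¹ * y⁻¹ ∈ A)
    (hZ : P ⊓ Subgroup.centralizer (P : Set H) ≤ A) :
    Nat.card H ≤ Nat.log 2 (Nat.card V) *
      (((Nat.log 2 (Nat.card V)) ^ 2) ^ Nat.log 2 ((Nat.log 2 (Nat.card V)) ^ 2) *
        ((Nat.log 2 (Nat.card V)) ^ 2 *
          Nat.card (Subgroup.centralizer (P : Set H)))) ∧
    ((Nat.card A) ^ 2 ≤ Nat.card V ∨
      (IsCyclic A ∧ Nat.card A ∣ Nat.card V - 1 ∧ IsPrimePow (Nat.card V))) := by
  classical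
  obtain ⟨K, _, _, _, χ, σ, h1, h2, h3⟩ := exists_field (V := V) hPr A hA
  haveI : Module.Finite K V := Module.Finite.of_finite
  set L := Nat.log 2 (Nat.card V) with hL
  set b := Module.finrank K V with hb
  have hVK : Nat.card V = Nat.card K ^ b := Module.natCard_eq_pow_finrank
  have hK2 : 2 ≤ Nat.card K := Finite.one_lt_card_iff_nontrivial.mpr inferInstance
  have hb1 : 1 ≤ b := Module.finrank_pos
  have hbL : b ≤ L := by
    apply Nat.le_log_of_pow_le (by norm_num)
    rw [hVK]
    exact Nat.pow_le_pow_left hK2 _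
  have hKV : Nat.card K ≤ Nat.card V := by
    rw [hVK]
    exact Nat.le_self_pow (by omega) _
  have hKL : Nat.log 2 (Nat.card K) ≤ L := Nat.log_mono_right hKV
  obtain ⟨v0, hv0⟩ := exists_ne (0 : V)
  set C := Subgroup.centralizer (A : Set H) with hC
  have hCK : ∀ x ∈ C, ∀ (c : K) (v : V), x • (c • v) = c • (x • v) := by
    intro x hx c v
    apply h3 x _ c v
    intro a ha
    exact ((Subgroup.mem_centralizer_iff.mp hx) a ha).symm
  -- kernel of `σ`
  have hker : σ.ker ≤ C := by
    intro h hh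
    rw [hC, Subgroup.mem_centralizer_iff]
    intro a ha
    apply FaithfulSMul.eq_of_smul_eq_smul (α := V)
    intro v
    have e1 := h2 h (χ ⟨a, ha⟩) v
    rw [h1] at e1
    rw [MonoidHom.mem_ker] at hh
    rw [hh] at e1
    have e2 : ((1 : RingAut K) (χ ⟨a, ha⟩)) = χ ⟨a, ha⟩ := rfl
    rw [e2, h1] at e1
    rw [mul_smul, mul_smul]
    exact e1.symm
  haveI : Finite (RingAut K) :=
    Finite.of_injective (fun f : RingAut K => (f : K → K)) DFunLike.coe_injective
  have s1 : Nat.card H ≤ Nat.card C * Nat.log 2 (Nat.card K) := by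
    have e := card_le_ker_mul σ ⊤
    rw [top_inf_eq, Subgroup.card_top] at e
    refine e.trans (Nat.mul_le_mul ?_ card_ringAut_le)
    exact Subgroup.card_le_of_le hker
  -- the quotient
  set Pb : Subgroup (H ⧸ A) := P.map (QuotientGroup.mk' A) with hPb
  haveI : Pb.Normal := Subgroup.Normal.map inferInstance _ (QuotientGroup.mk'_surjective A)
  let f : H →* MulAut Pb := (MulAut.conjNormal (H := Pb)).comp (QuotientGroup.mk' A)
  set X : Subgroup H := C ⊓ f.ker with hX
  have hXP : ∀ g ∈ P, ∀ x ∈ X, g * x * g⁻¹ * x⁻¹ ∈ A := by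
    intro g hg x hx
    have e1 : f x = 1 := hx.2
    have e2 := DFunLike.congr_fun e1 (⟨(QuotientGroup.mk' A) g, ⟨g, hg, rfl⟩⟩ : Pb)
    have e3 := congrArg Subtype.val e2
    have e4 : (QuotientGroup.mk' A x) * (QuotientGroup.mk' A g) * (QuotientGroup.mk' A x)⁻¹ =
      QuotientGroup.mk' A g := e3
    have e5 : (QuotientGroup.mk' A) (g * x * g⁻¹ * x⁻¹) = 1 := by
      simp only [map_mul, map_inv]
      rw [mul_inv_eq_one, mul_inv_eq_iff_eq_mul, ← mul_inv_eq_iff_eq_mul]
      rw [mul_inv_eq_iff_eq_mul] at e4 ⊢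
      exact e4.symm
    exact (QuotientGroup.eq_one_iff _).mp e5
  have hDX : X ⊓ Subgroup.centralizer (P : Set H) ≤ Subgroup.centralizer (P : Set H) :=
    inf_le_right
  have s2 : Nat.card C ≤ Nat.card X * Nat.card (MulAut Pb) := card_le_ker_mul f C
  have scal : ∀ z ∈ A, ∃ c : K, ∀ v : V, z • v = c • v :=
    fun z hz => ⟨χ ⟨z, hz⟩, fun v => (h1 ⟨z, hz⟩ v).symm⟩
  have s3 : Nat.card X ≤ Nat.card (Subgroup.centralizer (P : Set H)) * b ^ 2 := by
    refine (card_le_of_scalar_comm (K := K) X P (fun x hx => hCK x hx.1)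
      (fun x hx => hCK x (hPC hx)) (fun g hg x hx => scal _ (hXP g hg x hx))).trans ?_
    exact Nat.mul_le_mul_right _ (Subgroup.card_le_of_le hDX)
  have s4 : Nat.card P ≤ Nat.card A * b ^ 2 := by
    refine (card_le_of_scalar_comm (K := K) P P (fun x hx => hCK x (hPC hx))
      (fun x hx => hCK x (hPC hx)) (fun g hg x hx => scal _ (hPP g hg x hx))).trans ?_
    exact Nat.mul_le_mul_right _ (Subgroup.card_le_of_le hZ)
  have s5 : Nat.card P = Nat.card A * Nat.card Pb := by
    have e := Subgroup.card_mul_index ((QuotientGroup.mk' A).comp P.subtype).ker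
    rw [Subgroup.index_ker, MonoidHom.range_comp, Subgroup.range_subtype] at e
    rw [← e]
    congr 1
    apply Nat.card_congr
    refine
      { toFun := fun x => ⟨x.1.1, ?_⟩
        invFun := fun a => ⟨⟨a.1, hAP a.2⟩, ?_⟩
        left_inv := fun x => rfl
        right_inv := fun a => rfl }
    · exact (QuotientGroup.eq_one_iff _).mp x.2
    · exact (QuotientGroup.eq_one_iff _).mpr a.2
  have s6 : Nat.card Pb ≤ L ^ 2 := by
    rw [s5] at s4
    exact (Nat.le_of_mul_le_mul_left s4 Nat.card_pos).trans (Nat.pow_le_pow_left hbL 2)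
  have s7 : Nat.card (MulAut Pb) ≤ (L ^ 2) ^ Nat.log 2 (L ^ 2) := by
    refine card_mulAut_le.trans ?_
    refine (Nat.pow_le_pow_left s6 _).trans ?_
    exact Nat.pow_le_pow_right (pow_pos (by omega) 2) (Nat.log_mono_right s6)
  refine ⟨?_, ?_⟩
  · calc Nat.card H ≤ Nat.card C * Nat.log 2 (Nat.card K) := s1
      _ ≤ (Nat.card X * Nat.card (MulAut Pb)) * L := Nat.mul_le_mul s2 hKL
      _ ≤ ((Nat.card (Subgroup.centralizer (P : Set H)) * b ^ 2) *
          ((L ^ 2) ^ Nat.log 2 (L ^ 2))) * L :=
          Nat.mul_le_mul_right _ (Nat.mul_le_mul s3 s7)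
      _ ≤ ((Nat.card (Subgroup.centralizer (P : Set H)) * L ^ 2) *
          ((L ^ 2) ^ Nat.log 2 (L ^ 2))) * L :=
          Nat.mul_le_mul_right _ (Nat.mul_le_mul_right _ (Nat.mul_le_mul_left _
            (Nat.pow_le_pow_left hbL 2)))
      _ = _ := by ring
  · -- the abelian group
    have hinj : Function.Injective χ := by
      intro a a' haa
      apply Subtype.ext
      apply FaithfulSMul.eq_of_smul_eq_smul (α := V)
      intro v
      rw [← h1, ← h1, haa]
    have hunit : Nat.card A ∣ Nat.card K - 1 := by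
      have hinj' : Function.Injective χ.toHomUnits := by
        intro a a' haa
        apply hinj
        have := congrArg Units.val haa
        simpa using this
      have e1 : Nat.card A = Nat.card χ.toHomUnits.range :=
        Nat.card_congr (MonoidHom.ofInjective hinj').toEquiv
      rw [e1]
      haveI := Fintype.ofFinite K
      have e2 : Nat.card K - 1 = Nat.card Kˣ := by
        rw [Nat.card_eq_fintype_card, Nat.card_eq_fintype_card, Fintype.card_units]
      rw [e2]
      exact Subgroup.card_subgroup_dvd_card _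
    by_cases hb2 : b = 1
    · right
      rw [hb2, pow_one] at hVK
      refine ⟨isCyclic_of_subgroup_isDomain χ hinj, ?_, ?_⟩
      · rw [hVK]; exact hunit
      · haveI := Fintype.ofFinite K
        rw [hVK, Nat.card_eq_fintype_card]; exact FiniteField.isPrimePow_card K
    · left
      have e1 : Nat.card A ≤ Nat.card K := by
        have := Nat.le_of_dvd (by omega) hunit
        omega
      calc (Nat.card A) ^ 2 ≤ (Nat.card K) ^ 2 := Nat.pow_le_pow_left e1 2
        _ ≤ Nat.card K ^ b := Nat.pow_le_pow_right (by omega) (by omega)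
        _ = Nat.card V := hVK.symm

/-- An abelian normal subgroup of a primitive faithful group is small compared with the class
number. -/
theorem abel_le_classes [FaithfulSMul H V] [Nontrivial V] (hPr : Prim H V) (A : Subgroup H)
    [hAn : A.Normal] (hA : ∀ a ∈ A, ∀ b ∈ A, a * b = b * a) :
    Nat.card A ≤ Nat.card (ConjClasses H) * Nat.log 2 (Nat.card V) := by
  classical
  obtain ⟨K, _, _, _, χ, σ, h1, h2, h3⟩ := exists_field (V := V) hPr A hA
  haveI : Module.Finite K V := Module.Finite.of_finite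
  have hVK : Nat.card V = Nat.card K ^ Module.finrank K V := Module.natCard_eq_pow_finrank
  have hb1 : 1 ≤ Module.finrank K V := Module.finrank_pos
  have hKV : Nat.card K ≤ Nat.card V := by
    rw [hVK]
    exact Nat.le_self_pow (by omega) _
  have hKL : Nat.log 2 (Nat.card K) ≤ Nat.log 2 (Nat.card V) := Nat.log_mono_right hKV
  have hker : ∀ h ∈ σ.ker, ∀ a ∈ A, a * h = h * a := by
    intro h hh a ha
    apply FaithfulSMul.eq_of_smul_eq_smul (α := V)
    intro v
    have e1 := h2 h (χ ⟨a, ha⟩) v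
    rw [h1] at e1
    rw [MonoidHom.mem_ker] at hh
    rw [hh] at e1
    have e2 : ((1 : RingAut K) (χ ⟨a, ha⟩)) = χ ⟨a, ha⟩ := rfl
    rw [e2, h1] at e1
    rw [mul_smul, mul_smul]
    exact e1.symm
  haveI : Finite (RingAut K) :=
    Finite.of_injective (fun f : RingAut K => (f : K → K)) DFunLike.coe_injective
  haveI : Finite (ConjClasses H) := Quotient.finite _
  -- representatives inside `A`
  let rep : ConjClasses H → H := fun c =>
    if h : ∃ x ∈ A, ConjClasses.mk x = c then h.choose else 1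
  have hrep : ∀ a ∈ A, rep (ConjClasses.mk a) ∈ A ∧
      ConjClasses.mk (rep (ConjClasses.mk a)) = ConjClasses.mk a := by
    intro a ha
    have h : ∃ x ∈ A, ConjClasses.mk x = ConjClasses.mk a := ⟨a, ha, rfl⟩
    simp only [rep, dif_pos h]
    exact h.choose_spec
  have hg : ∀ a : A, ∃ g : H, g * rep (ConjClasses.mk (a : H)) * g⁻¹ = a := by
    intro a
    have h4 := (hrep a a.2).2
    rw [ConjClasses.mk_eq_mk_iff_isConj, isConj_iff] at h4
    exact h4
  choose g hg using hg
  have hinj : Function.Injective (fun a : A => (ConjClasses.mk (a : H), σ (g a))) := by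
    intro a b hab
    rw [Prod.mk.injEq] at hab
    obtain ⟨e1, e2⟩ := hab
    apply Subtype.ext
    have hk : (g b)⁻¹ * g a ∈ σ.ker := by
      rw [MonoidHom.mem_ker, map_mul, map_inv, e2, inv_mul_cancel]
    have e3 := hker _ hk _ (hrep a a.2).1
    rw [← hg a, ← hg b, ← e1]
    calc g a * rep (ConjClasses.mk (a : H)) * (g a)⁻¹
        = g b * (((g b)⁻¹ * g a) * rep (ConjClasses.mk (a : H))) * (g a)⁻¹ := by group
      _ = g b * (rep (ConjClasses.mk (a : H)) * ((g b)⁻¹ * g a)) * (g a)⁻¹ := by rw [e3]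
      _ = g b * rep (ConjClasses.mk (a : H)) * (g b)⁻¹ := by group
  have h4 := Nat.card_le_card_of_injective _ hinj
  rw [Nat.card_prod] at h4
  exact h4.trans (Nat.mul_le_mul_left _ (card_ringAut_le.trans hKL))

end H60.KG
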